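import Mathlib

/-!
# A critical 7-dimensional update family with an irrational exponent: definitions

Cells live at the points `(2 i, 2 j, 2 k, *, 0, 0)` of `ℤ^6`; a cell carrying the symbol `σ` is the
pair of sites `x`, `x + kap σ • e₃`.  The symbols compute Pascal's triangle modulo two.
-/

set_option autoImplicit false

namespace Pool.Agent.Boot

/-- the six symbols: corner, east axis, north axis, zero, one, vertical line -/
inductive Sym
  | C | E | N | Z | O | G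
  deriving DecidableEq, Fintype

/-- the height at which the symbol is written -/
def kap : Sym → ℤ
  | .C => 2
  | .E => 3
  | .N => 4
  | .Z => 5
  | .O => 6
  | .G => 7

/-- the vector `t • e₃` of `ℤ^6` -/
def ff (t : ℤ) : Fin 6 → ℤ := ![0, 0, 0, t, 0, 0]

/-- the step vectors `2 e₀`, `2 e₁`, `2 e₂` of `ℤ^6` -/
def st : Fin 3 → Fin 6 → ℤ
  | 0 => ![2, 0, 0, 0, 0, 0]
  | 1 => ![0, 2, 0, 0, 0, 0]
  | 2 => ![0, 0, 2, 0, 0, 0]

/-- rules with one input cell: direction, input symbol, output symbol -/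
def sing : Fin 3 → Sym → Sym → Bool
  | 0, .C, .E => true
  | 0, .E, .E => true
  | 1, .C, .N => true
  | 1, .N, .N => true
  | 2, .O, .G => true
  | 2, .G, .G => true
  | _, _, _ => false

/-- rules with two input cells (west cell, south cell, output symbol): addition modulo two -/
def dbl : Sym → Sym → Sym → Bool
  | .N, .E, .Z => true
  | .N, .Z, .O => true
  | .N, .O, .Z => true
  | .Z, .E, .O => true
  | .Z, .Z, .Z => true
  | .Z, .O, .O => true
  | .O, .E, .Z => true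
  | .O, .Z, .O => true
  | .O, .O, .Z => true
  | _, _, _ => false

/-- three consecutive sites in the direction `j` -/
def P0 (j : Fin 6) (t : ℤ) : Finset (Fin 6 → ℤ) :=
  {Pi.single j (-t), Pi.single j (-2 * t), Pi.single j (-3 * t)}

/-- one input cell; `q` is the position of the output site in the output cell -/
def P1 (r : Fin 3) (a : Sym) (q : ℤ) : Finset (Fin 6 → ℤ) :=
  {ff (-q) - st r, ff (kap a - q) - st r}

/-- two input cells -/
def P2 (a b : Sym) (q : ℤ) : Finset (Fin 6 → ℤ) :=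
  {ff (-q) - st 0, ff (kap a - q) - st 0, ff (-q) - st 1, ff (kap b - q) - st 1}

/-- the trigger: a `G` cell and the site just below its base -/
def P3 (z : Fin 6 → ℤ) : Finset (Fin 6 → ℤ) := {-z, ff 7 - z, ff (-1) - z}

/-- the pattern rules -/
def Pats : Finset (Finset (Fin 6 → ℤ)) :=
  (((Finset.univ : Finset (Fin 3 × Sym × Sym)).filter fun t => sing t.1 t.2.1 t.2.2 = true).biUnion
      fun t => {P1 t.1 t.2.1 0, P1 t.1 t.2.1 (kap t.2.2)}) ∪
  (((Finset.univ : Finset (Sym × Sym × Sym)).filter fun t => dbl t.1 t.2.1 t.2.2 = true).biUnion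
      fun t => {P2 t.1 t.2.1 0, P2 t.1 t.2.1 (kap t.2.2)}) ∪
  (((Finset.univ : Finset (Fin 6 → Fin 3)).filter fun z => z ≠ 0).image
      fun z => P3 (fun j => ((z j : ℕ) : ℤ)))

/-- a rule: three sites below in the direction `i` (sign `s`), and the sites of `P` in the
hyperplane orthogonal to `i` -/
def mk (i : Fin 7) (s : ℤ) (P : Finset (Fin 6 → ℤ)) : Finset (Fin 7 → ℤ) :=
  {Pi.single i (-s), Pi.single i (-2 * s), Pi.single i (-3 * s)} ∪
    P.image (fun v => (i.insertNth (0 : ℤ) v : Fin 7 → ℤ))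

/-- sign of a boolean -/
def sg (b : Bool) : ℤ := if b then 1 else -1

/-- the update family -/
def U : Finset (Finset (Fin 7 → ℤ)) :=
  (Finset.univ.biUnion fun i : Fin 7 => Pats.image (mk i 1)) ∪
    (Finset.univ : Finset (Fin 7 × Fin 6 × Bool × Bool)).image
      fun t => mk t.1 (sg t.2.2.1) (P0 t.2.1 (sg t.2.2.2))

/-- sets of `ℤ^7` closed under the update family -/
def Closed (T : Set (Fin 7 → ℤ)) : Prop :=
  ∀ y : Fin 7 → ℤ, (∃ X ∈ U, ∀ x ∈ X, y + x ∈ T) → y ∈ T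

theorem mem_Pats {P : Finset (Fin 6 → ℤ)} : P ∈ Pats ↔
    (∃ r a o, sing r a o = true ∧ (P = P1 r a 0 ∨ P = P1 r a (kap o))) ∨
    (∃ a b o, dbl a b o = true ∧ (P = P2 a b 0 ∨ P = P2 a b (kap o))) ∨
    (∃ z : Fin 6 → Fin 3, z ≠ 0 ∧ P = P3 (fun j => ((z j : ℕ) : ℤ))) := by
  unfold Pats
  simp only [Finset.mem_union, Finset.mem_biUnion, Finset.mem_filter, Finset.mem_univ, true_and,
    Finset.mem_insert, Finset.mem_singleton, Finset.mem_image, Prod.exists, or_assoc]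
  constructor
  · rintro (⟨r, a, o, h, h'⟩ | ⟨a, b, o, h, h'⟩ | ⟨z, h, h'⟩)
    · exact Or.inl ⟨r, a, o, h, h'⟩
    · exact Or.inr (Or.inl ⟨a, b, o, h, h'⟩)
    · exact Or.inr (Or.inr ⟨z, h, h'.symm⟩)
  · rintro (⟨r, a, o, h, h'⟩ | ⟨a, b, o, h, h'⟩ | ⟨z, h, h'⟩)
    · exact Or.inl ⟨r, a, o, h, h'⟩
    · exact Or.inr (Or.inl ⟨a, b, o, h, h'⟩)
    · exact Or.inr (Or.inr ⟨z, h, h'.symm⟩)

theorem mem_U {X : Finset (Fin 7 → ℤ)} : X ∈ U ↔
    (∃ i, ∃ P ∈ Pats, X = mk i 1 P) ∨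
    (∃ i j, ∃ s t : Bool, X = mk i (sg s) (P0 j (sg t))) := by
  unfold U
  simp only [Finset.mem_union, Finset.mem_biUnion, Finset.mem_univ, true_and, Finset.mem_image,
    Prod.exists]
  constructor
  · rintro (⟨i, P, h, h'⟩ | ⟨i, j, s, t, h⟩)
    · exact Or.inl ⟨i, P, h, h'.symm⟩
    · exact Or.inr ⟨i, j, s, t, h.symm⟩
  · rintro (⟨i, P, h, h'⟩ | ⟨i, j, s, t, h⟩)
    · exact Or.inl ⟨i, P, h, h'.symm⟩
    · exact Or.inr ⟨i, j, s, t, h.symm⟩

theorem mem_mk {i : Fin 7} {s : ℤ} {P : Finset (Fin 6 → ℤ)} {x : Fin 7 → ℤ} : x ∈ mk i s P ↔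
    x = Pi.single i (-s) ∨ x = Pi.single i (-2 * s) ∨ x = Pi.single i (-3 * s) ∨
      ∃ v ∈ P, x = (i.insertNth (0 : ℤ) v : Fin 7 → ℤ) := by
  unfold mk
  simp only [Finset.mem_union, Finset.mem_insert, Finset.mem_singleton, Finset.mem_image,
    or_assoc]
  constructor
  · rintro (h | h | h | ⟨v, hv, h⟩)
    · exact Or.inl h
    · exact Or.inr (Or.inl h)
    · exact Or.inr (Or.inr (Or.inl h))
    · exact Or.inr (Or.inr (Or.inr ⟨v, hv, h.symm⟩))
  · rintro (h | h | h | ⟨v, hv, h⟩)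
    · exact Or.inl h
    · exact Or.inr (Or.inl h)
    · exact Or.inr (Or.inr (Or.inl h))
    · exact Or.inr (Or.inr (Or.inr ⟨v, hv, h.symm⟩))

/-- the periodic lift of a subset of the torus -/
def lift {N : ℕ} (A : Finset (Fin 7 → ZMod N)) : Set (Fin 7 → ℤ) :=
  {x | (fun i => ((x i : ℤ) : ZMod N)) ∈ A}

/-- percolation on the torus, in terms of the periodic lift -/
def Perc (B : Set (Fin 7 → ℤ)) : Prop := ∀ T : Set (Fin 7 → ℤ), Closed T → B ⊆ T → T = Set.univ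

/-- probability of an event for a random subset with density `p` of a finite set -/
noncomputable def Pr {V : Type*} [Fintype V] [DecidableEq V] (p : ℝ) (E : Finset V → Prop) : ℝ :=
  open Classical in
  ∑ A ∈ (Finset.univ : Finset (Finset V)).filter E,
    p ^ A.card * (1 - p) ^ (Fintype.card V - A.card)

/-- position of the cell `(m, n, k)` -/
def cv (m n k : ℕ) : Fin 6 → ℤ := ![2 * (m : ℤ), 2 * (n : ℤ), 2 * (k : ℤ), 0, 0, 0]

/-- the trigger configuration in the layer `x i = a i + ℓ` above the cube `a + [0, ℓ)^7` -/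
def Trig (i : Fin 7) (a : Fin 7 → ℤ) (ℓ : ℕ) (B : Set (Fin 7 → ℤ)) : Prop :=
  ∃ (v : Fin 6 → ℤ) (m n k : ℕ), 1 ≤ m ∧ 1 ≤ n ∧ 1 ≤ k ∧ (m + n).choose m % 2 = 1 ∧
    (∀ j, 2 ≤ v j ∧ v j + 10 ≤ ℓ) ∧ v 0 + 2 * m + 10 ≤ ℓ ∧ v 1 + 2 * n + 10 ≤ ℓ ∧
    v 2 + 2 * k + 10 ≤ ℓ ∧
    a + (i.insertNth (ℓ : ℤ) v : Fin 7 → ℤ) ∈ B ∧
    a + (i.insertNth (ℓ : ℤ) (v + ff 2) : Fin 7 → ℤ) ∈ B ∧
    a + (i.insertNth (ℓ : ℤ) (v + cv m n k + ff (-1)) : Fin 7 → ℤ) ∈ B

/-- number of odd entries of Pascal's triangle in the square `[0, W)²` -/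
def oddCount (W : ℕ) : ℕ :=
  ((Finset.range W ×ˢ Finset.range W).filter fun t => (t.1 + t.2).choose t.1 % 2 = 1).card

/-- the exponent -/
noncomputable def alph : ℝ := (7 + Real.logb 2 3) / 3

end Pool.Agent.Boot
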