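import Pool.Agent.Boot.Defs

/-!
# Counting odd entries of Pascal's triangle
-/

set_option autoImplicit false

namespace Pool.Agent.Boot

theorem odd_step (a b α β : ℕ) (hα : α < 2) (hβ : β < 2) :
    ((2 * a + α) + (2 * b + β)).choose (2 * a + α) % 2 = 1 ↔
      (a + b).choose a % 2 = 1 ∧ ¬ (α = 1 ∧ β = 1) := by
  have : Fact (Nat.Prime 2) := ⟨Nat.prime_two⟩
  have h := Choose.choose_modEq_choose_mod_mul_choose_div_nat (p := 2)
    (n := (2 * a + α) + (2 * b + β)) (k := 2 * a + α)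
  have h1 : (2 * a + α) % 2 = α := by omega
  have h2 : (2 * a + α) / 2 = a := by omega
  rw [h1, h2] at h
  have hα' : α = 0 ∨ α = 1 := by omega
  have hβ' : β = 0 ∨ β = 1 := by omega
  unfold Nat.ModEq at h
  rcases hα' with rfl | rfl <;> rcases hβ' with rfl | rfl
  · have h3 : (2 * a + 0 + (2 * b + 0)) % 2 = 0 := by omega
    have h4 : (2 * a + 0 + (2 * b + 0)) / 2 = a + b := by omega
    rw [h3, h4] at h
    rw [h]
    simp
  · have h3 : (2 * a + 0 + (2 * b + 1)) % 2 = 1 := by omega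
    have h4 : (2 * a + 0 + (2 * b + 1)) / 2 = a + b := by omega
    rw [h3, h4] at h
    rw [h]
    simp
  · have h3 : (2 * a + 1 + (2 * b + 0)) % 2 = 1 := by omega
    have h4 : (2 * a + 1 + (2 * b + 0)) / 2 = a + b := by omega
    rw [h3, h4] at h
    rw [h]
    simp
  · have h3 : (2 * a + 1 + (2 * b + 1)) % 2 = 0 := by omega
    rw [h3] at h
    rw [h]
    simp

theorem oddCount_two_mul (W : ℕ) : oddCount (2 * W) = 3 * oddCount W := by
  unfold oddCount
  have e : ((Finset.range (2 * W) ×ˢ Finset.range (2 * W)).filter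
      fun t : ℕ × ℕ => (t.1 + t.2).choose t.1 % 2 = 1)
      = (((Finset.range W ×ˢ Finset.range W).filter
        fun t : ℕ × ℕ => (t.1 + t.2).choose t.1 % 2 = 1) ×ˢ
          ({(0, 0), (0, 1), (1, 0)} : Finset (ℕ × ℕ))).image
            fun q : (ℕ × ℕ) × (ℕ × ℕ) => (2 * q.1.1 + q.2.1, 2 * q.1.2 + q.2.2) := by
    ext ⟨x, y⟩
    simp only [Finset.mem_filter, Finset.mem_product, Finset.mem_range, Finset.mem_image,
      Prod.exists, Finset.mem_insert, Finset.mem_singleton, Prod.mk.injEq]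
    constructor
    · rintro ⟨⟨hx, hy⟩, h⟩
      have hx' : 2 * (x / 2) + x % 2 = x := by omega
      have hy' : 2 * (y / 2) + y % 2 = y := by omega
      have hs := odd_step (x / 2) (y / 2) (x % 2) (y % 2) (by omega) (by omega)
      rw [hx', hy'] at hs
      have hs' := hs.1 h
      refine ⟨x / 2, y / 2, x % 2, y % 2, ⟨⟨⟨by omega, by omega⟩, hs'.1⟩, ?_⟩, by omega, by omega⟩
      have := hs'.2
      omega
    · rintro ⟨a, b, α, β, ⟨⟨⟨ha, hb⟩, h⟩, h'⟩, rfl, rfl⟩
      have hα : α < 2 := by omega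
      have hβ : β < 2 := by omega
      refine ⟨⟨by omega, by omega⟩, (odd_step a b α β hα hβ).2 ⟨h, by omega⟩⟩
  rw [e, Finset.card_image_of_injOn, Finset.card_product]
  · have : ({(0, 0), (0, 1), (1, 0)} : Finset (ℕ × ℕ)).card = 3 := by decide
    rw [this, mul_comm]
  · rintro ⟨⟨a, b⟩, ⟨α, β⟩⟩ h ⟨⟨a', b'⟩, ⟨α', β'⟩⟩ h' he
    simp only [Finset.coe_product, Set.mem_prod, Finset.mem_coe, Finset.mem_insert,
      Finset.mem_singleton, Prod.mk.injEq] at h h' he
    obtain ⟨-, h⟩ := h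
    obtain ⟨-, h'⟩ := h'
    obtain ⟨e1, e2⟩ := he
    simp only [Prod.mk.injEq]
    omega

theorem oddCount_two_pow (n : ℕ) : oddCount (2 ^ n) = 3 ^ n := by
  induction n with
  | zero => decide
  | succ n ih => rw [pow_succ', oddCount_two_mul, ih, pow_succ']

theorem oddCount_mono {W W' : ℕ} (h : W ≤ W') : oddCount W ≤ oddCount W' := by
  unfold oddCount
  apply Finset.card_le_card
  apply Finset.filter_subset_filter
  apply Finset.product_subset_product <;> exact Finset.range_subset_range.2 h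

theorem oddCount_le (W : ℕ) : (oddCount W : ℝ) ≤ 3 * (W : ℝ) ^ Real.logb 2 3 := by
  rcases Nat.eq_zero_or_pos W with rfl | hW
  · have : oddCount 0 = 0 := by decide
    rw [this]
    simp only [Nat.cast_zero]
    positivity
  · set n := Nat.clog 2 W with hn
    have h1 : W ≤ 2 ^ n := Nat.le_pow_clog (by norm_num) W
    have h2 : 2 ^ n < 2 * W := by
      rcases Nat.lt_or_ge 1 W with h | h
      · have h3 := Nat.pow_pred_clog_lt_self (b := 2) (by norm_num) h
        have h4 : 0 < n := Nat.clog_pos (by norm_num) h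
        have h5 : 2 ^ n = 2 * 2 ^ (n - 1) := by
          rw [← pow_succ']
          congr 1
          omega
        rw [h5]
        have h6 : 2 ^ (n - 1) < W := h3
        omega
      · have : W = 1 := by omega
        subst this
        simp [hn]
    have h3 : (0 : ℝ) < Real.logb 2 3 := Real.logb_pos (by norm_num) (by norm_num)
    have h4 : (oddCount W : ℝ) ≤ (3 : ℝ) ^ n := by
      have := (oddCount_mono h1).trans_eq (oddCount_two_pow n)
      exact_mod_cast this
    have h5 : (3 : ℝ) ^ n = ((2 : ℝ) ^ n) ^ Real.logb 2 3 := by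
      rw [← Real.rpow_natCast 2 n, ← Real.rpow_mul (by norm_num), mul_comm, Real.rpow_mul
        (by norm_num), Real.rpow_logb (by norm_num) (by norm_num) (by norm_num), Real.rpow_natCast]
    have h6 : ((2 : ℝ) ^ n) ^ Real.logb 2 3 ≤ (2 * (W : ℝ)) ^ Real.logb 2 3 := by
      apply Real.rpow_le_rpow (by positivity) _ h3.le
      exact_mod_cast h2.le
    have h7 : (2 * (W : ℝ)) ^ Real.logb 2 3 = 3 * (W : ℝ) ^ Real.logb 2 3 := by
      rw [Real.mul_rpow (by norm_num) (by positivity),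
        Real.rpow_logb (by norm_num) (by norm_num) (by norm_num)]
    calc (oddCount W : ℝ) ≤ (3 : ℝ) ^ n := h4
      _ = _ := h5
      _ ≤ _ := h6
      _ = _ := h7

theorem four_mul_two_pow_le {n : ℕ} (hn : 5 ≤ n) : 4 * 2 ^ n ≤ 3 ^ n := by
  induction n, hn using Nat.le_induction with
  | base => norm_num
  | succ k hk ih =>
    rw [pow_succ, pow_succ]
    omega

/-- odd entries away from the axes -/
theorem inner_odd_ge {n : ℕ} (hn : 5 ≤ n) : 3 ^ n ≤ 2 *
    ((Finset.Ico 1 (2 ^ n) ×ˢ Finset.Ico 1 (2 ^ n)).filter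
      fun t : ℕ × ℕ => (t.1 + t.2).choose t.1 % 2 = 1).card := by
  set I := ((Finset.Ico 1 (2 ^ n) ×ˢ Finset.Ico 1 (2 ^ n)).filter
      fun t : ℕ × ℕ => (t.1 + t.2).choose t.1 % 2 = 1) with hI
  have h1 : ((Finset.range (2 ^ n) ×ˢ Finset.range (2 ^ n)).filter
      fun t : ℕ × ℕ => (t.1 + t.2).choose t.1 % 2 = 1) ⊆
      I ∪ (({0} : Finset ℕ) ×ˢ Finset.range (2 ^ n) ∪ Finset.range (2 ^ n) ×ˢ {0}) := by
    rintro ⟨x, y⟩ h
    simp only [hI, Finset.mem_filter, Finset.mem_product, Finset.mem_range, Finset.mem_union,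
      Finset.mem_Ico, Finset.mem_singleton] at h ⊢
    obtain ⟨⟨hx, hy⟩, h⟩ := h
    rcases Nat.eq_zero_or_pos x with h0 | h0
    · exact Or.inr (Or.inl ⟨h0, hy⟩)
    · rcases Nat.eq_zero_or_pos y with h0' | h0'
      · exact Or.inr (Or.inr ⟨hx, h0'⟩)
      · exact Or.inl ⟨⟨⟨h0, hx⟩, ⟨h0', hy⟩⟩, h⟩
  have h2 := Finset.card_le_card h1
  have h3 := Finset.card_union_le I
    (({0} : Finset ℕ) ×ˢ Finset.range (2 ^ n) ∪ Finset.range (2 ^ n) ×ˢ {0})
  have h4 := Finset.card_union_le (({0} : Finset ℕ) ×ˢ Finset.range (2 ^ n))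
    (Finset.range (2 ^ n) ×ˢ ({0} : Finset ℕ))
  have h5 : (({0} : Finset ℕ) ×ˢ Finset.range (2 ^ n)).card = 2 ^ n := by
    rw [Finset.card_product, Finset.card_singleton, Finset.card_range, one_mul]
  have h6 : (Finset.range (2 ^ n) ×ˢ ({0} : Finset ℕ)).card = 2 ^ n := by
    rw [Finset.card_product, Finset.card_singleton, Finset.card_range, mul_one]
  have h7 := oddCount_two_pow n
  unfold oddCount at h7
  rw [h7] at h2
  have h8 := four_mul_two_pow_le hn
  omega

end Pool.Agent.Boot
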