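import Mathlib
import Pool.Agent.Boot.Defs

/-!
# The closed set blocking a slab (module M4)
-/

set_option autoImplicit false

open Set

namespace Pool.Agent.Boot

/-! ### Cells -/

/-- the symbol of the cell `(m, n, k)` -/
def CS (m n k : ℕ) : Sym → Prop
  | .C => k = 0 ∧ m = 0 ∧ n = 0
  | .E => k = 0 ∧ 1 ≤ m ∧ n = 0
  | .N => k = 0 ∧ m = 0 ∧ 1 ≤ n
  | .Z => k = 0 ∧ 1 ≤ m ∧ 1 ≤ n ∧ (m + n).choose m % 2 = 0
  | .O => k = 0 ∧ 1 ≤ m ∧ 1 ≤ n ∧ (m + n).choose m % 2 = 1
  | .G => 1 ≤ k ∧ 1 ≤ m ∧ 1 ≤ n ∧ (m + n).choose m % 2 = 1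

theorem CS_unique {m n k : ℕ} {σ τ : Sym} (h : CS m n k σ) (h' : CS m n k τ) : σ = τ := by
  cases σ <;> cases τ <;> simp only [CS] at h h' <;> first | rfl | (exfalso; omega)

/-- the sites of the pattern generated by a corner cell at the origin -/
def Phi : Set (Fin 6 → ℤ) :=
  {x | ∃ m n k : ℕ, ∃ σ, CS m n k σ ∧ (x = cv m n k ∨ x = cv m n k + ff (kap σ))}

theorem cv_apply (m n k : ℕ) : cv m n k 0 = 2 * (m : ℤ) ∧ cv m n k 1 = 2 * (n : ℤ) ∧
    cv m n k 2 = 2 * (k : ℤ) ∧ cv m n k 3 = 0 ∧ cv m n k 4 = 0 ∧ cv m n k 5 = 0 :=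
  ⟨rfl, rfl, rfl, rfl, rfl, rfl⟩

theorem ff_apply (t : ℤ) : ff t 0 = 0 ∧ ff t 1 = 0 ∧ ff t 2 = 0 ∧ ff t 3 = t ∧ ff t 4 = 0 ∧
    ff t 5 = 0 := ⟨rfl, rfl, rfl, rfl, rfl, rfl⟩

theorem kap_bounds (σ : Sym) : 2 ≤ kap σ ∧ kap σ ≤ 7 := by
  cases σ <;> simp [kap]

theorem kap_inj {σ τ : Sym} (h : kap σ = kap τ) : σ = τ := by
  cases σ <;> cases τ <;> simp [kap] at h <;> rfl

theorem Phi_coord {x : Fin 6 → ℤ} (h : x ∈ Phi) : ∃ m n k : ℕ, ∃ σ, CS m n k σ ∧
    x 0 = 2 * (m : ℤ) ∧ x 1 = 2 * (n : ℤ) ∧ x 2 = 2 * (k : ℤ) ∧ (x 3 = 0 ∨ x 3 = kap σ) ∧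
    x 4 = 0 ∧ x 5 = 0 := by
  obtain ⟨m, n, k, σ, h1, h2⟩ := h
  refine ⟨m, n, k, σ, h1, ?_⟩
  obtain ⟨c0, c1, c2, c3, c4, c5⟩ := cv_apply m n k
  obtain ⟨f0, f1, f2, f3, f4, f5⟩ := ff_apply (kap σ)
  rcases h2 with h2 | h2
  · subst h2
    exact ⟨c0, c1, c2, Or.inl c3, c4, c5⟩
  · subst h2
    simp only [Pi.add_apply]
    exact ⟨by omega, by omega, by omega, Or.inr (by omega), by omega, by omega⟩

theorem ext6 {x y : Fin 6 → ℤ} (h0 : x 0 = y 0) (h1 : x 1 = y 1) (h2 : x 2 = y 2)
    (h3 : x 3 = y 3) (h4 : x 4 = y 4) (h5 : x 5 = y 5) : x = y := by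
  funext j
  fin_cases j <;> assumption

/-- reading a symbol -/
theorem Phi_decode {x : Fin 6 → ℤ} {a : Sym} (h : x ∈ Phi) (h' : x + ff (kap a) ∈ Phi) :
    ∃ m n k : ℕ, CS m n k a ∧ x = cv m n k := by
  obtain ⟨m, n, k, σ, h1, e0, e1, e2, e3, e4, e5⟩ := Phi_coord h
  obtain ⟨m', n', k', σ', h1', e0', e1', e2', e3', e4', e5'⟩ := Phi_coord h'
  obtain ⟨f0, f1, f2, f3, f4, f5⟩ := ff_apply (kap a)
  simp only [Pi.add_apply] at e0' e1' e2' e3' e4' e5'
  have hm : m' = m := by omega
  have hn : n' = n := by omega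
  have hk : k' = k := by omega
  subst hm hn hk
  have hσ := CS_unique h1 h1'
  subst hσ
  have ha := kap_bounds a
  have hs := kap_bounds σ
  have hx3 : x 3 = 0 ∧ kap a = kap σ := by
    rcases e3 with e3 | e3 <;> rcases e3' with e3' | e3' <;> omega
  have haσ := kap_inj hx3.2
  subst haσ
  obtain ⟨c0, c1, c2, c3, c4, c5⟩ := cv_apply m' n' k'
  exact ⟨m', n', k', h1, ext6 (by omega) (by omega) (by omega) (by omega) (by omega) (by omega)⟩

/-- no two adjacent sites -/
theorem Phi_adj {x : Fin 6 → ℤ} (j : Fin 6) {t : ℤ} (ht : t = 1 ∨ t = -1) (h : x ∈ Phi)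
    (h' : x + Pi.single j t ∈ Phi) : False := by
  obtain ⟨m, n, k, σ, h1, e0, e1, e2, e3, e4, e5⟩ := Phi_coord h
  obtain ⟨m', n', k', σ', h1', e0', e1', e2', e3', e4', e5'⟩ := Phi_coord h'
  have hs := kap_bounds σ
  have hs' := kap_bounds σ'
  simp only [Pi.add_apply] at e0' e1' e2' e3' e4' e5'
  fin_cases j
  · simp at e0'; omega
  · simp at e1'; omega
  · simp at e2'; omega
  · simp at e0' e1' e2' e3'
    have hm : m' = m := by omega
    have hn : n' = n := by omega
    have hk : k' = k := by omega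
    subst hm hn hk
    have hσ := CS_unique h1 h1'
    subst hσ
    rcases e3 with e3 | e3 <;> rcases e3' with e3' | e3' <;> rcases ht with ht | ht <;> omega
  · simp at e4'; omega
  · simp at e5'; omega

theorem st_apply : st 0 = ![2, 0, 0, 0, 0, 0] ∧ st 1 = ![0, 2, 0, 0, 0, 0] ∧
    st 2 = ![0, 0, 2, 0, 0, 0] := ⟨rfl, rfl, rfl⟩

theorem mem_Phi_of {m n k : ℕ} {σ : Sym} (h : CS m n k σ) {x : Fin 6 → ℤ} {q : ℤ}
    (hq : q = 0 ∨ q = kap σ) (hx : x = cv m n k + ff q) : x ∈ Phi := by
  refine ⟨m, n, k, σ, h, ?_⟩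
  rcases hq with hq | hq
  · left
    rw [hx, hq]
    have : ff 0 = 0 := by
      funext j
      fin_cases j <;> rfl
    rw [this, add_zero]
  · right
    rw [hx, hq]

theorem ff_add_ff (s t : ℤ) : ff s + ff t = ff (s + t) := by
  funext j
  fin_cases j <;> simp [ff]

theorem cv_st0 (m n k : ℕ) : cv m n k + st 0 = cv (m + 1) n k := by
  funext j
  fin_cases j <;> simp [cv, st] <;> ring

theorem cv_st1 (m n k : ℕ) : cv m n k + st 1 = cv m (n + 1) k := by
  funext j
  fin_cases j <;> simp [cv, st] <;> ring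

theorem cv_st2 (m n k : ℕ) : cv m n k + st 2 = cv m n (k + 1) := by
  funext j
  fin_cases j <;> simp [cv, st] <;> ring

theorem choose_step (m n : ℕ) :
    ((m + 1) + (n + 1)).choose (m + 1) = (m + (n + 1)).choose m + ((m + 1) + n).choose (m + 1) := by
  have h : (m + 1) + (n + 1) = (m + (n + 1)) + 1 := by ring
  rw [h, Nat.choose_succ_succ]
  have h2 : m + (n + 1) = (m + 1) + n := by ring
  rw [← h2]

/-- value of a symbol as an entry of Pascal's triangle -/
theorem CS_val_left {m n k : ℕ} {a : Sym} (h : CS m (n + 1) k a) (ha : a = .N ∨ a = .Z ∨ a = .O) :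
    k = 0 ∧ (m + (n + 1)).choose m % 2 = (if a = .Z then 0 else 1) := by
  rcases ha with ha | ha | ha <;> subst ha <;> simp only [CS] at h
  · obtain ⟨h1, h2, h3⟩ := h
    subst h2
    simp [h1]
  · exact ⟨h.1, by simpa using h.2.2.2⟩
  · exact ⟨h.1, by simpa using h.2.2.2⟩

theorem CS_val_right {m n k : ℕ} {b : Sym} (h : CS (m + 1) n k b)
    (hb : b = .E ∨ b = .Z ∨ b = .O) :
    k = 0 ∧ ((m + 1) + n).choose (m + 1) % 2 = (if b = .Z then 0 else 1) := by
  rcases hb with hb | hb | hb <;> subst hb <;> simp only [CS] at h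
  · obtain ⟨h1, h2, h3⟩ := h
    subst h3
    simp [h1]
  · exact ⟨h.1, by simpa using h.2.2.2⟩
  · exact ⟨h.1, by simpa using h.2.2.2⟩

theorem dbl_cases {a b o : Sym} (h : dbl a b o = true) : (a = .N ∨ a = .Z ∨ a = .O) ∧
    (b = .E ∨ b = .Z ∨ b = .O) ∧
    (o = if ((if a = .Z then 0 else 1) + (if b = .Z then 0 else 1)) % 2 = 0 then .Z else .O) := by
  revert h
  cases a <;> cases b <;> cases o <;> simp [dbl]

theorem Phi_closed {P : Finset (Fin 6 → ℤ)} (hP : P ∈ Pats) {y : Fin 6 → ℤ}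
    (h : ∀ v ∈ P, y + v ∈ Phi) : y ∈ Phi := by
  rw [mem_Pats] at hP
  rcases hP with ⟨r, a, o, hs, hP⟩ | ⟨a, b, o, hd, hP⟩ | ⟨z, hz, hP⟩
  · -- one input cell
    have key : ∀ q, (q = 0 ∨ q = kap o) → P = P1 r a q → y ∈ Phi := by
      intro q hq hPq
      subst hPq
      have h1 := h (ff (-q) - st r) (by simp [P1])
      have h2 := h (ff (kap a - q) - st r) (by simp [P1])
      have h2' : (y + (ff (-q) - st r)) + ff (kap a) ∈ Phi := by
        have : (y + (ff (-q) - st r)) + ff (kap a) = y + (ff (kap a - q) - st r) := by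
          have := ff_add_ff (-q) (kap a)
          have e : kap a - q = -q + kap a := by ring
          rw [e, ← this]
          abel
        rw [this]
        exact h2
      obtain ⟨m, n, k, hc, hx⟩ := Phi_decode h1 h2'
      have hy : y = (cv m n k + st r) + ff q := by
        have e : ff (-q) + ff q = 0 := by
          rw [ff_add_ff]
          funext j
          fin_cases j <;> simp [ff]
        have : y = (y + (ff (-q) - st r)) + st r + ff q - (ff (-q) + ff q) := by abel
        rw [this, hx, e, sub_zero]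
      fin_cases r
      · -- east
        have hy' : y = cv (m + 1) n k + ff q := by rw [hy]; exact congrArg (· + ff q) (cv_st0 m n k)
        cases a <;> cases o <;> simp [sing] at hs
        · simp only [CS] at hc
          exact mem_Phi_of (σ := .E) (by simp only [CS]; omega) hq hy'
        · simp only [CS] at hc
          exact mem_Phi_of (σ := .E) (by simp only [CS]; omega) hq hy'
      · have hy' : y = cv m (n + 1) k + ff q := by rw [hy]; exact congrArg (· + ff q) (cv_st1 m n k)
        cases a <;> cases o <;> simp [sing] at hs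
        · simp only [CS] at hc
          exact mem_Phi_of (σ := .N) (by simp only [CS]; omega) hq hy'
        · simp only [CS] at hc
          exact mem_Phi_of (σ := .N) (by simp only [CS]; omega) hq hy'
      · have hy' : y = cv m n (k + 1) + ff q := by rw [hy]; exact congrArg (· + ff q) (cv_st2 m n k)
        cases a <;> cases o <;> simp [sing] at hs
        · simp only [CS] at hc
          exact mem_Phi_of (σ := .G) (by simp only [CS]; omega) hq hy'
        · simp only [CS] at hc
          exact mem_Phi_of (σ := .G) (by simp only [CS]; omega) hq hy'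
    rcases hP with hP | hP
    · exact key 0 (Or.inl rfl) hP
    · exact key (kap o) (Or.inr rfl) hP
  · -- two input cells
    obtain ⟨ha, hb, ho⟩ := dbl_cases hd
    have key : ∀ q, (q = 0 ∨ q = kap o) → P = P2 a b q → y ∈ Phi := by
      intro q hq hPq
      subst hPq
      have h1 := h (ff (-q) - st 0) (by simp [P2])
      have h2 := h (ff (kap a - q) - st 0) (by simp [P2])
      have h3 := h (ff (-q) - st 1) (by simp [P2])
      have h4 := h (ff (kap b - q) - st 1) (by simp [P2])
      have e1 : ∀ (w : Fin 6 → ℤ) (c : Sym),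
          (y + (ff (-q) - w)) + ff (kap c) = y + (ff (kap c - q) - w) := by
        intro w c
        have := ff_add_ff (-q) (kap c)
        have e : kap c - q = -q + kap c := by ring
        rw [e, ← this]
        abel
      obtain ⟨m, n, k, hc, hx⟩ := Phi_decode h1 (by rw [e1]; exact h2)
      obtain ⟨m', n', k', hc', hx'⟩ := Phi_decode h3 (by rw [e1]; exact h4)
      have e : ff (-q) + ff q = 0 := by
        rw [ff_add_ff]
        funext j
        fin_cases j <;> simp [ff]
      have hy : y = cv (m + 1) n k + ff q := by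
        have : y = (y + (ff (-q) - st 0)) + st 0 + ff q - (ff (-q) + ff q) := by abel
        rw [this, hx, e, sub_zero, cv_st0]
      have hy' : y = cv m' (n' + 1) k' + ff q := by
        have : y = (y + (ff (-q) - st 1)) + st 1 + ff q - (ff (-q) + ff q) := by abel
        rw [this, hx', e, sub_zero, cv_st1]
      have hcv : cv (m + 1) n k = cv m' (n' + 1) k' := by
        have := hy.symm.trans hy'
        exact add_right_cancel this
      have c0 := congrFun hcv 0
      have c1 := congrFun hcv 1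
      have c2 := congrFun hcv 2
      rw [(cv_apply _ _ _).1, (cv_apply _ _ _).1] at c0
      rw [(cv_apply _ _ _).2.1, (cv_apply _ _ _).2.1] at c1
      rw [(cv_apply _ _ _).2.2.1, (cv_apply _ _ _).2.2.1] at c2
      have hm : m' = m + 1 := by push_cast at c0; omega
      have hn : n = n' + 1 := by push_cast at c1; omega
      have hk : k' = k := by omega
      subst hm hn hk
      obtain ⟨hk0, hv⟩ := CS_val_left hc ha
      obtain ⟨-, hv'⟩ := CS_val_right hc' hb
      have hstep := choose_step m n'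
      have hpar : ((m + 1) + (n' + 1)).choose (m + 1) % 2 =
          ((if a = .Z then 0 else 1) + (if b = .Z then 0 else 1)) % 2 := by
        rw [hstep, Nat.add_mod, hv, hv']
      apply mem_Phi_of (σ := o) _ hq hy
      by_cases hz : ((if a = Sym.Z then 0 else 1) + (if b = Sym.Z then 0 else 1)) % 2 = 0
      · rw [if_pos hz] at ho
        rw [ho]
        simp only [CS]
        exact ⟨hk0, by omega, by omega, by rw [hpar, hz]⟩
      · rw [if_neg hz] at ho
        rw [ho]
        simp only [CS]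
        exact ⟨hk0, by omega, by omega, by rw [hpar]; omega⟩
    rcases hP with hP | hP
    · exact key 0 (Or.inl rfl) hP
    · exact key (kap o) (Or.inr rfl) hP
  · -- the trigger
    exfalso
    subst hP
    have h1 := h (-fun j => ((z j : ℕ) : ℤ)) (by simp [P3])
    have h2 := h (ff (-1) - fun j => ((z j : ℕ) : ℤ)) (by simp [P3])
    have e : y + (ff (-1) - fun j => ((z j : ℕ) : ℤ)) =
        (y + -fun j => ((z j : ℕ) : ℤ)) + Pi.single 3 (-1) := by
      have : ff (-1) = Pi.single 3 (-1) := by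
        funext j
        fin_cases j <;> simp [ff]
      rw [this]
      abel
    rw [e] at h2
    exact Phi_adj 3 (Or.inr rfl) h1 h2

theorem Pats_pair {P : Finset (Fin 6 → ℤ)} (hP : P ∈ Pats) :
    ∃ v ∈ P, ∃ a, v + ff (kap a) ∈ P := by
  have e1 : ∀ (w : Fin 6 → ℤ) (c : Sym) (q : ℤ),
      (ff (-q) - w) + ff (kap c) = ff (kap c - q) - w := by
    intro w c q
    have := ff_add_ff (-q) (kap c)
    have e : kap c - q = -q + kap c := by ring
    rw [e, ← this]
    abel
  rw [mem_Pats] at hP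
  rcases hP with ⟨r, a, o, hs, hP⟩ | ⟨a, b, o, hd, hP⟩ | ⟨z, hz, hP⟩
  · rcases hP with hP | hP
    · subst hP
      exact ⟨ff (-0) - st r, by simp [P1], a, by rw [e1]; simp [P1]⟩
    · subst hP
      exact ⟨ff (-kap o) - st r, by simp [P1], a, by rw [e1]; simp [P1]⟩
  · rcases hP with hP | hP
    · subst hP
      exact ⟨ff (-0) - st 0, by simp [P2], a, by rw [e1]; simp [P2]⟩
    · subst hP
      exact ⟨ff (-kap o) - st 0, by simp [P2], a, by rw [e1]; simp [P2]⟩
  · subst hP
    refine ⟨-fun j => ((z j : ℕ) : ℤ), by simp [P3], .G, ?_⟩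
    have : (-fun j => ((z j : ℕ) : ℤ)) + ff (kap .G) = ff 7 - fun j => ((z j : ℕ) : ℤ) := by
      simp only [kap]
      abel
    rw [this]
    simp [P3]

theorem ff_ne_zero {t : ℤ} (ht : t ≠ 0) : ff t ≠ 0 := by
  intro h
  exact ht (congrFun h 3)

/-- bound for the elements of the patterns -/
theorem Pats_bound {P : Finset (Fin 6 → ℤ)} (hP : P ∈ Pats) {v : Fin 6 → ℤ} (hv : v ∈ P)
    (j : Fin 6) : |v j| ≤ 9 := by
  have hkap := kap_bounds
  have hff : ∀ t : ℤ, |t| ≤ 7 → ∀ j, |ff t j| ≤ 7 := by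
    intro t ht j
    fin_cases j <;> simp [ff, ht]
  have hst : ∀ r : Fin 3, ∀ j, |st r j| ≤ 2 := by
    intro r j
    fin_cases r <;> fin_cases j <;> simp [st]
  have hsub : ∀ (t : ℤ) (r : Fin 3), |t| ≤ 7 → |(ff t - st r) j| ≤ 9 := by
    intro t r ht
    have h1 := hff t ht j
    have h2 := hst r j
    rw [Pi.sub_apply]
    have := abs_sub (ff t j) (st r j)
    omega
  rw [mem_Pats] at hP
  rcases hP with ⟨r, a, o, hs, hP⟩ | ⟨a, b, o, hd, hP⟩ | ⟨z, hz, hP⟩
  · have ha := hkap a
    have ho := hkap o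
    rcases hP with hP | hP <;> subst hP <;> simp only [P1, Finset.mem_insert,
      Finset.mem_singleton] at hv <;> rcases hv with hv | hv <;> subst hv <;> apply hsub <;>
      rw [abs_le] <;> omega
  · have ha := hkap a
    have hb := hkap b
    have ho := hkap o
    rcases hP with hP | hP <;> subst hP <;> simp only [P2, Finset.mem_insert,
      Finset.mem_singleton] at hv <;> rcases hv with hv | hv | hv | hv <;> subst hv <;>
      apply hsub <;> rw [abs_le] <;> omega
  · subst hP
    have hz2 : |((z j : ℕ) : ℤ)| ≤ 2 := by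
      have := (z j).2
      rw [abs_le]
      omega
    simp only [P3, Finset.mem_insert, Finset.mem_singleton] at hv
    rcases hv with hv | hv | hv <;> subst hv
    · rw [Pi.neg_apply, abs_neg]
      omega
    · have h1 := hff 7 (by norm_num) j
      have := abs_sub (ff 7 j) ((z j : ℕ) : ℤ)
      rw [Pi.sub_apply]
      omega
    · have h1 := hff (-1) (by norm_num) j
      have := abs_sub (ff (-1) j) ((z j : ℕ) : ℤ)
      rw [Pi.sub_apply]
      omega

/-! ### The blocking set -/

/-- sup distance at most `R` -/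
def near (R : ℤ) (x y : Fin 7 → ℤ) : Prop := ∀ i, |x i - y i| ≤ R

theorem near.symm {R : ℤ} {x y : Fin 7 → ℤ} (h : near R x y) : near R y x := fun i => by
  rw [abs_sub_comm]; exact h i

theorem near.mono {R S : ℤ} {x y : Fin 7 → ℤ} (h : near R x y) (hRS : R ≤ S) : near S x y :=
  fun i => (h i).trans hRS

theorem near.trans {R S : ℤ} {x y z : Fin 7 → ℤ} (h : near R x y) (h' : near S y z) :
    near (R + S) x z := fun i => by
  have := abs_sub_le (x i) (y i) (z i)
  have h1 := h i
  have h2 := h' i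
  omega

/-- a cell of the standard pattern with the symbol `σ` -/
def tau : Sym → Fin 6 → ℤ
  | .C => cv 0 0 0
  | .E => cv 1 0 0
  | .N => cv 0 1 0
  | .Z => cv 1 1 0
  | .O => cv 1 2 0
  | .G => cv 1 2 1

/-- the pattern in the layer of `x`, placed so that it contains the cell `x` with symbol `σ` -/
def TT (i : Fin 7) (x : Fin 7 → ℤ) (σ : Sym) : Set (Fin 7 → ℤ) :=
  {y | y i = x i ∧ (fun j => y (i.succAbove j) - x (i.succAbove j)) + tau σ ∈ Phi}

/-- the embedding of `ℤ^6` as the hyperplane orthogonal to `i` -/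
def emb (i : Fin 7) (v : Fin 6 → ℤ) : Fin 7 → ℤ := i.insertNth (0 : ℤ) v

theorem emb_same (i : Fin 7) (v : Fin 6 → ℤ) : emb i v i = 0 := by simp [emb]

theorem emb_succAbove (i : Fin 7) (v : Fin 6 → ℤ) (j : Fin 6) : emb i v (i.succAbove j) = v j := by
  simp [emb]

theorem add_emb_inj {i : Fin 7} {x : Fin 7 → ℤ} {v w : Fin 6 → ℤ} (h : x + emb i v = x + emb i w) :
    v = w := by
  have h1 := add_left_cancel h
  funext j
  rw [← emb_succAbove i v j, ← emb_succAbove i w j, h1]

theorem tau_mem (σ : Sym) : tau σ ∈ Phi ∧ tau σ + ff (kap σ) ∈ Phi := by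
  have key : ∀ m n k : ℕ, CS m n k σ → tau σ = cv m n k →
      tau σ ∈ Phi ∧ tau σ + ff (kap σ) ∈ Phi := by
    intro m n k h1 h2
    rw [h2]
    exact ⟨⟨m, n, k, σ, h1, Or.inl rfl⟩, ⟨m, n, k, σ, h1, Or.inr rfl⟩⟩
  cases σ
  · exact key 0 0 0 (by simp [CS]) rfl
  · exact key 1 0 0 (by simp [CS]) rfl
  · exact key 0 1 0 (by simp [CS]) rfl
  · exact key 1 1 0 (by simp [CS]) rfl
  · exact key 1 2 0 (by simp [CS]) rfl
  · exact key 1 2 1 (by simp [CS]) rfl

theorem TT_self (i : Fin 7) (x : Fin 7 → ℤ) (σ : Sym) : x ∈ TT i x σ := by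
  refine ⟨rfl, ?_⟩
  have : (fun j => x (i.succAbove j) - x (i.succAbove j)) + tau σ = tau σ := by
    funext j
    simp
  rw [this]
  exact (tau_mem σ).1

theorem TT_partner (i : Fin 7) (x : Fin 7 → ℤ) (σ : Sym) : x + emb i (ff (kap σ)) ∈ TT i x σ := by
  refine ⟨by simp [emb_same], ?_⟩
  have : (fun j => (x + emb i (ff (kap σ))) (i.succAbove j) - x (i.succAbove j)) + tau σ =
      tau σ + ff (kap σ) := by
    funext j
    simp only [Pi.add_apply, emb_succAbove]
    ring
  rw [this]
  exact (tau_mem σ).2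

theorem TT_adj {i : Fin 7} {x : Fin 7 → ℤ} {σ : Sym} {y : Fin 7 → ℤ} (j : Fin 6) {t : ℤ}
    (ht : t = 1 ∨ t = -1) (h : y ∈ TT i x σ) (h' : y + Pi.single (i.succAbove j) t ∈ TT i x σ) :
    False := by
  apply Phi_adj j ht h.2
  convert h'.2 using 1
  funext l
  simp only [Pi.add_apply, Pi.single_apply, (Fin.succAbove_right_injective (p := i)).eq_iff]
  ring

theorem TT_closed {i : Fin 7} {x : Fin 7 → ℤ} {σ : Sym} {P : Finset (Fin 6 → ℤ)} (hP : P ∈ Pats)
    {y : Fin 7 → ℤ} (hy : y i = x i) (h : ∀ v ∈ P, y + emb i v ∈ TT i x σ) : y ∈ TT i x σ := by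
  refine ⟨hy, ?_⟩
  apply Phi_closed hP
  intro v hv
  convert (h v hv).2 using 1
  funext l
  simp only [Pi.add_apply, emb_succAbove]
  ring

variable (i : Fin 7) (t : ℤ) (A : Set (Fin 7 → ℤ))

/-- active pairs: a symbol adjacent to the half space -/
def Act (x : Fin 7 → ℤ) (σ : Sym) : Prop := x ∈ A ∧ x + emb i (ff (kap σ)) ∈ A ∧ x i = t

/-- infected sites of the slab -/
def YY : Set (Fin 7 → ℤ) := {x | x ∈ A ∨ ∃ a σ, Act i t A a σ ∧ x ∈ TT i a σ}

/-- the closed set -/
def ZZ : Set (Fin 7 → ℤ) := {x | x i < t ∨ t + 80 ≤ x i ∨ x ∈ YY i t A}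

/-- good slabs -/
structure Good : Prop where
  g1 : ∀ x ∈ A, ∀ y ∈ A, ∀ z ∈ A, x ≠ y → x ≠ z → y ≠ z → near 40 x y → near 40 x z →
    near 40 y z → False
  g2 : ∀ a σ, Act i t A a σ → ∀ z ∈ A, z ≠ a → z ≠ a + emb i (ff (kap σ)) →
    ∀ y ∈ TT i a σ, near 40 z y → False
  g3 : ∀ a σ b τ, Act i t A a σ → Act i t A b τ → a ≠ b → a ≠ b + emb i (ff (kap τ)) →
    a + emb i (ff (kap σ)) ≠ b → a + emb i (ff (kap σ)) ≠ b + emb i (ff (kap τ)) →
    ∀ y ∈ TT i a σ, ∀ z ∈ TT i b τ, near 40 y z → False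

variable {i t A}

theorem near_emb {x : Fin 7 → ℤ} {v : Fin 6 → ℤ} {R : ℤ} (hR : 0 ≤ R) (h : ∀ j, |v j| ≤ R) :
    near R x (x + emb i v) := by
  intro l
  rcases Fin.eq_self_or_eq_succAbove i l with hl | ⟨j, hl⟩
  · rw [hl, Pi.add_apply, emb_same]
    simpa using hR
  · rw [hl, Pi.add_apply, emb_succAbove]
    have := h j
    rw [abs_sub_comm]
    simpa using this

theorem near_partner (x : Fin 7 → ℤ) (σ : Sym) : near 7 x (x + emb i (ff (kap σ))) := by
  apply near_emb (by norm_num)
  intro j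
  have := kap_bounds σ
  have h7 : |kap σ| ≤ 7 := by rw [abs_le]; omega
  fin_cases j <;> simp [ff, h7]

theorem ne_partner (x : Fin 7 → ℤ) (σ : Sym) : x ≠ x + emb i (ff (kap σ)) := by
  intro h
  have h1 : x + emb i 0 = x + emb i (ff (kap σ)) := by
    rw [← h]
    have : emb i 0 = 0 := by
      funext l
      rcases Fin.eq_self_or_eq_succAbove i l with hl | ⟨j, hl⟩
      · rw [hl, emb_same]; rfl
      · rw [hl, emb_succAbove]; rfl
    rw [this, add_zero]
  have h2 := add_emb_inj h1
  have := kap_bounds σ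
  exact ff_ne_zero (by omega) h2.symm

theorem Good.beta (hG : Good i t A) {a : Fin 7 → ℤ} {σ : Sym} (ha : Act i t A a σ)
    {x y : Fin 7 → ℤ} (hx : x ∈ TT i a σ) (hy : y ∈ YY i t A) (hxy : near 40 x y) :
    y ∈ TT i a σ := by
  rcases hy with hy | ⟨b, τ, hb, hy⟩
  · by_cases h1 : y = a
    · rw [h1]; exact TT_self i a σ
    by_cases h2 : y = a + emb i (ff (kap σ))
    · rw [h2]; exact TT_partner i a σ
    exact (hG.g2 a σ ha y hy h1 h2 x hx hxy.symm).elim
  · -- two patterns
    have hnσ := near_partner (i := i) a σ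
    have hnτ := near_partner (i := i) b τ
    by_cases h1 : a = b
    · by_cases h2 : σ = τ
      · rw [h1, h2]; exact hy
      · exfalso
        subst h1
        refine hG.g1 a ha.1 _ ha.2.1 _ hb.2.1 (ne_partner a σ) (ne_partner a τ) ?_
          (hnσ.mono (by norm_num)) (hnτ.mono (by norm_num))
          ((hnσ.symm.trans hnτ).mono (by norm_num))
        intro h3
        have h4 := congrFun (add_emb_inj h3) 3
        exact h2 (kap_inj h4)
    by_cases h2 : a = b + emb i (ff (kap τ))
    · exfalso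
      refine hG.g1 b hb.1 a ha.1 _ ha.2.1 (Ne.symm h1) ?_ (ne_partner a σ)
        ?_ ?_ (hnσ.mono (by norm_num))
      · intro h3
        rw [h2] at h3
        have h4 : b + emb i (ff 0) = b + emb i (ff (kap τ + kap σ)) := by
          have e0 : emb i (ff 0) = 0 := by
            funext l
            rcases Fin.eq_self_or_eq_succAbove i l with hl | ⟨j, hl⟩
            · rw [hl, emb_same]; rfl
            · rw [hl, emb_succAbove]; fin_cases j <;> rfl
          have e1 : emb i (ff (kap τ + kap σ)) = emb i (ff (kap τ)) + emb i (ff (kap σ)) := by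
            funext l
            rcases Fin.eq_self_or_eq_succAbove i l with hl | ⟨j, hl⟩
            · rw [hl, Pi.add_apply, emb_same, emb_same, emb_same]; rfl
            · rw [hl, Pi.add_apply, emb_succAbove, emb_succAbove, emb_succAbove, ← ff_add_ff]; rfl
          rw [e0, e1, add_zero, ← add_assoc]
          exact h3
        have h5 := congrFun (add_emb_inj h4) 3
        have k1 := kap_bounds σ
        have k2 := kap_bounds τ
        have h6 : (0 : ℤ) = kap τ + kap σ := h5
        omega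
      · have e : near 7 b a := by rw [h2]; exact hnτ
        exact e.mono (by norm_num)
      · have e : near 7 b a := by rw [h2]; exact hnτ
        exact (e.trans hnσ).mono (by norm_num)
    by_cases h3 : a + emb i (ff (kap σ)) = b
    · exfalso
      have e : near 7 a b := by rw [← h3]; exact hnσ
      exact hG.g1 a ha.1 b hb.1 _ hb.2.1 h1 h2 (ne_partner b τ)
        (e.mono (by norm_num)) ((e.trans hnτ).mono (by norm_num)) (hnτ.mono (by norm_num))
    by_cases h4 : a + emb i (ff (kap σ)) = b + emb i (ff (kap τ))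
    · exfalso
      have e : near 7 b (a + emb i (ff (kap σ))) := by rw [h4]; exact hnτ
      refine hG.g1 a ha.1 b hb.1 _ ha.2.1 h1 (ne_partner a σ) ?_ ?_ (hnσ.mono (by norm_num))
        (e.mono (by norm_num))
      · rw [h4]; exact ne_partner b τ
      · exact (hnσ.trans e.symm).mono (by norm_num)
    exact (hG.g3 a σ b τ ha hb h1 h2 h3 h4 x hx y hy hxy).elim

theorem Good.alpha (hG : Good i t A) {x y z : Fin 7 → ℤ} (hx : x ∈ YY i t A) (hy : y ∈ YY i t A)
    (hz : z ∈ YY i t A) (hxy : x ≠ y) (hxz : x ≠ z) (hyz : y ≠ z) (nxy : near 40 x y)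
    (nxz : near 40 x z) (nyz : near 40 y z) :
    ∃ a σ, Act i t A a σ ∧ x ∈ TT i a σ ∧ y ∈ TT i a σ ∧ z ∈ TT i a σ := by
  by_cases h1 : ∃ a σ, Act i t A a σ ∧ x ∈ TT i a σ
  · obtain ⟨a, σ, ha, h⟩ := h1
    exact ⟨a, σ, ha, h, hG.beta ha h hy nxy, hG.beta ha h hz nxz⟩
  by_cases h2 : ∃ a σ, Act i t A a σ ∧ y ∈ TT i a σ
  · obtain ⟨a, σ, ha, h⟩ := h2
    exact ⟨a, σ, ha, hG.beta ha h hx nxy.symm, h, hG.beta ha h hz nyz⟩
  by_cases h3 : ∃ a σ, Act i t A a σ ∧ z ∈ TT i a σ
  · obtain ⟨a, σ, ha, h⟩ := h3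
    exact ⟨a, σ, ha, hG.beta ha h hx nxz.symm, hG.beta ha h hy nyz.symm, h⟩
  rcases hx with hx | hx
  swap
  · exact (h1 hx).elim
  rcases hy with hy | hy
  swap
  · exact (h2 hy).elim
  rcases hz with hz | hz
  swap
  · exact (h3 hz).elim
  exact (hG.g1 x hx y hy z hz hxy hxz hyz nxy nxz nyz).elim

/-- three consecutive sites in a direction different from `i` are never in `YY` -/
theorem Good.no_three (hG : Good i t A) {y : Fin 7 → ℤ} {l : Fin 7} (hl : l ≠ i) {s : ℤ}
    (hs : s = 1 ∨ s = -1) (h1 : y + Pi.single l (-s) ∈ YY i t A)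
    (h2 : y + Pi.single l (-2 * s) ∈ YY i t A) (h3 : y + Pi.single l (-3 * s) ∈ YY i t A) :
    False := by
  have hne : ∀ c d : ℤ, c ≠ d → (y + Pi.single l c : Fin 7 → ℤ) ≠ y + Pi.single l d := by
    intro c d hcd h
    have := congrFun (add_left_cancel h) l
    simp at this
    exact hcd this
  have hnear : ∀ c d : ℤ, |c - d| ≤ 40 → near 40 (y + Pi.single l c) (y + Pi.single l d) := by
    intro c d hcd k
    by_cases hk : k = l
    · subst hk
      simp only [Pi.add_apply, Pi.single_eq_same]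
      have : y k + c - (y k + d) = c - d := by ring
      rw [this]
      exact hcd
    · simp only [Pi.add_apply, Pi.single_eq_of_ne hk]
      simp
  obtain ⟨a, σ, ha, m1, m2, m3⟩ := hG.alpha h1 h2 h3
    (hne _ _ (by rcases hs with hs | hs <;> omega)) (hne _ _ (by rcases hs with hs | hs <;> omega))
    (hne _ _ (by rcases hs with hs | hs <;> omega))
    (hnear _ _ (by rcases hs with hs | hs <;> subst hs <;> norm_num))
    (hnear _ _ (by rcases hs with hs | hs <;> subst hs <;> norm_num))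
    (hnear _ _ (by rcases hs with hs | hs <;> subst hs <;> norm_num))
  obtain ⟨j, hj⟩ := Fin.exists_succAbove_eq hl
  apply TT_adj j (t := -s) (by rcases hs with hs | hs <;> omega) m1
  rw [hj]
  convert m2 using 1
  rw [add_assoc, ← Pi.single_add]
  congr 2
  ring

theorem Good.closed (hG : Good i t A) {X : Finset (Fin 7 → ℤ)} (hX : X ∈ U) {y : Fin 7 → ℤ}
    (h : ∀ x ∈ X, y + x ∈ ZZ i t A) : y ∈ ZZ i t A := by
  by_cases hy1 : y i < t
  · exact Or.inl hy1
  by_cases hy2 : t + 80 ≤ y i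
  · exact Or.inr (Or.inl hy2)
  push Not at hy1 hy2
  -- sites at heights between `t` and `t + 79` in `ZZ` are in `YY`
  have hY : ∀ x ∈ ZZ i t A, t ≤ x i → x i < t + 80 → x ∈ YY i t A := by
    intro x hx h1 h2
    rcases hx with hx | hx | hx
    · omega
    · omega
    · exact hx
  have hYe : ∀ v : Fin 6 → ℤ, y + emb i v ∈ ZZ i t A → y + emb i v ∈ YY i t A := by
    intro v hv
    have hi : (y + emb i v) i = y i := by rw [Pi.add_apply, emb_same, add_zero]
    exact hY _ hv (by rw [hi]; exact hy1) (by rw [hi]; exact hy2)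
  have hYs : ∀ (l : Fin 7) (c : ℤ), l ≠ i → y + Pi.single l c ∈ ZZ i t A →
      y + Pi.single l c ∈ YY i t A := by
    intro l c hl hv
    have hi : (y + Pi.single l c : Fin 7 → ℤ) i = y i := by
      rw [Pi.add_apply, Pi.single_eq_of_ne hl.symm, add_zero]
    exact hY _ hv (by rw [hi]; exact hy1) (by rw [hi]; exact hy2)
  -- the support is not in a direction different from `i`
  have hsup : ∀ (l : Fin 7) (s : ℤ) (P : Finset (Fin 6 → ℤ)), (s = 1 ∨ s = -1) → X = Boot.mk l s P →
      l = i := by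
    intro l s P hs hXl
    by_contra hl
    subst hXl
    exact hG.no_three hl hs (hYs l _ hl (h _ (mem_mk.mpr (Or.inl rfl))))
      (hYs l _ hl (h _ (mem_mk.mpr (Or.inr (Or.inl rfl)))))
      (hYs l _ hl (h _ (mem_mk.mpr (Or.inr (Or.inr (Or.inl rfl))))))
  rw [mem_U] at hX
  rcases hX with ⟨l, P, hP, hX⟩ | ⟨l, j, s, s', hX⟩
  · have hl := hsup l 1 P (Or.inl rfl) hX
    subst hl hX
    have hPv : ∀ v ∈ P, y + emb l v ∈ YY l t A := fun v hv =>
      hYe v (h _ (mem_mk.mpr (Or.inr (Or.inr (Or.inr ⟨v, hv, rfl⟩)))))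
    obtain ⟨v, hv, a, hva⟩ := Pats_pair hP
    have hne : y + emb l v ≠ y + emb l (v + ff (kap a)) := by
      intro h1
      have h2 := add_emb_inj h1
      have := kap_bounds a
      exact ff_ne_zero (t := kap a) (by omega) (by simpa using h2)
    have hnear : ∀ v ∈ P, ∀ w ∈ P, near 40 (y + emb l v) (y + emb l w) := by
      intro v hv w hw
      have n1 : near 9 y (y + emb l v) := near_emb (by norm_num) (Pats_bound hP hv)
      have n2 : near 9 y (y + emb l w) := near_emb (by norm_num) (Pats_bound hP hw)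
      exact (n1.symm.trans n2).mono (by norm_num)
    by_cases hyt : y l = t
    · -- the layer adjacent to the half space
      have key : ∀ b σ, Act l t A b σ → y + emb l v ∈ TT l b σ → y ∈ ZZ l t A := by
        intro b σ hb hvb
        have : y ∈ TT l b σ := by
          apply TT_closed hP (hyt.trans hb.2.2.symm)
          intro w hw
          exact hG.beta hb hvb (hPv w hw) (hnear v hv w hw)
        exact Or.inr (Or.inr (Or.inr ⟨b, σ, hb, this⟩))
      rcases hPv v hv with h1 | ⟨b, σ, hb, h1⟩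
      · rcases hPv _ hva with h2 | ⟨b, σ, hb, h2⟩
        · have hact : Act l t A (y + emb l v) a := by
            refine ⟨h1, ?_, ?_⟩
            · convert h2 using 1
              rw [add_assoc]
              congr 1
              funext k
              rcases Fin.eq_self_or_eq_succAbove l k with hk | ⟨m, hk⟩
              · rw [hk, Pi.add_apply, emb_same, emb_same, emb_same]; rfl
              · rw [hk, Pi.add_apply, emb_succAbove, emb_succAbove, emb_succAbove]; rfl
            · rw [Pi.add_apply, emb_same, add_zero, hyt]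
          exact key _ a hact (TT_self _ _ _)
        · exact key b σ hb (hG.beta hb h2 (hPv v hv) (hnear _ hva v hv))
      · exact key b σ hb h1
    · -- higher layers
      exfalso
      have hb1 : y + Pi.single l (-1) ∈ YY l t A := by
        have hi : (y + Pi.single l (-1) : Fin 7 → ℤ) l = y l - 1 := by
          simp only [Pi.add_apply, Pi.single_eq_same]; ring
        exact hY _ (h _ (mem_mk.mpr (Or.inl rfl))) (by rw [hi]; omega) (by rw [hi]; omega)
      have hn1 : ∀ w ∈ P, near 40 (y + emb l w) (y + Pi.single l (-1)) := by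
        intro w hw
        have n1 : near 9 y (y + emb l w) := near_emb (by norm_num) (Pats_bound hP hw)
        have n2 : near 1 y (y + Pi.single l (-1)) := by
          intro k
          by_cases hk : k = l
          · subst hk; simp
          · simp [Pi.single_eq_of_ne hk]
        exact (n1.symm.trans n2).mono (by norm_num)
      have hne1 : ∀ w, y + emb l w ≠ y + Pi.single l (-1) := by
        intro w hw
        have := congrFun (add_left_cancel hw) l
        rw [emb_same] at this
        simp at this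
      obtain ⟨b, σ, hb, m1, m2, m3⟩ := hG.alpha (hPv v hv) (hPv _ hva) hb1 hne (hne1 _) (hne1 _)
        (hnear v hv _ hva) (hn1 v hv) (hn1 _ hva)
      have e1 := m1.1
      have e3 := m3.1
      rw [Pi.add_apply, emb_same] at e1
      simp only [Pi.add_apply, Pi.single_eq_same] at e3
      omega
  · exfalso
    have hss : ∀ b : Bool, sg b = 1 ∨ sg b = -1 := by
      intro b
      cases b <;> simp [sg]
    have hl := hsup l (sg s) _ (hss s) hX
    subst hl hX
    have hemb : ∀ c : ℤ, emb l (Pi.single j c) = Pi.single (l.succAbove j) c := by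
      intro c
      funext k
      rcases Fin.eq_self_or_eq_succAbove l k with hk | ⟨m, hk⟩
      · rw [hk, emb_same, Pi.single_eq_of_ne (Fin.succAbove_ne l j).symm]
      · rw [hk, emb_succAbove]
        simp only [Pi.single_apply, (Fin.succAbove_right_injective (p := l)).eq_iff]
    have hm : ∀ c : ℤ, (Pi.single j c : Fin 6 → ℤ) ∈ P0 j (sg s') →
        y + Pi.single (l.succAbove j) c ∈ YY l t A := by
      intro c hc
      rw [← hemb]
      exact hYe _ (h _ (mem_mk.mpr (Or.inr (Or.inr (Or.inr ⟨_, hc, rfl⟩)))))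
    exact hG.no_three (Fin.succAbove_ne l j) (hss s') (hm _ (by simp [P0])) (hm _ (by simp [P0]))
      (hm _ (by simp [P0]))


/-! ### Generated sets -/

/-- sets obtained from single infected sites by merging close sets and by adding sites according
to the rules -/
inductive Gen (B : Set (Fin 7 → ℤ)) : Set (Fin 7 → ℤ) → Prop
  | single (a : Fin 7 → ℤ) (h : a ∈ B) : Gen B {a}
  | merge (K K' : Set (Fin 7 → ℤ)) (h : Gen B K) (h' : Gen B K')
      (hn : ∃ x ∈ K, ∃ y ∈ K', near 20 x y) : Gen B (K ∪ K')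
  | step (K : Set (Fin 7 → ℤ)) (h : Gen B K) (X : Finset (Fin 7 → ℤ)) (hX : X ∈ U)
      (y : Fin 7 → ℤ) (hy : ∀ x ∈ X, y + x ∈ K) : Gen B (insert y K)

theorem P0_bound (j : Fin 6) (b : Bool) {v : Fin 6 → ℤ} (hv : v ∈ P0 j (sg b)) (l : Fin 6) :
    |v l| ≤ 9 := by
  have h1 : ∀ c : ℤ, |c| ≤ 9 → |(Pi.single j c : Fin 6 → ℤ) l| ≤ 9 := by
    intro c hc
    by_cases hl : l = j
    · subst hl; simpa using hc
    · simp [Pi.single_eq_of_ne hl]
  simp only [P0, Finset.mem_insert, Finset.mem_singleton] at hv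
  rcases hv with hv | hv | hv <;> subst hv <;> apply h1 <;> cases b <;> simp [sg]

theorem mk_bound {i : Fin 7} {s : ℤ} (hs : |s| ≤ 1) {P : Finset (Fin 6 → ℤ)}
    (hP : ∀ v ∈ P, ∀ l, |v l| ≤ 9) {x : Fin 7 → ℤ} (hx : x ∈ mk i s P) (l : Fin 7) : |x l| ≤ 9 := by
  have h1 : ∀ c : ℤ, |c| ≤ 9 → |(Pi.single i c : Fin 7 → ℤ) l| ≤ 9 := by
    intro c hc
    by_cases hl : l = i
    · subst hl; simpa using hc
    · simp [Pi.single_eq_of_ne hl]
  rw [abs_le] at hs
  rw [mem_mk] at hx
  rcases hx with hx | hx | hx | ⟨v, hv, hx⟩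
  · subst hx; apply h1; rw [abs_le]; omega
  · subst hx; apply h1; rw [abs_le]; omega
  · subst hx; apply h1; rw [abs_le]; omega
  · subst hx
    have h2 := hP v hv
    change |emb i v l| ≤ 9
    rcases Fin.eq_self_or_eq_succAbove i l with hl | ⟨m, hl⟩
    · rw [hl, emb_same]; norm_num
    · rw [hl, emb_succAbove]; exact h2 m

theorem U_bound {X : Finset (Fin 7 → ℤ)} (hX : X ∈ U) {x : Fin 7 → ℤ} (hx : x ∈ X) (l : Fin 7) :
    |x l| ≤ 9 := by
  rw [mem_U] at hX
  rcases hX with ⟨i, P, hP, hX⟩ | ⟨i, j, s, s', hX⟩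
  · subst hX
    exact mk_bound (by norm_num) (fun v hv => Pats_bound hP hv) hx l
  · subst hX
    exact mk_bound (by cases s <;> simp [sg]) (fun v hv => P0_bound j s' hv) hx l

theorem U_nonempty {X : Finset (Fin 7 → ℤ)} (hX : X ∈ U) : ∃ x, x ∈ X := by
  rw [mem_U] at hX
  rcases hX with ⟨i, P, hP, hX⟩ | ⟨i, j, s, s', hX⟩
  · exact ⟨_, by rw [hX, mem_mk]; exact Or.inl rfl⟩
  · exact ⟨_, by rw [hX, mem_mk]; exact Or.inl rfl⟩

/-- the lower part of the closed set -/
def Z1 (i : Fin 7) (t : ℤ) (A : Set (Fin 7 → ℤ)) (x : Fin 7 → ℤ) : Prop :=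
  x i < t + 40 ∨ (x ∈ A ∧ ∃ x' ∈ A, x' i < t + 40 ∧ near 20 x x')

theorem ZZ_mid {x : Fin 7 → ℤ} (hx : x ∈ ZZ i t A) (h1 : t < x i) (h2 : x i < t + 80) :
    x ∈ A := by
  rcases hx with hx | hx | hx | ⟨a, σ, ha, hx⟩
  · omega
  · omega
  · exact hx
  · have h3 := hx.1
    have h4 := ha.2.2
    omega

theorem Good.sep (hG : Good i t A) {x z : Fin 7 → ℤ} (hx : x ∈ ZZ i t A) (hz : z ∈ ZZ i t A)
    (h1 : Z1 i t A x) (hn : near 20 x z) : Z1 i t A z := by
  by_contra h2
  have hzi : t + 40 ≤ z i := by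
    by_contra h3
    exact h2 (Or.inl (by omega))
  have hni := hn i
  rw [abs_le] at hni
  rcases h1 with h1 | ⟨hxA, x', hx', hx'i, hnx⟩
  · have hzA := ZZ_mid hz (by omega) (by omega)
    have hxA := ZZ_mid hx (by omega) (by omega)
    exact h2 (Or.inr ⟨hzA, x, hxA, h1, hn.symm⟩)
  · have hnxi := hnx i
    rw [abs_le] at hnxi
    have hzA := ZZ_mid hz (by omega) (by omega)
    have hxi : t + 40 ≤ x i := by
      by_contra h3
      exact h2 (Or.inr ⟨hzA, x, hxA, by omega, hn.symm⟩)
    refine hG.g1 x' hx' x hxA z hzA ?_ ?_ ?_ (hnx.symm.mono (by norm_num))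
      (hnx.symm.trans hn |>.mono (by norm_num)) (hn.mono (by norm_num))
    · intro h; rw [h] at hx'i; omega
    · intro h; rw [h] at hx'i; omega
    · intro h
      rw [h] at hxA hnx
      exact h2 (Or.inr ⟨hzA, x', hx', hx'i, hnx⟩)

theorem Gen.part {B K : Set (Fin 7 → ℤ)} (hK : Gen B K) (hG : Good i t A)
    (hA : ∀ x ∈ B, x ∈ K → t ≤ x i → x i < t + 80 → x ∈ A) :
    (∀ x ∈ K, x ∈ ZZ i t A) ∧ ((∀ x ∈ K, Z1 i t A x) ∨ (∀ x ∈ K, ¬ Z1 i t A x)) := by
  induction hK with
  | single a ha =>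
    refine ⟨?_, ?_⟩
    · intro x hx
      rw [Set.mem_singleton_iff] at hx
      subst hx
      by_cases h1 : x i < t
      · exact Or.inl h1
      by_cases h2 : t + 80 ≤ x i
      · exact Or.inr (Or.inl h2)
      exact Or.inr (Or.inr (Or.inl (hA x ha rfl (by omega) (by omega))))
    · by_cases h1 : Z1 i t A a
      · left
        intro x hx
        rw [Set.mem_singleton_iff] at hx
        rw [hx]; exact h1
      · right
        intro x hx
        rw [Set.mem_singleton_iff] at hx
        rw [hx]; exact h1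
  | merge K K' _ _ hn ih ih' =>
    obtain ⟨z1, d1⟩ := ih (fun x hx hxK => hA x hx (Or.inl hxK))
    obtain ⟨z2, d2⟩ := ih' (fun x hx hxK => hA x hx (Or.inr hxK))
    obtain ⟨x, hx, y, hy, hxy⟩ := hn
    refine ⟨?_, ?_⟩
    · rintro w (hw | hw)
      · exact z1 w hw
      · exact z2 w hw
    · rcases d1 with d1 | d1 <;> rcases d2 with d2 | d2
      · left
        rintro w (hw | hw)
        · exact d1 w hw
        · exact d2 w hw
      · exact (d2 y hy (hG.sep (z1 x hx) (z2 y hy) (d1 x hx) hxy)).elim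
      · exact (d1 x hx (hG.sep (z2 y hy) (z1 x hx) (d2 y hy) hxy.symm)).elim
      · right
        rintro w (hw | hw)
        · exact d1 w hw
        · exact d2 w hw
  | step K _ X hX y hy ih =>
    obtain ⟨z1, d1⟩ := ih (fun x hx hxK => hA x hx (Or.inr hxK))
    have hyZ : y ∈ ZZ i t A := hG.closed hX (fun x hx => z1 _ (hy x hx))
    obtain ⟨x, hx⟩ := U_nonempty hX
    have hn : near 20 y (y + x) := by
      intro l
      have := U_bound hX hx l
      rw [Pi.add_apply, abs_sub_comm]
      have e : y l + x l - y l = x l := by ring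
      rw [e]; omega
    refine ⟨?_, ?_⟩
    · rintro w (hw | hw)
      · rw [hw]; exact hyZ
      · exact z1 w hw
    · rcases d1 with d1 | d1
      · left
        rintro w (hw | hw)
        · rw [hw]
          exact hG.sep (z1 _ (hy x hx)) hyZ (d1 _ (hy x hx)) hn.symm
        · exact d1 w hw
      · right
        rintro w (hw | hw)
        · rw [hw]
          intro h1
          exact d1 _ (hy x hx) (hG.sep hyZ (z1 _ (hy x hx)) h1 hn)
        · exact d1 w hw

/-- a generated set does not cross a good slab -/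
theorem slab_block {B K : Set (Fin 7 → ℤ)} (hK : Gen B K) (hG : Good i t A)
    (hA : ∀ x ∈ B, x ∈ K → t ≤ x i → x i < t + 80 → x ∈ A) {x y : Fin 7 → ℤ}
    (hx : x ∈ K) (hy : y ∈ K) (h1 : x i < t) (h2 : t + 80 ≤ y i) : False := by
  obtain ⟨-, h | h⟩ := hK.part hG hA
  · rcases h y hy with h3 | ⟨-, x', -, h4, h5⟩
    · omega
    · have := h5 i
      rw [abs_le] at this
      omega
  · exact h x hx (Or.inl (by omega))

end Pool.Agent.Boot
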