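import Mathlib
import Pool.Agent.Boot.Defs
import Pool.Agent.Boot.Slab

/-!
# Percolation on the torus and generated sets (module M3)
-/

set_option autoImplicit false

open Set

namespace Pool.Agent.Boot

theorem perc_iff {N : ℕ} [NeZero N] (A : Finset (Fin 7 → ZMod N)) :
    (∀ T : Set (Fin 7 → ZMod N), ((A : Set (Fin 7 → ZMod N)) ⊆ T) →
      (∀ y : Fin 7 → ZMod N,
        (∃ X ∈ U, ∀ x ∈ X, y + (fun i : Fin 7 => ((x i : ℤ) : ZMod N)) ∈ T) → y ∈ T) →
      T = Set.univ) ↔ Perc (lift A) := by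
  constructor
  · intro h T hT hA
    have h1 := h {u | ∀ x : Fin 7 → ℤ, (fun i => ((x i : ℤ) : ZMod N)) = u → x ∈ T} ?_ ?_
    · rw [Set.eq_univ_iff_forall]
      intro x
      have h2 : (fun i => ((x i : ℤ) : ZMod N)) ∈
          {u | ∀ x : Fin 7 → ℤ, (fun i => ((x i : ℤ) : ZMod N)) = u → x ∈ T} := by
        rw [h1]; trivial
      exact h2 x rfl
    · intro u hu x hx
      apply hA
      change (fun i => ((x i : ℤ) : ZMod N)) ∈ A
      rw [hx]
      exact hu
    · rintro y ⟨X, hX, hy⟩ x hx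
      apply hT
      refine ⟨X, hX, ?_⟩
      intro v hv
      apply hy v hv
      rw [← hx]
      funext i
      simp
  · intro h T hA hT
    have h1 := h {x | (fun i => ((x i : ℤ) : ZMod N)) ∈ T} ?_ ?_
    · rw [Set.eq_univ_iff_forall]
      intro u
      have h2 : ∀ i, ∃ z : ℤ, (z : ZMod N) = u i := fun i => ZMod.intCast_surjective (u i)
      choose x hx using h2
      have h3 : x ∈ {x : Fin 7 → ℤ | (fun i => ((x i : ℤ) : ZMod N)) ∈ T} := by
        rw [h1]; trivial
      have h4 : (fun i => ((x i : ℤ) : ZMod N)) = u := funext hx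
      rw [← h4]
      exact h3
    · rintro y ⟨X, hX, hy⟩
      apply hT
      refine ⟨X, hX, ?_⟩
      intro v hv
      have h2 : (fun i => (((y + v) i : ℤ) : ZMod N)) ∈ T := hy v hv
      have e : ((fun i => ((y i : ℤ) : ZMod N)) + fun i => ((v i : ℤ) : ZMod N)) =
          fun i => (((y + v) i : ℤ) : ZMod N) := by
        funext i
        simp
      rw [e]
      exact h2
    · intro x hx
      exact hA hx

/-- all coordinate differences are smaller than `L` -/
def Sm (L : ℤ) (K : Set (Fin 7 → ℤ)) : Prop := ∀ x ∈ K, ∀ y ∈ K, ∀ i, y i - x i < L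

/-- a generated set of size comparable to `L` -/
theorem exists_gen {B : Set (Fin 7 → ℤ)} (hB : Perc B) {L : ℤ} (hL : 1 ≤ L) :
    ∃ K, Gen B K ∧ (∀ x ∈ K, ∀ y ∈ K, ∀ i, y i - x i ≤ 2 * L + 40) ∧
      ∃ x ∈ K, ∃ y ∈ K, ∃ i, L ≤ y i - x i := by
  by_contra hno
  have hsm : ∀ K, Gen B K → (∀ x ∈ K, ∀ y ∈ K, ∀ i, y i - x i ≤ 2 * L + 40) → Sm L K := by
    intro K hK h1 x hx y hy i
    by_contra h2
    exact hno ⟨K, hK, h1, x, hx, y, hy, i, by omega⟩
  have hmerge : ∀ K K', Gen B K → Gen B K' → Sm L K → Sm L K' →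
      (∃ x ∈ K, ∃ y ∈ K', near 20 x y) → Gen B (K ∪ K') ∧ Sm L (K ∪ K') := by
    intro K K' h h' s s' hn
    have hg := Gen.merge K K' h h' hn
    refine ⟨hg, hsm _ hg ?_⟩
    obtain ⟨u, hu, w, hw, huw⟩ := hn
    rintro x (hx | hx) y (hy | hy) i
    · have := s x hx y hy i; omega
    · have h1 := s x hx u hu i
      have h2 := s' w hw y hy i
      have h3 := huw i
      rw [abs_le] at h3
      omega
    · have h1 := s' x hx w hw i
      have h2 := s u hu y hy i
      have h3 := huw i
      rw [abs_le] at h3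
      omega
    · have := s' x hx y hy i; omega
  have hcl : Closed {x | ∃ K, Gen B K ∧ Sm L K ∧ x ∈ K} := by
    rintro y ⟨X, hX, hy⟩
    have key : ∀ S : Finset (Fin 7 → ℤ), S ⊆ X → S.Nonempty →
        ∃ K, Gen B K ∧ Sm L K ∧ ∀ x ∈ S, y + x ∈ K := by
      intro S
      induction S using Finset.induction_on with
      | empty => intro _ h; simp at h
      | insert a S ha ih =>
        intro hS _
        obtain ⟨Ka, g1, s1, m1⟩ := hy a (hS (Finset.mem_insert_self a S))
        by_cases hne : S.Nonempty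
        · obtain ⟨K, g2, s2, m2⟩ := ih ((Finset.subset_insert a S).trans hS) hne
          obtain ⟨b, hb⟩ := hne
          obtain ⟨g3, s3⟩ := hmerge Ka K g1 g2 s1 s2 ⟨y + a, m1, y + b, m2 b hb, by
            intro l
            have h1 := U_bound hX (hS (Finset.mem_insert_self a S)) l
            have h2 := U_bound hX (hS (Finset.mem_insert_of_mem hb)) l
            rw [abs_le] at h1 h2 ⊢
            simp only [Pi.add_apply]
            omega⟩
          refine ⟨Ka ∪ K, g3, s3, ?_⟩
          intro x hx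
          rw [Finset.mem_insert] at hx
          rcases hx with hx | hx
          · rw [hx]; exact Or.inl m1
          · exact Or.inr (m2 x hx)
        · rw [Finset.not_nonempty_iff_eq_empty] at hne
          refine ⟨Ka, g1, s1, ?_⟩
          intro x hx
          rw [hne] at hx
          rw [Finset.mem_insert] at hx
          rcases hx with hx | hx
          · rw [hx]; exact m1
          · simp at hx
    obtain ⟨x0, hx0⟩ := U_nonempty hX
    obtain ⟨K, g, s, m⟩ := key X (Finset.Subset.refl X) ⟨x0, hx0⟩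
    have hg := Gen.step K g X hX y m
    refine ⟨insert y K, hg, ?_, Or.inl rfl⟩
    apply hsm _ hg
    have hb := U_bound hX hx0
    rintro x (hx | hx) z (hz | hz) i
    · rw [hx, hz]; omega
    · have h1 := s _ (m x0 hx0) z hz i
      have h2 := hb i
      rw [abs_le] at h2
      rw [Pi.add_apply] at h1
      rw [hx]
      omega
    · have h1 := s x hx _ (m x0 hx0) i
      have h2 := hb i
      rw [abs_le] at h2
      rw [Pi.add_apply] at h1
      rw [hz]
      omega
    · have := s x hx z hz i; omega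
  have huniv : {x | ∃ K, Gen B K ∧ Sm L K ∧ x ∈ K} = Set.univ := by
    apply hB _ hcl
    intro x hx
    refine ⟨{x}, Gen.single x hx, ?_, rfl⟩
    rintro a ha b hb i
    rw [Set.mem_singleton_iff] at ha hb
    rw [ha, hb]
    omega
  have hall : ∀ x : Fin 7 → ℤ, ∃ K, Gen B K ∧ Sm L K ∧ x ∈ K := by
    intro x
    have h1 : x ∈ {x | ∃ K, Gen B K ∧ Sm L K ∧ x ∈ K} := by rw [huniv]; trivial
    exact h1
  have hchain : ∀ n : ℕ, ∃ K, Gen B K ∧ Sm L K ∧ (0 : Fin 7 → ℤ) ∈ K ∧
      (Pi.single 0 (n : ℤ) : Fin 7 → ℤ) ∈ K := by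
    intro n
    induction n with
    | zero =>
      obtain ⟨K, g, s, m⟩ := hall 0
      exact ⟨K, g, s, m, by simpa using m⟩
    | succ n ih =>
      obtain ⟨K, g, s, m0, m1⟩ := ih
      obtain ⟨K', g', s', m'⟩ := hall (Pi.single 0 ((n + 1 : ℕ) : ℤ))
      obtain ⟨g3, s3⟩ := hmerge K K' g g' s s' ⟨_, m1, _, m', by
        intro l
        by_cases hl : l = 0
        · subst hl
          rw [Pi.single_eq_same, Pi.single_eq_same, abs_le]
          push_cast
          omega
        · rw [Pi.single_eq_of_ne hl, Pi.single_eq_of_ne hl]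
          norm_num⟩
      exact ⟨K ∪ K', g3, s3, Or.inl m0, Or.inr m'⟩
  obtain ⟨K, g, s, m0, m1⟩ := hchain L.toNat
  have h1 := s _ m0 _ m1 0
  rw [Pi.single_eq_same] at h1
  simp at h1

end Pool.Agent.Boot
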