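import Pool.Agent.Boot.Defs

/-!
# Elementary toolkit for random subsets of a finite set
-/

set_option autoImplicit false

namespace Pool.Agent.Boot

section prob

variable {V : Type*} [Fintype V] [DecidableEq V] {p : ℝ}

/-- the weight of a subset `B` of `S` -/
noncomputable def wt (p : ℝ) (S B : Finset V) : ℝ := p ^ B.card * (1 - p) ^ (S.card - B.card)

omit [Fintype V] [DecidableEq V] in
theorem wt_nonneg (h0 : 0 ≤ p) (h1 : p ≤ 1) (S B : Finset V) : 0 ≤ wt p S B :=
  mul_nonneg (pow_nonneg h0 _) (pow_nonneg (by linarith) _)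

omit [Fintype V] [DecidableEq V] in
theorem sum_wt (p : ℝ) (S : Finset V) : ∑ B ∈ S.powerset, wt p S B = 1 := by
  have h := Finset.sum_pow_mul_eq_add_pow p (1 - p) S
  have e : p + (1 - p) = 1 := by ring
  rw [e, one_pow] at h
  exact h

open Classical in
theorem Pr_eq (p : ℝ) (E : Finset V → Prop) :
    Pr p E = ∑ A : Finset V, wt p Finset.univ A * (if E A then 1 else 0) := by
  unfold Pr wt
  rw [Finset.sum_filter]
  refine Finset.sum_congr rfl fun A _ => ?_
  rw [Finset.card_univ]
  by_cases h : E A <;> simp [h]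

/-- splitting a sum over subsets -/
theorem sum_split (p : ℝ) (S : Finset V) (g : Finset V → ℝ) :
    ∑ A : Finset V, wt p Finset.univ A * g A
      = ∑ B ∈ S.powerset, ∑ C ∈ Sᶜ.powerset, wt p S B * wt p Sᶜ C * g (B ∪ C) := by
  rw [← Finset.sum_product' S.powerset Sᶜ.powerset
    (fun B C => wt p S B * wt p Sᶜ C * g (B ∪ C))]
  symm
  refine Finset.sum_nbij' (fun q => q.1 ∪ q.2) (fun A => (A ∩ S, A ∩ Sᶜ)) ?_ ?_ ?_ ?_ ?_
  · intro q _
    exact Finset.mem_univ _
  · intro A _
    simp only [Finset.mem_product, Finset.mem_powerset]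
    exact ⟨Finset.inter_subset_right, Finset.inter_subset_right⟩
  · rintro ⟨B, C⟩ h
    simp only [Finset.mem_product, Finset.mem_powerset] at h
    simp only [Prod.mk.injEq]
    constructor
    · ext x
      simp only [Finset.mem_inter, Finset.mem_union]
      constructor
      · rintro ⟨h1 | h1, h2⟩
        · exact h1
        · exact absurd h2 (Finset.mem_compl.1 (h.2 h1))
      · intro h1
        exact ⟨Or.inl h1, h.1 h1⟩
    · ext x
      simp only [Finset.mem_inter, Finset.mem_union]
      constructor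
      · rintro ⟨h1 | h1, h2⟩
        · exact absurd (h.1 h1) (Finset.mem_compl.1 h2)
        · exact h1
      · intro h1
        exact ⟨Or.inr h1, h.2 h1⟩
  · intro A _
    simp only
    rw [← Finset.inter_union_distrib_left, Finset.union_compl, Finset.inter_univ]
  · rintro ⟨B, C⟩ h
    simp only [Finset.mem_product, Finset.mem_powerset] at h
    simp only
    congr 1
    unfold wt
    have hd : Disjoint B C := by
      rw [Finset.disjoint_left]
      intro x hx hx'
      exact Finset.mem_compl.1 (h.2 hx') (h.1 hx)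
    rw [Finset.card_union_of_disjoint hd]
    have hB := Finset.card_le_card h.1
    have hC := Finset.card_le_card h.2
    have hS : S.card + Sᶜ.card = (Finset.univ : Finset V).card := by
      rw [Finset.card_add_card_compl, Finset.card_univ]
    have e : (Finset.univ : Finset V).card - (B.card + C.card)
        = (S.card - B.card) + (Sᶜ.card - C.card) := by omega
    rw [e, pow_add, pow_add]
    ring

theorem Pr_nonneg (h0 : 0 ≤ p) (h1 : p ≤ 1) (E : Finset V → Prop) : 0 ≤ Pr p E := by
  classical
  rw [Pr_eq]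
  refine Finset.sum_nonneg fun A _ => mul_nonneg (wt_nonneg h0 h1 _ _) ?_
  split_ifs <;> norm_num

theorem Pr_true (p : ℝ) : Pr p (fun _ : Finset V => True) = 1 := by
  classical
  have h := sum_wt p (Finset.univ : Finset V)
  rw [Finset.powerset_univ] at h
  rw [Pr_eq]
  refine Eq.trans (Finset.sum_congr rfl fun A _ => ?_) h
  rw [if_pos trivial, mul_one]

theorem Pr_mono (h0 : 0 ≤ p) (h1 : p ≤ 1) {E F : Finset V → Prop} (h : ∀ A, E A → F A) :
    Pr p E ≤ Pr p F := by
  classical
  rw [Pr_eq, Pr_eq]
  refine Finset.sum_le_sum fun A _ => mul_le_mul_of_nonneg_left ?_ (wt_nonneg h0 h1 _ _)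
  by_cases hE : E A
  · rw [if_pos hE, if_pos (h A hE)]
  · rw [if_neg hE]
    split_ifs <;> norm_num

theorem Pr_not (p : ℝ) (E : Finset V → Prop) : Pr p (fun A => ¬ E A) = 1 - Pr p E := by
  classical
  have h : ∑ A : Finset V, wt p Finset.univ A = 1 := by
    have h := sum_wt p (Finset.univ : Finset V)
    rwa [Finset.powerset_univ] at h
  rw [eq_sub_iff_add_eq, Pr_eq, Pr_eq, ← Finset.sum_add_distrib]
  refine Eq.trans (Finset.sum_congr rfl fun A _ => ?_) h
  by_cases hE : E A <;> simp [hE]

theorem Pr_or_le (h0 : 0 ≤ p) (h1 : p ≤ 1) (E F : Finset V → Prop) :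
    Pr p (fun A => E A ∨ F A) ≤ Pr p E + Pr p F := by
  classical
  rw [Pr_eq, Pr_eq, Pr_eq, ← Finset.sum_add_distrib]
  refine Finset.sum_le_sum fun A _ => ?_
  have := wt_nonneg h0 h1 (Finset.univ : Finset V) A
  by_cases hE : E A <;> by_cases hF : F A <;> (simp [hE, hF]; try linarith)

theorem Pr_false (p : ℝ) : Pr p (fun _ : Finset V => False) = 0 := by
  classical
  rw [Pr_eq]
  exact Finset.sum_eq_zero fun A _ => by simp

theorem Pr_congr (p : ℝ) {E F : Finset V → Prop} (h : ∀ A, E A ↔ F A) : Pr p E = Pr p F := by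
  have : E = F := funext fun A => propext (h A)
  rw [this]

theorem Pr_exists_le (h0 : 0 ≤ p) (h1 : p ≤ 1) {ι : Type*} (s : Finset ι)
    (E : ι → Finset V → Prop) :
    Pr p (fun A => ∃ i ∈ s, E i A) ≤ ∑ i ∈ s, Pr p (E i) := by
  classical
  induction s using Finset.induction_on with
  | empty =>
    rw [Finset.sum_empty, Pr_congr p (F := fun _ => False) (fun A => by simp), Pr_false]
  | insert a s ha ih =>
    rw [Finset.sum_insert ha,
      Pr_congr p (F := fun A => E a A ∨ ∃ i ∈ s, E i A) (fun A => by simp)]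
    exact (Pr_or_le h0 h1 _ _).trans (by linarith)

/-- finite additivity for pairwise exclusive events -/
theorem Pr_exists_disjoint {ι : Type*} (s : Finset ι) (E : ι → Finset V → Prop)
    (hd : ∀ A, ∀ i ∈ s, ∀ j ∈ s, E i A → E j A → i = j) :
    Pr p (fun A => ∃ i ∈ s, E i A) = ∑ i ∈ s, Pr p (E i) := by
  classical
  simp_rw [Pr_eq]
  rw [Finset.sum_comm]
  refine Finset.sum_congr rfl fun A _ => ?_
  rw [← Finset.mul_sum]
  congr 1
  by_cases h : ∃ i ∈ s, E i A
  · rw [if_pos h]
    obtain ⟨i, hi, hE⟩ := h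
    rw [Finset.sum_eq_single_of_mem i hi, if_pos hE]
    intro j hj hji
    rw [if_neg]
    intro hj'
    exact hji (hd A j hj i hi hj' hE)
  · rw [if_neg h]
    symm
    refine Finset.sum_eq_zero fun i hi => ?_
    rw [if_neg]
    intro hi'
    exact h ⟨i, hi, hi'⟩

/-- the event `E` depends only on the sites in `S` -/
def Dep (E : Finset V → Prop) (S : Finset V) : Prop :=
  ∀ A B : Finset V, A ∩ S = B ∩ S → (E A ↔ E B)

omit [Fintype V] in
theorem Dep.mono {E : Finset V → Prop} {S S' : Finset V} (h : Dep E S) (hS : S ⊆ S') :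
    Dep E S' := by
  intro A B hAB
  refine h A B ?_
  have h1 : A ∩ S = (A ∩ S') ∩ S := by
    rw [Finset.inter_assoc, Finset.inter_eq_right.2 hS]
  have h2 : B ∩ S = (B ∩ S') ∩ S := by
    rw [Finset.inter_assoc, Finset.inter_eq_right.2 hS]
  rw [h1, h2, hAB]

open Classical in
theorem Pr_eq_of_dep {E : Finset V → Prop} {S : Finset V} (hE : Dep E S) :
    Pr p E = ∑ B ∈ S.powerset, wt p S B * (if E B then 1 else 0) := by
  rw [Pr_eq, sum_split p S]
  refine Finset.sum_congr rfl fun B hB => ?_
  have h : ∀ C ∈ Sᶜ.powerset, wt p S B * wt p Sᶜ C * (if E (B ∪ C) then (1 : ℝ) else 0)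
      = (wt p S B * (if E B then 1 else 0)) * wt p Sᶜ C := by
    intro C hC
    have : E (B ∪ C) ↔ E B := by
      apply hE
      rw [Finset.union_inter_distrib_right]
      have : C ∩ S = ∅ := by
        rw [← Finset.disjoint_iff_inter_eq_empty, Finset.disjoint_left]
        intro x hx
        exact Finset.mem_compl.1 ((Finset.mem_powerset.1 hC) hx)
      rw [this, Finset.union_empty]
    simp only [this]
    ring
  rw [Finset.sum_congr rfl h, ← Finset.mul_sum, sum_wt, mul_one]

theorem Pr_and {E F : Finset V → Prop} {S S' : Finset V} (hE : Dep E S) (hF : Dep F S')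
    (hd : Disjoint S S') : Pr p (fun A => E A ∧ F A) = Pr p E * Pr p F := by
  classical
  have hF' : Dep F Sᶜ := hF.mono (by
    intro x hx
    rw [Finset.mem_compl]
    exact fun h => Finset.disjoint_left.1 hd h hx)
  rw [Pr_eq_of_dep hE, Pr_eq_of_dep hF', Pr_eq, sum_split p S, Finset.sum_mul_sum]
  refine Finset.sum_congr rfl fun B hB => Finset.sum_congr rfl fun C hC => ?_
  have h1 : C ∩ S = ∅ := by
    rw [← Finset.disjoint_iff_inter_eq_empty, Finset.disjoint_left]
    intro x hx
    exact Finset.mem_compl.1 ((Finset.mem_powerset.1 hC) hx)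
  have h2 : B ∩ Sᶜ = ∅ := by
    rw [← Finset.disjoint_iff_inter_eq_empty, Finset.disjoint_left]
    intro x hx hx'
    exact Finset.mem_compl.1 hx' ((Finset.mem_powerset.1 hB) hx)
  have hEB : E (B ∪ C) ↔ E B := by
    apply hE
    rw [Finset.union_inter_distrib_right, h1, Finset.union_empty]
  have hFC : F (B ∪ C) ↔ F C := by
    apply hF'
    rw [Finset.union_inter_distrib_right, h2, Finset.empty_union]
  simp only [hEB, hFC]
  by_cases h : E B <;> by_cases h' : F C <;> simp [h, h']

omit [Fintype V] in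
theorem Dep.forall {ι : Type*} (s : Finset ι) (E : ι → Finset V → Prop) (S : ι → Finset V)
    (hE : ∀ i ∈ s, Dep (E i) (S i)) : Dep (fun A => ∀ i ∈ s, E i A) (s.biUnion S) := by
  intro A B hAB
  refine forall₂_congr fun i hi => ?_
  exact ((hE i hi).mono (Finset.subset_biUnion_of_mem S hi)) A B hAB

theorem Pr_forall {ι : Type*} (s : Finset ι) (E : ι → Finset V → Prop) (S : ι → Finset V)
    (hE : ∀ i ∈ s, Dep (E i) (S i)) (hd : ∀ i ∈ s, ∀ j ∈ s, i ≠ j → Disjoint (S i) (S j)) :
    Pr p (fun A => ∀ i ∈ s, E i A) = ∏ i ∈ s, Pr p (E i) := by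
  classical
  induction s using Finset.induction_on with
  | empty =>
    rw [Finset.prod_empty, Pr_congr p (F := fun _ => True) (fun A => by simp), Pr_true]
  | insert a s ha ih =>
    rw [Finset.prod_insert ha,
      Pr_congr p (F := fun A => E a A ∧ ∀ i ∈ s, E i A) (fun A => by simp),
      Pr_and (hE a (Finset.mem_insert_self a s))
        (Dep.forall s E S fun i hi => hE i (Finset.mem_insert_of_mem hi)),
      ih (fun i hi => hE i (Finset.mem_insert_of_mem hi))
        (fun i hi j hj => hd i (Finset.mem_insert_of_mem hi) j (Finset.mem_insert_of_mem hj))]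
    rw [Finset.disjoint_biUnion_right]
    intro i hi
    refine hd a (Finset.mem_insert_self a s) i (Finset.mem_insert_of_mem hi) ?_
    rintro rfl
    exact ha hi

theorem Pr_mem (p : ℝ) (i : V) : Pr p (fun A => i ∈ A) = p := by
  classical
  have hD : Dep (fun A : Finset V => i ∈ A) {i} := by
    intro A B hAB
    have h := Finset.ext_iff.1 hAB i
    simpa using h
  have hp : ({i} : Finset V).powerset = {∅, {i}} := by
    ext B
    rw [Finset.mem_powerset, Finset.subset_singleton_iff]
    simp
  rw [Pr_eq_of_dep hD, hp, Finset.sum_insert (by simp), Finset.sum_singleton]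
  simp [wt]

theorem Pr_subset (h1 : p ≤ 1) (F : Finset V) : Pr p (fun A => F ⊆ A) = p ^ F.card := by
  have _ := h1
  have e := Pr_forall (p := p) F (fun (i : V) (A : Finset V) => i ∈ A) (fun i => {i})
    (fun i _ A B hAB => by
      have h := Finset.ext_iff.1 hAB i
      simpa using h)
    (fun i _ j _ hij => by simpa using hij)
  rw [Pr_congr p (F := fun A => ∀ i ∈ F, i ∈ A) (fun A => by rfl), e,
    Finset.prod_congr rfl (fun i _ => Pr_mem p i), Finset.prod_const]

end prob

end Pool.Agent.Boot
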