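import Mathlib
import Pool.Agent.Boot.Defs
import Pool.Agent.Boot.Slab
import Pool.Agent.Boot.Perc
import Pool.Agent.Boot.Pascal
import Pool.Agent.Boot.Prob

/-!
# Bad slabs (module M8, first part)
-/

set_option autoImplicit false

open Set

namespace Pool.Agent.Boot

theorem Gen.translate {B K : Set (Fin 7 → ℤ)} (h : Gen B K) (v : Fin 7 → ℤ) :
    Gen {z | z + v ∈ B} {z | z + v ∈ K} := by
  induction h with
  | single a ha =>
    have e : {z | z + v ∈ ({a} : Set (Fin 7 → ℤ))} = {a - v} := by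
      ext z
      simp [eq_sub_iff_add_eq]
    rw [e]
    exact Gen.single _ (by simpa using ha)
  | merge K K' _ _ hn ih ih' =>
    obtain ⟨x, hx, y, hy, hxy⟩ := hn
    have hx' : x - v + v ∈ K := by rw [sub_add_cancel]; exact hx
    have hy' : y - v + v ∈ K' := by rw [sub_add_cancel]; exact hy
    exact Gen.merge _ _ ih ih' ⟨x - v, hx', y - v, hy', fun i => by
      have := hxy i
      simpa using this⟩
  | step K _ X hX y hy ih =>
    have e : {z | z + v ∈ insert y K} = insert (y - v) {z | z + v ∈ K} := by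
      ext z
      simp [eq_sub_iff_add_eq]
    rw [e]
    refine Gen.step _ ih X hX (y - v) (fun x hx => ?_)
    change y - v + x + v ∈ K
    have e2 : y - v + x + v = y + x := by abel
    rw [e2]
    exact hy x hx

variable {N : ℕ}

/-- the projection of `ℤ^7` to the torus, shifted by `a` -/
def ph (a : Fin 7 → ZMod N) (z : Fin 7 → ℤ) : Fin 7 → ZMod N := fun i => ((z i : ℤ) : ZMod N) + a i

/-- the part of the infected set in the slab `[t, t + 80)` of the cube of radius `D` around `a` -/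
def Bx (D : ℕ) (i : Fin 7) (t : ℤ) (a : Fin 7 → ZMod N) (A : Finset (Fin 7 → ZMod N)) :
    Set (Fin 7 → ℤ) := {z | ph a z ∈ A ∧ (∀ l, |z l| ≤ D) ∧ t ≤ z i ∧ z i < t + 80}

theorem perc_bad [NeZero N] {A : Finset (Fin 7 → ZMod N)} (h : Perc (lift A)) (k : ℕ) :
    ∃ (a : Fin 7 → ZMod N) (i : Fin 7), ∀ j < k,
      ¬ Good i (1 + 80 * (j : ℤ)) (Bx (160 * k + 42) i (1 + 80 * (j : ℤ)) a A) := by
  obtain ⟨K, hg, hd, x, hx, y, hy, i, hL⟩ := exists_gen h (L := 80 * (k : ℤ) + 1) (by omega)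
  refine ⟨fun l => ((x l : ℤ) : ZMod N), i, fun j hj hG => ?_⟩
  have hg' := hg.translate x
  refine slab_block hg' hG ?_ (x := 0) (y := y - x) (by simpa using hx) (by simpa using hy) ?_ ?_
  · intro z hz hzK h1 h2
    refine ⟨?_, ?_, h1, h2⟩
    · have h3 : (fun l => (((z + x) l : ℤ) : ZMod N)) ∈ A := hz
      convert h3 using 1
      funext l
      simp [ph]
    · intro l
      have h3 := hd x hx _ hzK l
      have h4 := hd _ hzK x hx l
      rw [Pi.add_apply] at h3 h4
      rw [abs_le]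
      push_cast
      omega
  · simp only [Pi.zero_apply]
    omega
  · rw [Pi.sub_apply]
    have : ((j : ℤ)) + 1 ≤ k := by exact_mod_cast hj
    omega

/-! ### Injectivity -/

theorem ph_inj {D : ℕ} (hD : 2 * D < N) {a : Fin 7 → ZMod N} {z z' : Fin 7 → ℤ}
    (hz : ∀ l, |z l| ≤ D) (hz' : ∀ l, |z' l| ≤ D) (h : ph a z = ph a z') : z = z' := by
  funext l
  have h1 := congrFun h l
  simp only [ph, add_left_inj] at h1
  rw [ZMod.intCast_eq_intCast_iff_dvd_sub] at h1
  have h2 := hz l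
  have h3 := hz' l
  rw [abs_le] at h2 h3
  have h4 : z' l - z l = 0 := by
    apply Int.eq_zero_of_abs_lt_dvd h1
    rw [abs_lt]
    omega
  omega

variable [NeZero N] {p : ℝ}

theorem Pr_all {D : ℕ} (hD : 2 * D < N) (h1 : p ≤ 1) (a : Fin 7 → ZMod N)
    (F : Finset (Fin 7 → ℤ)) (hF : ∀ z ∈ F, ∀ l, |z l| ≤ D) :
    Pr p (fun A : Finset (Fin 7 → ZMod N) => ∀ z ∈ F, ph a z ∈ A) = p ^ F.card := by
  classical
  have e : (F.image (ph a)).card = F.card := by
    apply Finset.card_image_of_injOn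
    intro z hz z' hz' h
    exact ph_inj hD (hF z hz) (hF z' hz') h
  rw [← e, ← Pr_subset h1]
  apply Pr_congr
  intro A
  rw [Finset.image_subset_iff]

theorem Pr_config {D : ℕ} (hD : 2 * D < N) (h0 : 0 ≤ p) (h1 : p ≤ 1) (a : Fin 7 → ZMod N)
    {ι : Type*} (C : Finset ι) (F : ι → Finset (Fin 7 → ℤ)) (m : ℕ) :
    Pr p (fun A : Finset (Fin 7 → ZMod N) => ∃ c ∈ C, (F c).card = m ∧
      (∀ z ∈ F c, ∀ l, |z l| ≤ D) ∧ ∀ z ∈ F c, ph a z ∈ A) ≤ C.card * p ^ m := by
  classical
  refine (Pr_exists_le h0 h1 C _).trans ?_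
  have h2 : ∀ c ∈ C, Pr p (fun A : Finset (Fin 7 → ZMod N) => (F c).card = m ∧
      (∀ z ∈ F c, ∀ l, |z l| ≤ D) ∧ ∀ z ∈ F c, ph a z ∈ A) ≤ p ^ m := by
    intro c _
    by_cases hc : (F c).card = m ∧ ∀ z ∈ F c, ∀ l, |z l| ≤ D
    · rw [← hc.1, ← Pr_all hD h1 a (F c) hc.2]
      apply Pr_mono h0 h1
      intro A hA
      exact hA.2.2
    · have h3 : Pr p (fun A : Finset (Fin 7 → ZMod N) => (F c).card = m ∧
          (∀ z ∈ F c, ∀ l, |z l| ≤ D) ∧ ∀ z ∈ F c, ph a z ∈ A) =
          Pr p (fun _ : Finset (Fin 7 → ZMod N) => False) := by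
        apply Pr_congr
        intro A
        constructor
        · rintro ⟨h4, h5, -⟩
          exact hc ⟨h4, h5⟩
        · exact False.elim
      rw [h3, Pr_false]
      positivity
  calc _ ≤ ∑ _c ∈ C, p ^ m := Finset.sum_le_sum h2
    _ = C.card * p ^ m := by rw [Finset.sum_const, nsmul_eq_mul]

/-! ### Counting the configurations -/

/-- integer box -/
noncomputable def bx (n : ℕ) (R : ℤ) : Finset (Fin n → ℤ) := Fintype.piFinset fun _ => Finset.Icc (-R) R

theorem mem_bx {n : ℕ} {R : ℤ} {z : Fin n → ℤ} : z ∈ bx n R ↔ ∀ l, |z l| ≤ R := by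
  simp [bx, abs_le]

theorem card_bx (n R : ℕ) : (bx n R).card = (2 * R + 1) ^ n := by
  simp only [bx, Fintype.card_piFinset, Int.card_Icc, Finset.prod_const, Finset.card_univ,
    Fintype.card_fin]
  congr 1
  omega

/-- cells in the cube of size `W` which carry a symbol -/
def cellW (W : ℕ) : Finset (ℕ × ℕ × ℕ) :=
  (Finset.range W ×ˢ Finset.range W ×ˢ Finset.range W).filter
    fun c => c.2.2 = 0 ∨ (c.1 + c.2.1).choose c.1 % 2 = 1

theorem card_cellW (W : ℕ) : (cellW W).card ≤ W ^ 2 + W * oddCount W := by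
  classical
  have h : cellW W ⊆ ((Finset.range W ×ˢ Finset.range W).image
      fun t : ℕ × ℕ => (t.1, t.2, 0)) ∪
      ((((Finset.range W ×ˢ Finset.range W).filter
        fun t : ℕ × ℕ => (t.1 + t.2).choose t.1 % 2 = 1) ×ˢ Finset.range W).image
        fun t : (ℕ × ℕ) × ℕ => (t.1.1, t.1.2, t.2)) := by
    rintro ⟨m, n, k⟩ hc
    simp only [cellW, Finset.mem_filter, Finset.mem_product, Finset.mem_range] at hc
    rw [Finset.mem_union]
    rcases hc.2 with h | h
    · left
      rw [Finset.mem_image]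
      exact ⟨(m, n), by simp [hc.1.1, hc.1.2.1], by simp [h]⟩
    · right
      rw [Finset.mem_image]
      exact ⟨((m, n), k), by simp [hc.1.1, hc.1.2.1, hc.1.2.2, h], rfl⟩
  refine (Finset.card_le_card h).trans ((Finset.card_union_le _ _).trans ?_)
  apply Nat.add_le_add
  · refine Finset.card_image_le.trans ?_
    rw [Finset.card_product, Finset.card_range, sq]
  · refine Finset.card_image_le.trans ?_
    rw [Finset.card_product, Finset.card_range, mul_comm]
    rfl

theorem CS_cell {m n k : ℕ} {σ : Sym} (h : CS m n k σ) :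
    k = 0 ∨ (m + n).choose m % 2 = 1 := by
  cases σ <;> simp only [CS] at h
  · exact Or.inl h.1
  · exact Or.inl h.1
  · exact Or.inl h.1
  · exact Or.inl h.1
  · exact Or.inl h.1
  · exact Or.inr h.2.2.2

theorem TT_spec {i : Fin 7} {a y : Fin 7 → ℤ} {σ : Sym} (h : y ∈ TT i a σ) :
    ∃ m n k : ℕ, ∃ q : ℕ, q < 8 ∧ (k = 0 ∨ (m + n).choose m % 2 = 1) ∧
      y = a + emb i (cv m n k + ff (q : ℤ) - tau σ) := by
  obtain ⟨hi, m, n, k, σ', h1, h2⟩ := h
  have hk := kap_bounds σ'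
  have key : ∀ q : ℕ, (fun j => y (i.succAbove j) - a (i.succAbove j)) + tau σ =
      cv m n k + ff (q : ℤ) → y = a + emb i (cv m n k + ff (q : ℤ) - tau σ) := by
    intro q hq
    funext l
    rcases Fin.eq_self_or_eq_succAbove i l with hl | ⟨j, hl⟩
    · rw [hl, Pi.add_apply, emb_same, add_zero, hi]
    · rw [hl, Pi.add_apply, emb_succAbove, ← hq]
      simp
  rcases h2 with h2 | h2
  · refine ⟨m, n, k, 0, by norm_num, CS_cell h1, key 0 ?_⟩
    rw [h2]
    have : ff ((0 : ℕ) : ℤ) = 0 := by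
      funext j
      fin_cases j <;> rfl
    rw [this, add_zero]
  · refine ⟨m, n, k, (kap σ').toNat, by omega, CS_cell h1, key _ ?_⟩
    rw [h2, Int.toNat_of_nonneg (by omega)]

end Pool.Agent.Boot
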