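import Mathlib
import Pool.Agent.Boot.Bad

/-!
# Bad slabs (module M8, second part)
-/

set_option autoImplicit false

open Set

namespace Pool.Agent.Boot

variable {N : ℕ}

theorem tau_bounds (σ : Sym) : (0 ≤ tau σ 0 ∧ tau σ 0 ≤ 2) ∧ (0 ≤ tau σ 1 ∧ tau σ 1 ≤ 4) ∧
    (0 ≤ tau σ 2 ∧ tau σ 2 ≤ 2) ∧ tau σ 3 = 0 ∧ tau σ 4 = 0 ∧ tau σ 5 = 0 := by
  cases σ <;> simp [tau, cv]

theorem card_three {α : Type*} [DecidableEq α] {x y z : α} (hxy : x ≠ y) (hxz : x ≠ z)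
    (hyz : y ≠ z) : ({x, y, z} : Finset α).card = 3 := by
  rw [Finset.card_insert_of_notMem (by simp [hxy, hxz]), Finset.card_insert_of_notMem
    (by simp [hyz]), Finset.card_singleton]

theorem card_four {α : Type*} [DecidableEq α] {x y z w : α} (hxy : x ≠ y) (hxz : x ≠ z)
    (hxw : x ≠ w) (hyz : y ≠ z) (hyw : y ≠ w) (hzw : z ≠ w) :
    ({x, y, z, w} : Finset α).card = 4 := by
  rw [Finset.card_insert_of_notMem (by simp [hxy, hxz, hxw]), card_three hyz hyw hzw]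

/-- site of the layer `t` with the coordinates `v` -/
def lay (i : Fin 7) (t : ℤ) (v : Fin 6 → ℤ) : Fin 7 → ℤ := i.insertNth t v

theorem lay_eq {i : Fin 7} {t : ℤ} {a : Fin 7 → ℤ} (h : a i = t) :
    lay i t (fun j => a (i.succAbove j)) = a := by
  funext l
  rcases Fin.eq_self_or_eq_succAbove i l with hl | ⟨j, hl⟩
  · rw [hl]; simp [lay, h]
  · rw [hl]; simp [lay]

/-- the differences between two cells whose patterns meet -/
noncomputable def bx3 (D : ℕ) : Finset (Fin 6 → ℤ) :=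
  Fintype.piFinset fun j : Fin 6 => if j < 3 then Finset.Icc (-(2 * D : ℤ)) (2 * D) else
    Finset.Icc (-47) 47

theorem card_bx3 (D : ℕ) : (bx3 D).card = (4 * D + 1) ^ 3 * 95 ^ 3 := by
  simp only [bx3, Fintype.card_piFinset]
  rw [Fin.prod_univ_six]
  have e1 : (Finset.Icc (-(2 * D : ℤ)) (2 * D)).card = 4 * D + 1 := by
    rw [Int.card_Icc]; omega
  have e2 : (Finset.Icc (-47 : ℤ) 47).card = 95 := by
    rw [Int.card_Icc]; rfl
  have h0 : (0 : Fin 6) < 3 := by decide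
  have h1 : (1 : Fin 6) < 3 := by decide
  have h2 : (2 : Fin 6) < 3 := by decide
  have h3 : ¬ (3 : Fin 6) < 3 := by decide
  have h4 : ¬ (4 : Fin 6) < 3 := by decide
  have h5 : ¬ (5 : Fin 6) < 3 := by decide
  rw [if_pos h0, if_pos h1, if_pos h2, if_neg h3, if_neg h4, if_neg h5, e1, e2]
  ring

theorem mem_bx3 {D : ℕ} {w : Fin 6 → ℤ} (h0 : |w 0| ≤ 2 * D) (h1 : |w 1| ≤ 2 * D)
    (h2 : |w 2| ≤ 2 * D) (h3 : |w 3| ≤ 47) (h4 : |w 4| ≤ 47) (h5 : |w 5| ≤ 47) : w ∈ bx3 D := by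
  rw [abs_le] at h0 h1 h2 h3 h4 h5
  simp only [bx3, Fintype.mem_piFinset]
  intro j
  fin_cases j
  · rw [if_pos (by decide), Finset.mem_Icc]; exact h0
  · rw [if_pos (by decide), Finset.mem_Icc]; exact h1
  · rw [if_pos (by decide), Finset.mem_Icc]; exact h2
  · rw [if_neg (by decide), Finset.mem_Icc]; exact h3
  · rw [if_neg (by decide), Finset.mem_Icc]; exact h4
  · rw [if_neg (by decide), Finset.mem_Icc]; exact h5

/-- configurations of the three types -/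
noncomputable def C1 (D : ℕ) (R : ℤ) : Finset ((Fin 7 → ℤ) × (Fin 7 → ℤ) × (Fin 7 → ℤ)) :=
  bx 7 D ×ˢ bx 7 R ×ˢ bx 7 R

def F1 (c : (Fin 7 → ℤ) × (Fin 7 → ℤ) × (Fin 7 → ℤ)) : Finset (Fin 7 → ℤ) :=
  {c.1, c.1 + c.2.1, c.1 + c.2.2}

noncomputable def C2 (D : ℕ) (R : ℤ) :
    Finset ((Fin 6 → ℤ) × Sym × (ℕ × ℕ × ℕ) × ℕ × (Fin 7 → ℤ)) :=
  bx 6 D ×ˢ Finset.univ ×ˢ cellW (D + 23) ×ˢ Finset.range 8 ×ˢ bx 7 R

def F2 (i : Fin 7) (t : ℤ) (c : (Fin 6 → ℤ) × Sym × (ℕ × ℕ × ℕ) × ℕ × (Fin 7 → ℤ)) :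
    Finset (Fin 7 → ℤ) :=
  {lay i t c.1, lay i t c.1 + emb i (ff (kap c.2.1)),
    lay i t c.1 + emb i (cv c.2.2.1.1 c.2.2.1.2.1 c.2.2.1.2.2 + ff (c.2.2.2.1 : ℤ) - tau c.2.1) +
      c.2.2.2.2}

noncomputable def C3 (D : ℕ) : Finset ((Fin 6 → ℤ) × Sym × Sym × (Fin 6 → ℤ)) :=
  bx 6 D ×ˢ Finset.univ ×ˢ Finset.univ ×ˢ bx3 D

def F3 (i : Fin 7) (t : ℤ) (c : (Fin 6 → ℤ) × Sym × Sym × (Fin 6 → ℤ)) :
    Finset (Fin 7 → ℤ) :=
  {lay i t c.1, lay i t c.1 + emb i (ff (kap c.2.1)),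
    lay i t c.1 + emb i c.2.2.2, lay i t c.1 + emb i c.2.2.2 + emb i (ff (kap c.2.2.1))}

theorem card_Sym : (Finset.univ : Finset Sym).card = 6 := rfl

theorem card_C1 (D : ℕ) {R : ℤ} {K : ℕ} (hK : (bx 7 R).card = K) :
    (C1 D R).card = (2 * D + 1) ^ 7 * (K * K) := by
  simp only [C1, Finset.card_product, card_bx 7 D, hK]

theorem card_C2 (D : ℕ) {R : ℤ} {K : ℕ} (hK : (bx 7 R).card = K) :
    (C2 D R).card = (2 * D + 1) ^ 6 * (6 * ((cellW (D + 23)).card * (8 * K))) := by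
  simp only [C2, Finset.card_product, card_bx 6 D, card_Sym, Finset.card_range, hK]

theorem card_C3 (D : ℕ) : (C3 D).card = (2 * D + 1) ^ 6 * (6 * (6 *
    ((4 * D + 1) ^ 3 * 95 ^ 3))) := by
  simp only [C3, Finset.card_product, card_bx 6 D, card_Sym, card_bx3]

section cover

variable {D : ℕ} {i : Fin 7} {t : ℤ} {a0 : Fin 7 → ZMod N} {A : Finset (Fin 7 → ZMod N)}

theorem cover1 (n1 : ¬ ∃ c ∈ C1 D 40, (F1 c).card = 3 ∧ (∀ z ∈ F1 c, ∀ l, |z l| ≤ D) ∧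
    ∀ z ∈ F1 c, ph a0 z ∈ A) {x y z : Fin 7 → ℤ} (hx : x ∈ Bx D i t a0 A)
    (hy : y ∈ Bx D i t a0 A) (hz : z ∈ Bx D i t a0 A) (hxy : x ≠ y) (hxz : x ≠ z) (hyz : y ≠ z)
    (nxy : near 40 x y) (nxz : near 40 x z) : False := by
  have e1 : x + (y - x) = y := by abel
  have e2 : x + (z - x) = z := by abel
  have e : F1 (x, y - x, z - x) = {x, y, z} := by
    simp only [F1, e1, e2]
  refine n1 ⟨(x, y - x, z - x), ?_, ?_, ?_, ?_⟩
  · simp only [C1, Finset.mem_product, mem_bx]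
    refine ⟨hx.2.1, ?_, ?_⟩
    · intro l
      have := nxy.symm l
      simpa using this
    · intro l
      have := nxz.symm l
      simpa using this
  · rw [e]; exact card_three hxy hxz hyz
  · rw [e]
    intro w hw
    simp only [Finset.mem_insert, Finset.mem_singleton] at hw
    rcases hw with hw | hw | hw <;> rw [hw]
    · exact hx.2.1
    · exact hy.2.1
    · exact hz.2.1
  · rw [e]
    intro w hw
    simp only [Finset.mem_insert, Finset.mem_singleton] at hw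
    rcases hw with hw | hw | hw <;> rw [hw]
    · exact hx.1
    · exact hy.1
    · exact hz.1

theorem cover2 (n2 : ¬ ∃ c ∈ C2 D 40, (F2 i t c).card = 3 ∧
    (∀ z ∈ F2 i t c, ∀ l, |z l| ≤ D) ∧ ∀ z ∈ F2 i t c, ph a0 z ∈ A)
    {a : Fin 7 → ℤ} {σ : Sym} (ha : Act i t (Bx D i t a0 A) a σ) {z : Fin 7 → ℤ}
    (hz : z ∈ Bx D i t a0 A) (hza : z ≠ a) (hza' : z ≠ a + emb i (ff (kap σ)))
    {y : Fin 7 → ℤ} (hy : y ∈ TT i a σ) (hzy : near 40 z y) : False := by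
  obtain ⟨m, n, k, q, hq, hcell, hyeq⟩ := TT_spec hy
  have e0 := lay_eq ha.2.2
  have e1 : a + emb i (cv m n k + ff (q : ℤ) - tau σ) + (z - y) = z := by
    rw [← hyeq]; abel
  have e : F2 i t (fun j => a (i.succAbove j), σ, (m, n, k), q, z - y) =
      {a, a + emb i (ff (kap σ)), z} := by
    simp only [F2, e0, e1]
  have hb : ∀ j, |cv m n k j + ff (q : ℤ) j - tau σ j| ≤ 2 * D + 40 := by
    intro j
    have h1 := hz.2.1 (i.succAbove j)
    have h2 := ha.1.2.1 (i.succAbove j)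
    have h3 := hzy (i.succAbove j)
    have h4 := congrFun hyeq (i.succAbove j)
    rw [Pi.add_apply, emb_succAbove, Pi.sub_apply, Pi.add_apply] at h4
    rw [abs_le] at h1 h2 h3 ⊢
    clear hcell
    omega
  obtain ⟨c0, c1, c2, -⟩ := cv_apply m n k
  obtain ⟨f0, f1, f2, -⟩ := ff_apply (q : ℤ)
  obtain ⟨t0, t1, t2, -⟩ := tau_bounds σ
  have b0 := hb 0
  have b1 := hb 1
  have b2 := hb 2
  rw [abs_le] at b0 b1 b2
  refine n2 ⟨(fun j => a (i.succAbove j), σ, (m, n, k), q, z - y), ?_, ?_, ?_, ?_⟩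
  · have hm : m < D + 23 := by clear hcell; omega
    have hn : n < D + 23 := by clear hcell; omega
    have hk : k < D + 23 := by clear hcell; omega
    simp only [C2, Finset.mem_product, mem_bx, Finset.mem_univ, true_and, cellW,
      Finset.mem_filter, Finset.mem_range]
    refine ⟨fun j => ha.1.2.1 _, ⟨⟨hm, hn, hk⟩, hcell⟩, hq, ?_⟩
    intro l
    have := hzy l
    simpa using this
  · rw [e]; exact card_three (ne_partner a σ) (Ne.symm hza) (Ne.symm hza')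
  · rw [e]
    intro w hw
    simp only [Finset.mem_insert, Finset.mem_singleton] at hw
    rcases hw with hw | hw | hw <;> rw [hw]
    · exact ha.1.2.1
    · exact ha.2.1.2.1
    · exact hz.2.1
  · rw [e]
    intro w hw
    simp only [Finset.mem_insert, Finset.mem_singleton] at hw
    rcases hw with hw | hw | hw <;> rw [hw]
    · exact ha.1.1
    · exact ha.2.1.1
    · exact hz.1

theorem cover3 (n3 : ¬ ∃ c ∈ C3 D, (F3 i t c).card = 4 ∧ (∀ z ∈ F3 i t c, ∀ l, |z l| ≤ D) ∧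
    ∀ z ∈ F3 i t c, ph a0 z ∈ A) {a : Fin 7 → ℤ} {σ : Sym} {b : Fin 7 → ℤ} {τ : Sym}
    (ha : Act i t (Bx D i t a0 A) a σ) (hb : Act i t (Bx D i t a0 A) b τ) (hab : a ≠ b)
    (hab' : a ≠ b + emb i (ff (kap τ))) (ha'b : a + emb i (ff (kap σ)) ≠ b)
    (ha'b' : a + emb i (ff (kap σ)) ≠ b + emb i (ff (kap τ))) {y z : Fin 7 → ℤ}
    (hy : y ∈ TT i a σ) (hz : z ∈ TT i b τ) (hyz : near 40 y z) : False := by
  obtain ⟨m, n, k, q, hq, hcell, hyeq⟩ := TT_spec hy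
  obtain ⟨m', n', k', q', hq', hcell', hzeq⟩ := TT_spec hz
  clear hcell hcell'
  have e0 := lay_eq ha.2.2
  have e1 : a + emb i (fun j => b (i.succAbove j) - a (i.succAbove j)) = b := by
    funext l
    rcases Fin.eq_self_or_eq_succAbove i l with hl | ⟨j, hl⟩
    · rw [hl, Pi.add_apply, emb_same, add_zero, ha.2.2, hb.2.2]
    · rw [hl, Pi.add_apply, emb_succAbove]; ring
  have e : F3 i t (fun j => a (i.succAbove j), σ, τ,
      fun j => b (i.succAbove j) - a (i.succAbove j)) =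
      {a, a + emb i (ff (kap σ)), b, b + emb i (ff (kap τ))} := by
    simp only [F3, e0, e1]
  obtain ⟨-, -, -, c3, c4, c5⟩ := cv_apply m n k
  obtain ⟨-, -, -, f3, f4, f5⟩ := ff_apply (q : ℤ)
  obtain ⟨-, -, -, t3, t4, t5⟩ := tau_bounds σ
  obtain ⟨-, -, -, c3', c4', c5'⟩ := cv_apply m' n' k'
  obtain ⟨-, -, -, f3', f4', f5'⟩ := ff_apply (q' : ℤ)
  obtain ⟨-, -, -, t3', t4', t5'⟩ := tau_bounds τ
  have hj : ∀ j, b (i.succAbove j) - a (i.succAbove j) =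
      (cv m n k j + ff (q : ℤ) j - tau σ j) - (cv m' n' k' j + ff (q' : ℤ) j - tau τ j) -
        (y (i.succAbove j) - z (i.succAbove j)) := by
    intro j
    have h4 := congrFun hyeq (i.succAbove j)
    have h5 := congrFun hzeq (i.succAbove j)
    rw [Pi.add_apply, emb_succAbove, Pi.sub_apply, Pi.add_apply] at h4 h5
    omega
  have hD : ∀ j, |b (i.succAbove j) - a (i.succAbove j)| ≤ 2 * D := by
    intro j
    have h1 := hb.1.2.1 (i.succAbove j)
    have h2 := ha.1.2.1 (i.succAbove j)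
    rw [abs_le] at h1 h2 ⊢
    omega
  refine n3 ⟨(fun j => a (i.succAbove j), σ, τ,
      fun j => b (i.succAbove j) - a (i.succAbove j)), ?_, ?_, ?_, ?_⟩
  · simp only [C3, Finset.mem_product, mem_bx, Finset.mem_univ, true_and]
    refine ⟨fun j => ha.1.2.1 _, mem_bx3 (hD 0) (hD 1) (hD 2) ?_ ?_ ?_⟩
    · have h1 := hj 3
      have h2 := hyz (i.succAbove 3)
      rw [abs_le] at h2 ⊢
      omega
    · have h1 := hj 4
      have h2 := hyz (i.succAbove 4)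
      rw [abs_le] at h2 ⊢
      omega
    · have h1 := hj 5
      have h2 := hyz (i.succAbove 5)
      rw [abs_le] at h2 ⊢
      omega
  · rw [e]; exact card_four (ne_partner a σ) hab hab' ha'b ha'b' (ne_partner b τ)
  · rw [e]
    intro w hw
    simp only [Finset.mem_insert, Finset.mem_singleton] at hw
    rcases hw with hw | hw | hw | hw <;> rw [hw]
    · exact ha.1.2.1
    · exact ha.2.1.2.1
    · exact hb.1.2.1
    · exact hb.2.1.2.1
  · rw [e]
    intro w hw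
    simp only [Finset.mem_insert, Finset.mem_singleton] at hw
    rcases hw with hw | hw | hw | hw <;> rw [hw]
    · exact ha.1.1
    · exact ha.2.1.1
    · exact hb.1.1
    · exact hb.2.1.1

theorem bad_cover (hbad : ¬ Good i t (Bx D i t a0 A)) :
    (∃ c ∈ C1 D 40, (F1 c).card = 3 ∧ (∀ z ∈ F1 c, ∀ l, |z l| ≤ D) ∧ ∀ z ∈ F1 c, ph a0 z ∈ A) ∨
    (∃ c ∈ C2 D 40, (F2 i t c).card = 3 ∧ (∀ z ∈ F2 i t c, ∀ l, |z l| ≤ D) ∧
      ∀ z ∈ F2 i t c, ph a0 z ∈ A) ∨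
    (∃ c ∈ C3 D, (F3 i t c).card = 4 ∧ (∀ z ∈ F3 i t c, ∀ l, |z l| ≤ D) ∧
      ∀ z ∈ F3 i t c, ph a0 z ∈ A) := by
  by_contra hno
  rw [not_or, not_or] at hno
  obtain ⟨n1, n2, n3⟩ := hno
  apply hbad
  constructor
  · intro x hx y hy z hz hxy hxz hyz nxy nxz nyz
    exact cover1 n1 hx hy hz hxy hxz hyz nxy nxz
  · intro a σ ha z hz hza hza' y hy hzy
    exact cover2 n2 ha hz hza hza' hy hzy
  · intro a σ b τ ha hb hab hab' ha'b ha'b' y hy z hz hyz
    exact cover3 n3 ha hb hab hab' ha'b ha'b' hy hz hyz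

end cover

variable [NeZero N] {p : ℝ}

/-- probability of a bad slab -/
theorem Pr_bad_le {D : ℕ} (hD : 2 * D < N) (h0 : 0 ≤ p) (h1 : p ≤ 1) (i : Fin 7) (t : ℤ)
    (a : Fin 7 → ZMod N) :
    Pr p (fun A : Finset (Fin 7 → ZMod N) => ¬ Good i t (Bx D i t a A)) ≤
      (C1 D 40).card * p ^ 3 + ((C2 D 40).card * p ^ 3 + (C3 D).card * p ^ 4) := by
  refine (Pr_mono h0 h1 (fun A hA => bad_cover hA)).trans ?_
  refine (Pr_or_le h0 h1 _ _).trans (add_le_add (Pr_config hD h0 h1 a (C1 D 40) F1 3) ?_)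
  exact (Pr_or_le h0 h1 _ _).trans (add_le_add (Pr_config hD h0 h1 a (C2 D 40) (F2 i t) 3)
    (Pr_config hD h0 h1 a (C3 D) (F3 i t) 4))

/-- the sites of a slab -/
noncomputable def slabS (D : ℕ) (i : Fin 7) (t : ℤ) (a : Fin 7 → ZMod N) :
    Finset (Fin 7 → ZMod N) :=
  ((bx 7 D).filter fun z => t ≤ z i ∧ z i < t + 80).image (ph a)

omit [NeZero N] in
theorem bad_dep (D : ℕ) (i : Fin 7) (t : ℤ) (a : Fin 7 → ZMod N) :
    Dep (fun A : Finset (Fin 7 → ZMod N) => ¬ Good i t (Bx D i t a A)) (slabS D i t a) := by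
  intro A B hAB
  have e : Bx D i t a A = Bx D i t a B := by
    ext z
    constructor
    · rintro ⟨h1, h2, h3⟩
      have hm : ph a z ∈ A ∩ slabS D i t a := by
        rw [Finset.mem_inter]
        refine ⟨h1, ?_⟩
        rw [slabS, Finset.mem_image]
        exact ⟨z, by rw [Finset.mem_filter, mem_bx]; exact ⟨h2, h3⟩, rfl⟩
      rw [hAB, Finset.mem_inter] at hm
      exact ⟨hm.1, h2, h3⟩
    · rintro ⟨h1, h2, h3⟩
      have hm : ph a z ∈ B ∩ slabS D i t a := by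
        rw [Finset.mem_inter]
        refine ⟨h1, ?_⟩
        rw [slabS, Finset.mem_image]
        exact ⟨z, by rw [Finset.mem_filter, mem_bx]; exact ⟨h2, h3⟩, rfl⟩
      rw [← hAB, Finset.mem_inter] at hm
      exact ⟨hm.1, h2, h3⟩
  change ¬ Good i t (Bx D i t a A) ↔ ¬ Good i t (Bx D i t a B)
  rw [e]

omit [NeZero N] in
theorem slabS_disj {D : ℕ} (hD : 2 * D < N) (i : Fin 7) (a : Fin 7 → ZMod N) {j j' : ℕ}
    (hj : j ≠ j') :
    Disjoint (slabS D i (1 + 80 * (j : ℤ)) a) (slabS D i (1 + 80 * (j' : ℤ)) a) := by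
  rw [Finset.disjoint_left]
  intro u hu hu'
  rw [slabS, Finset.mem_image] at hu hu'
  obtain ⟨z, hz, rfl⟩ := hu
  obtain ⟨z', hz', he⟩ := hu'
  rw [Finset.mem_filter, mem_bx] at hz hz'
  have := ph_inj hD hz'.1 hz.1 he
  subst this
  omega

/-- the union bound over the base points -/
theorem Pr_perc_le (k : ℕ) (hD : 2 * (160 * k + 42) < N) (h0 : 0 ≤ p) (h1 : p ≤ 1) {η : ℝ}
    (hη : (C1 (160 * k + 42) 40).card * p ^ 3 + ((C2 (160 * k + 42) 40).card * p ^ 3 +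
      (C3 (160 * k + 42)).card * p ^ 4) ≤ η) :
    Pr p (fun A : Finset (Fin 7 → ZMod N) => Perc (lift A)) ≤ 7 * (N : ℝ) ^ 7 * η ^ k := by
  classical
  set D := 160 * k + 42 with hDdef
  have step1 : ∀ A : Finset (Fin 7 → ZMod N), Perc (lift A) →
      ∃ c ∈ (Finset.univ : Finset ((Fin 7 → ZMod N) × Fin 7)), ∀ j ∈ Finset.range k,
        ¬ Good c.2 (1 + 80 * (j : ℤ)) (Bx D c.2 (1 + 80 * (j : ℤ)) c.1 A) := by
    intro A hA
    obtain ⟨a, i, h⟩ := perc_bad hA k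
    refine ⟨(a, i), Finset.mem_univ _, fun j hj => ?_⟩
    exact h j (Finset.mem_range.1 hj)
  refine (Pr_mono h0 h1 step1).trans ((Pr_exists_le h0 h1 _ _).trans ?_)
  have step2 : ∀ c ∈ (Finset.univ : Finset ((Fin 7 → ZMod N) × Fin 7)),
      Pr p (fun A : Finset (Fin 7 → ZMod N) => ∀ j ∈ Finset.range k,
        ¬ Good c.2 (1 + 80 * (j : ℤ)) (Bx D c.2 (1 + 80 * (j : ℤ)) c.1 A)) ≤ η ^ k := by
    intro c _
    rw [Pr_forall (Finset.range k)
      (fun (j : ℕ) (A : Finset (Fin 7 → ZMod N)) =>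
        ¬ Good c.2 (1 + 80 * (j : ℤ)) (Bx D c.2 (1 + 80 * (j : ℤ)) c.1 A))
      (fun j => slabS D c.2 (1 + 80 * (j : ℤ)) c.1) (fun j _ => bad_dep D c.2 _ c.1)
      (fun j _ j' _ hjj => slabS_disj hD c.2 c.1 hjj)]
    calc _ ≤ ∏ _j ∈ Finset.range k, η := by
          apply Finset.prod_le_prod
          · intro j _
            exact Pr_nonneg h0 h1 _
          · intro j _
            exact (Pr_bad_le hD h0 h1 c.2 _ c.1).trans hη
      _ = η ^ k := by rw [Finset.prod_const, Finset.card_range]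
  calc _ ≤ ∑ _c ∈ (Finset.univ : Finset ((Fin 7 → ZMod N) × Fin 7)), η ^ k :=
        Finset.sum_le_sum step2
    _ = 7 * (N : ℝ) ^ 7 * η ^ k := by
        rw [Finset.sum_const, nsmul_eq_mul, Finset.card_univ, Fintype.card_prod, Fintype.card_fun,
          ZMod.card, Fintype.card_fin]
        push_cast
        ring

end Pool.Agent.Boot
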