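import Mathlib
import Pool.Agent.Boot.Defs

/-!
# The update family is valid and critical
-/

set_option autoImplicit false

open Set

namespace Pool.Agent.Boot

theorem sg_ne (b : Bool) : sg b ≠ 0 := by cases b <;> simp [sg]

theorem P0_nonempty (j : Fin 6) (t : ℤ) : (P0 j t).Nonempty := ⟨_, Finset.mem_insert_self _ _⟩

theorem P0_ne {j : Fin 6} {t : ℤ} (ht : t ≠ 0) {v : Fin 6 → ℤ} (hv : v ∈ P0 j t) : v ≠ 0 := by
  simp only [P0, Finset.mem_insert, Finset.mem_singleton] at hv
  rcases hv with rfl | rfl | rfl <;> rw [Ne, Pi.single_eq_zero_iff] <;> omega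

theorem Pats_nonempty {P : Finset (Fin 6 → ℤ)} (hP : P ∈ Pats) : P.Nonempty := by
  rw [mem_Pats] at hP
  rcases hP with ⟨r, a, o, -, rfl | rfl⟩ | ⟨a, b, o, -, rfl | rfl⟩ | ⟨z, -, rfl⟩ <;>
    exact ⟨_, Finset.mem_insert_self _ _⟩

theorem Pats_ne {P : Finset (Fin 6 → ℤ)} (hP : P ∈ Pats) {v : Fin 6 → ℤ} (hv : v ∈ P) :
    v ≠ 0 := by
  have key1 : ∀ (r : Fin 3) (c : ℤ), ff c - st r ≠ 0 := by
    intro r c h
    fin_cases r
    · have := congrFun h 0; simp [ff, st] at this
    · have := congrFun h 1; simp [ff, st] at this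
    · have := congrFun h 2; simp [ff, st] at this
  rw [mem_Pats] at hP
  rcases hP with ⟨r, a, o, -, rfl | rfl⟩ | ⟨a, b, o, -, rfl | rfl⟩ | ⟨z, hz, rfl⟩
  · simp only [P1, Finset.mem_insert, Finset.mem_singleton] at hv
    rcases hv with rfl | rfl <;> exact key1 _ _
  · simp only [P1, Finset.mem_insert, Finset.mem_singleton] at hv
    rcases hv with rfl | rfl <;> exact key1 _ _
  · simp only [P2, Finset.mem_insert, Finset.mem_singleton] at hv
    rcases hv with rfl | rfl | rfl | rfl <;> exact key1 _ _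
  · simp only [P2, Finset.mem_insert, Finset.mem_singleton] at hv
    rcases hv with rfl | rfl | rfl | rfl <;> exact key1 _ _
  · simp only [P3, Finset.mem_insert, Finset.mem_singleton] at hv
    rcases hv with rfl | rfl | rfl
    · intro h
      apply hz
      funext j
      have := congrFun h j
      simp only [Pi.neg_apply, Pi.zero_apply] at this
      apply Fin.ext
      show ((z j : ℕ)) = 0
      omega
    · intro h
      have := congrFun h 3
      simp [ff] at this
      have h2 := (z 3).isLt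
      omega
    · intro h
      have := congrFun h 3
      simp [ff] at this
      have h2 := (z 3).isLt
      omega

theorem mk_ne {i : Fin 7} {s : ℤ} {P : Finset (Fin 6 → ℤ)} (hs : s ≠ 0)
    (hP : ∀ v ∈ P, v ≠ 0) : (0 : Fin 7 → ℤ) ∉ mk i s P := by
  intro h
  rw [mem_mk] at h
  rcases h with h | h | h | ⟨v, hv, h⟩
  · have := congrFun h i; simp at this; omega
  · have := congrFun h i; simp at this; omega
  · have := congrFun h i; simp at this; omega
  · apply hP v hv
    funext j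
    have := congrFun h (i.succAbove j)
    rw [Fin.insertNth_apply_succAbove] at this
    exact this.symm

theorem U_valid : ∀ X ∈ U, X.Nonempty ∧ (0 : Fin 7 → ℤ) ∉ X := by
  intro X hX
  rw [mem_U] at hX
  rcases hX with ⟨i, P, hP, rfl⟩ | ⟨i, j, s, t, rfl⟩
  · exact ⟨⟨_, mem_mk.2 (Or.inl rfl)⟩, mk_ne one_ne_zero fun v hv => Pats_ne hP hv⟩
  · exact ⟨⟨_, mem_mk.2 (Or.inl rfl)⟩, mk_ne (sg_ne s) fun v hv => P0_ne (sg_ne t) hv⟩

theorem single_dot (k : Fin 7) (c : ℤ) (u : Fin 7 → ℝ) :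
    ∑ i, (((Pi.single k c : Fin 7 → ℤ) i : ℤ) : ℝ) * u i = (c : ℝ) * u k := by
  rw [Finset.sum_eq_single k]
  · simp
  · intro b _ hb
    simp [Pi.single_eq_of_ne hb]
  · intro h; exact absurd (Finset.mem_univ k) h

theorem insertNth_single (i : Fin 7) (j : Fin 6) (c : ℤ) :
    (i.insertNth (0 : ℤ) (Pi.single j c : Fin 6 → ℤ) : Fin 7 → ℤ) =
      Pi.single (i.succAbove j) c := by
  funext k
  rcases Fin.eq_self_or_eq_succAbove i k with rfl | ⟨l, rfl⟩
  · rw [Fin.insertNth_apply_same, Pi.single_eq_of_ne (Fin.succAbove_ne _ _).symm]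
  · rw [Fin.insertNth_apply_succAbove]
    by_cases h : l = j
    · subst h; simp
    · rw [Pi.single_eq_of_ne h, Pi.single_eq_of_ne (fun h' => h (Fin.succAbove_right_injective h'))]

/-- sign with value in the booleans -/
theorem exists_sg {x : ℝ} (hx : x ≠ 0) : ∃ b : Bool, 0 < ((sg b : ℤ) : ℝ) * x := by
  rcases lt_or_gt_of_ne hx with h | h
  · exact ⟨false, by simp [sg]; exact h⟩
  · exact ⟨true, by simp [sg]; exact h⟩

theorem unstable {u : Fin 7 → ℝ} {i k : Fin 7} (hik : k ≠ i) (hi : u i ≠ 0) (hk : u k ≠ 0) :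
    ∃ X ∈ U, ∀ x ∈ X, ∑ l, (x l : ℝ) * u l < 0 := by
  obtain ⟨j, rfl⟩ := Fin.exists_succAbove_eq hik
  obtain ⟨s, hs⟩ := exists_sg hi
  obtain ⟨t, ht⟩ := exists_sg hk
  refine ⟨mk i (sg s) (P0 j (sg t)), mem_U.2 (Or.inr ⟨i, j, s, t, rfl⟩), ?_⟩
  intro x hx
  rw [mem_mk] at hx
  rcases hx with rfl | rfl | rfl | ⟨v, hv, rfl⟩
  · rw [single_dot]; push_cast; linarith
  · rw [single_dot]; push_cast; linarith
  · rw [single_dot]; push_cast; linarith
  · simp only [P0, Finset.mem_insert, Finset.mem_singleton] at hv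
    rcases hv with rfl | rfl | rfl
    · rw [insertNth_single, single_dot]; push_cast; linarith
    · rw [insertNth_single, single_dot]; push_cast; linarith
    · rw [insertNth_single, single_dot]; push_cast; linarith

theorem exists_zero_coord {X : Finset (Fin 7 → ℤ)} (hX : X ∈ U) (k : Fin 7) :
    ∃ x ∈ X, x k = 0 := by
  have main : ∀ (i : Fin 7) (s : ℤ) (P : Finset (Fin 6 → ℤ)), P.Nonempty →
      ∃ x ∈ mk i s P, x k = 0 := by
    intro i s P ⟨v, hv⟩
    by_cases h : k = i
    · subst h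
      exact ⟨_, mem_mk.2 (Or.inr (Or.inr (Or.inr ⟨v, hv, rfl⟩))), Fin.insertNth_apply_same _ _ _⟩
    · exact ⟨_, mem_mk.2 (Or.inl rfl), Pi.single_eq_of_ne h _⟩
  rw [mem_U] at hX
  rcases hX with ⟨i, P, hP, rfl⟩ | ⟨i, j, s, t, rfl⟩
  · exact main i 1 P (Pats_nonempty hP)
  · exact main i _ _ (P0_nonempty _ _)

theorem U_crit :
    (∃ v : Fin 7 → ℝ, v ≠ 0 ∧ MeasureTheory.Measure.hausdorffMeasure (((7 : ℕ) : ℝ) - 1)
        {u : Fin 7 → ℝ | ∑ i, u i ^ 2 = 1 ∧ (∀ X ∈ U, ∃ x ∈ X, 0 ≤ ∑ i, (x i : ℝ) * u i) ∧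
          0 ≤ ∑ i, u i * v i} = 0) ∧
    (∀ v : Fin 7 → ℝ, v ≠ 0 → ∃ u : Fin 7 → ℝ, ∑ i, u i ^ 2 = 1 ∧
        (∀ X ∈ U, ∃ x ∈ X, 0 ≤ ∑ i, (x i : ℝ) * u i) ∧ 0 < ∑ i, u i * v i) := by
  constructor
  · refine ⟨Pi.single 0 1, ?_, ?_⟩
    · intro h
      have := congrFun h 0
      simp at this
    · have hfin : (Set.range (fun t : Fin 7 × Bool => (Pi.single t.1 ((sg t.2 : ℤ) : ℝ) :
          Fin 7 → ℝ))).Finite := Set.finite_range _
      have hna := MeasureTheory.Measure.nullSingletonClass_hausdorff (Fin 7 → ℝ)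
        (d := ((7 : ℕ) : ℝ) - 1) (by norm_num)
      refine MeasureTheory.measure_mono_null ?_ (@Set.Finite.measure_zero _ _ _ hfin _ hna)
      rintro u ⟨hu, hX, -⟩
      have hne : ∃ i, u i ≠ 0 := by
        by_contra hcon
        push Not at hcon
        simp [hcon] at hu
      obtain ⟨i, hi⟩ := hne
      have h0 : ∀ k, k ≠ i → u k = 0 := by
        intro k hk
        by_contra hk0
        obtain ⟨X, hXU, hneg⟩ := unstable hk hi hk0
        obtain ⟨x, hx, hx0⟩ := hX X hXU
        exact absurd (hneg x hx) (not_lt.2 hx0)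
      have hsq : u i ^ 2 = 1 := by
        rw [← hu, Finset.sum_eq_single i]
        · intro b _ hb; rw [h0 b hb]; norm_num
        · intro h; exact absurd (Finset.mem_univ i) h
      have hval : u i = 1 ∨ u i = -1 := by
        rcases mul_eq_zero.1 (show (u i - 1) * (u i + 1) = 0 by linarith [hsq, sq (u i)]) with h | h
        · left; linarith
        · right; linarith
      have hform : u = Pi.single i (u i) := by
        funext k
        by_cases hk : k = i
        · subst hk; simp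
        · rw [h0 k hk, Pi.single_eq_of_ne hk]
      rcases hval with h | h
      · exact ⟨(i, true), by rw [hform, h]; simp [sg]⟩
      · exact ⟨(i, false), by rw [hform, h]; simp [sg]⟩
  · intro v hv
    have hne : ∃ i, v i ≠ 0 := by
      by_contra hcon
      push Not at hcon
      exact hv (funext hcon)
    obtain ⟨k, hk⟩ := hne
    obtain ⟨b, hb⟩ := exists_sg hk
    refine ⟨Pi.single k ((sg b : ℤ) : ℝ), ?_, ?_, ?_⟩
    · rw [Finset.sum_eq_single k]
      · cases b <;> simp [sg]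
      · intro c _ hc; rw [Pi.single_eq_of_ne hc]; norm_num
      · intro h; exact absurd (Finset.mem_univ k) h
    · intro X hX
      obtain ⟨x, hx, hx0⟩ := exists_zero_coord hX k
      refine ⟨x, hx, le_of_eq ?_⟩
      rw [Finset.sum_eq_single k]
      · rw [hx0]; simp
      · intro c _ hc; rw [Pi.single_eq_of_ne hc]; simp
      · intro h; exact absurd (Finset.mem_univ k) h
    · rw [Finset.sum_eq_single k]
      · simpa using hb
      · intro c _ hc; rw [Pi.single_eq_of_ne hc]; simp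
      · intro h; exact absurd (Finset.mem_univ k) h

end Pool.Agent.Boot
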