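import Mathlib
import Pool.Agent.Boot.Defs
import Pool.Agent.Boot.Crit
import Pool.Agent.Boot.Perc
import Pool.Agent.Boot.Prob

/-!
# Assembly (module M10)
-/

set_option autoImplicit false

open Set Filter

namespace Pool.Agent.Boot

/-- the critical probability on the torus of side `n + 1` -/
noncomputable def pc (n : ℕ) : ℝ :=
  sInf {p : ℝ | 0 ≤ p ∧ p ≤ 1 ∧ (1 / 2 : ℝ) ≤
    Pr p (fun A : Finset (Fin 7 → ZMod (n + 1)) => Perc (lift A))}

/-- `logb 2 3` is irrational -/
theorem logb_ne_rat (q : ℚ) : Real.logb 2 3 ≠ (q : ℝ) := by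
  intro h
  have h3 : (2 : ℝ) ^ (q : ℝ) = 3 := by
    rw [← h, Real.rpow_logb (by norm_num) (by norm_num) (by norm_num)]
  have hpos : (0 : ℝ) < Real.logb 2 3 := Real.logb_pos (by norm_num) (by norm_num)
  rw [h] at hpos
  have hq : 0 < q := by exact_mod_cast hpos
  have hnum : 0 < q.num := Rat.num_pos.2 hq
  obtain ⟨a, ha⟩ : ∃ a : ℕ, q.num = a := ⟨q.num.toNat, by omega⟩
  have ha0 : a ≠ 0 := by rintro rfl; omega
  have hden : (q.den : ℝ) ≠ 0 := by exact_mod_cast q.den_nz
  have h4 : ((2 : ℝ) ^ (q : ℝ)) ^ q.den = 3 ^ q.den := by rw [h3]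
  rw [← Real.rpow_natCast, ← Real.rpow_mul (by norm_num)] at h4
  have h5 : (q : ℝ) * (q.den : ℝ) = (a : ℝ) := by
    have h6 : (q : ℝ) * (q.den : ℝ) = ((q * q.den : ℚ) : ℝ) := by push_cast; ring
    rw [h6, Rat.mul_den_eq_num, ha]
    simp
  rw [h5, Real.rpow_natCast] at h4
  have h7 : (2 : ℕ) ^ a = 3 ^ q.den := by exact_mod_cast h4
  have h8 : 2 ∣ 3 ^ q.den := by
    rw [← h7]
    exact dvd_pow_self 2 ha0
  have h9 := Nat.Prime.dvd_of_dvd_pow Nat.prime_two h8
  omega

theorem alph_pos : 0 < alph := by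
  unfold alph
  have : (0 : ℝ) < Real.logb 2 3 := Real.logb_pos (by norm_num) (by norm_num)
  positivity

theorem alph_ne_rat (q : ℚ) : alph ≠ (q : ℝ) := by
  intro h
  apply logb_ne_rat (3 * q - 7)
  unfold alph at h
  push_cast
  linarith

theorem tendsto_L : Tendsto (fun n : ℕ => Real.log ((n : ℝ) + 1)) atTop atTop :=
  Real.tendsto_log_atTop.comp (tendsto_natCast_atTop_atTop.atTop_add tendsto_const_nhds)

section

variable
  (hlow : ∀ ε : ℝ, 0 < ε → ∀ᶠ n : ℕ in Filter.atTop, ∀ p : ℝ, 0 ≤ p →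
    p ≤ Real.log ((n : ℝ) + 1) ^ (-((1 + ε) * alph)) →
    Pr p (fun A : Finset (Fin 7 → ZMod (n + 1)) => Perc (lift A)) < 1 / 2)
  (hupp : ∀ ε : ℝ, 0 < ε → ε < 1 / 100 → ∀ᶠ n : ℕ in Filter.atTop,
    1 / 2 ≤ Pr (Real.log ((n : ℝ) + 1) ^ (-((1 - ε) * alph)))
      (fun A : Finset (Fin 7 → ZMod (n + 1)) => Perc (lift A)))

include hlow hupp

/-- bounds for the logarithm of the critical probability -/
theorem pc_bounds {ε : ℝ} (hε : 0 < ε) (hε' : ε < 1 / 100) : ∀ᶠ n : ℕ in Filter.atTop,
    (1 - ε) * alph * Real.log (Real.log ((n : ℝ) + 1)) ≤ - Real.log (pc n) ∧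
    - Real.log (pc n) ≤ (1 + ε) * alph * Real.log (Real.log ((n : ℝ) + 1)) := by
  filter_upwards [hlow ε hε, hupp ε hε hε', tendsto_L.eventually_ge_atTop 1] with n h1 h2 h3
  set L := Real.log ((n : ℝ) + 1) with hL
  have hL0 : 0 < L := by linarith
  have ha := alph_pos
  have hmem : L ^ (-((1 - ε) * alph)) ∈ {p : ℝ | 0 ≤ p ∧ p ≤ 1 ∧ (1 / 2 : ℝ) ≤
      Pr p (fun A : Finset (Fin 7 → ZMod (n + 1)) => Perc (lift A))} := by
    refine ⟨by positivity, ?_, h2⟩
    apply Real.rpow_le_one_of_one_le_of_nonpos h3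
    have : 0 < (1 - ε) * alph := mul_pos (by linarith) ha
    linarith
  have hub : pc n ≤ L ^ (-((1 - ε) * alph)) := by
    apply csInf_le _ hmem
    exact ⟨0, fun p hp => hp.1⟩
  have hlb : L ^ (-((1 + ε) * alph)) ≤ pc n := by
    apply le_csInf ⟨_, hmem⟩
    intro p hp
    by_contra hcon
    push Not at hcon
    have := h1 p hp.1 hcon.le
    linarith [hp.2.2]
  have hpos1 : 0 < L ^ (-((1 + ε) * alph)) := Real.rpow_pos_of_pos hL0 _
  have hpos : 0 < pc n := lt_of_lt_of_le hpos1 hlb
  have h4 := Real.log_le_log hpos hub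
  have h5 := Real.log_le_log hpos1 hlb
  rw [Real.log_rpow hL0] at h4 h5
  constructor
  · linarith
  · linarith

omit hlow hupp in
theorem tendsto_iter (r : ℕ) (hr : 1 ≤ r) :
    Tendsto (fun n : ℕ => Real.log^[r] ((n : ℝ) + 1)) atTop atTop := by
  induction r, hr using Nat.le_induction with
  | base => simpa using tendsto_L
  | succ r hr ih =>
    have : (fun n : ℕ => Real.log^[r + 1] ((n : ℝ) + 1)) =
        Real.log ∘ (fun n : ℕ => Real.log^[r] ((n : ℝ) + 1)) := by
      funext n
      rw [Function.iterate_succ_apply']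
      rfl
    rw [this]
    exact Real.tendsto_log_atTop.comp ih

omit hlow hupp in
theorem iter_le (r : ℕ) (hr : 2 ≤ r) :
    ∀ᶠ n : ℕ in atTop, Real.log^[r] ((n : ℝ) + 1) ≤ Real.log (Real.log ((n : ℝ) + 1)) := by
  induction r, hr using Nat.le_induction with
  | base =>
    filter_upwards with n
    simp
  | succ r hr ih =>
    filter_upwards [ih, (tendsto_iter r (by omega)).eventually_gt_atTop 0] with n h1 h2
    rw [Function.iterate_succ_apply']
    have := Real.log_le_sub_one_of_pos h2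
    linarith

/-- the ratio does not converge to a rational number -/
theorem not_tendsto_ratio (r : ℕ) (hr : 1 ≤ r) (q : ℚ) :
    ¬ Tendsto (fun n : ℕ => Real.log (pc n) / Real.log (1 / Real.log^[r] ((n : ℝ) + 1)))
      atTop (nhds (q : ℝ)) := by
  intro hT
  have hLL : Tendsto (fun n : ℕ => Real.log (Real.log ((n : ℝ) + 1))) atTop atTop :=
    Real.tendsto_log_atTop.comp tendsto_L
  have ha := alph_pos
  rcases Nat.lt_or_ge r 2 with h | h
  · -- r = 1
    obtain rfl : r = 1 := by omega
    have key : ∀ ε : ℝ, 0 < ε → ε < 1 / 100 →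
        (1 - ε) * alph ≤ (q : ℝ) ∧ (q : ℝ) ≤ (1 + ε) * alph := by
      intro ε hε hε'
      have hb := pc_bounds hlow hupp hε hε'
      have hev : ∀ᶠ n : ℕ in atTop, (1 - ε) * alph ≤
          Real.log (pc n) / Real.log (1 / Real.log^[1] ((n : ℝ) + 1)) ∧
          Real.log (pc n) / Real.log (1 / Real.log^[1] ((n : ℝ) + 1)) ≤ (1 + ε) * alph := by
        filter_upwards [hb, hLL.eventually_gt_atTop 0] with n h1 h2
        have h3 : Real.log (pc n) / Real.log (1 / Real.log^[1] ((n : ℝ) + 1)) =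
            (- Real.log (pc n)) / Real.log (Real.log ((n : ℝ) + 1)) := by
          rw [Function.iterate_one, one_div, Real.log_inv, div_neg, neg_div]
        rw [h3, le_div_iff₀ h2, div_le_iff₀ h2]
        exact h1
      constructor
      · exact ge_of_tendsto hT (hev.mono fun n hn => hn.1)
      · exact le_of_tendsto hT (hev.mono fun n hn => hn.2)
    apply alph_ne_rat q
    apply le_antisymm
    · by_contra hcon
      push Not at hcon
      -- alph > q
      have hd : 0 < alph - q := by linarith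
      obtain ⟨ε, hε1, hε2, hε3⟩ : ∃ ε : ℝ, 0 < ε ∧ ε < 1 / 100 ∧ ε * alph < alph - q := by
        refine ⟨min (1 / 200) ((alph - q) / (2 * alph)), ?_, ?_, ?_⟩
        · apply lt_min (by norm_num)
          positivity
        · exact lt_of_le_of_lt (min_le_left _ _) (by norm_num)
        · calc min (1 / 200) ((alph - q) / (2 * alph)) * alph
              ≤ ((alph - q) / (2 * alph)) * alph :=
                mul_le_mul_of_nonneg_right (min_le_right _ _) ha.le
            _ = (alph - q) / 2 := by field_simp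
            _ < alph - q := by linarith
      have := (key ε hε1 hε2).1
      nlinarith
    · by_contra hcon
      push Not at hcon
      have hd : 0 < (q : ℝ) - alph := by linarith
      obtain ⟨ε, hε1, hε2, hε3⟩ : ∃ ε : ℝ, 0 < ε ∧ ε < 1 / 100 ∧ ε * alph < q - alph := by
        refine ⟨min (1 / 200) ((q - alph) / (2 * alph)), ?_, ?_, ?_⟩
        · apply lt_min (by norm_num)
          positivity
        · exact lt_of_le_of_lt (min_le_left _ _) (by norm_num)
        · calc min (1 / 200) ((q - alph) / (2 * alph)) * alph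
              ≤ ((q - alph) / (2 * alph)) * alph :=
                mul_le_mul_of_nonneg_right (min_le_right _ _) ha.le
            _ = (q - alph) / 2 := by field_simp
            _ < q - alph := by linarith
      have := (key ε hε1 hε2).2
      nlinarith
  · -- r ≥ 2
    apply not_tendsto_nhds_of_tendsto_atTop ?_ _ hT
    have hb := pc_bounds hlow hupp (ε := 1 / 200) (by norm_num) (by norm_num)
    -- x / log x tends to infinity
    have hx : Tendsto (fun x : ℝ => (1 - 1 / 200) * alph * (x / Real.log x)) atTop atTop := by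
      apply Tendsto.const_mul_atTop (by nlinarith)
      have h1 : Tendsto (fun x : ℝ => Real.log x / x) atTop (nhdsWithin 0 (Set.Ioi 0)) := by
        apply tendsto_nhdsWithin_of_tendsto_nhds_of_eventually_within
        · have := Real.tendsto_pow_log_div_mul_add_atTop 1 0 1 one_ne_zero
          simpa using this
        · filter_upwards [eventually_gt_atTop 1] with x hx
          exact div_pos (Real.log_pos hx) (by linarith)
      have h2 := h1.inv_tendsto_nhdsGT_zero
      refine h2.congr fun x => ?_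
      simp
    have hx' := hx.comp hLL
    apply tendsto_atTop_mono' atTop ?_ hx'
    filter_upwards [hb, iter_le r h, (tendsto_iter r hr).eventually_gt_atTop 1,
      hLL.eventually_gt_atTop 1] with n h1 h2 h3 h4
    have h5 : Real.log (pc n) / Real.log (1 / Real.log^[r] ((n : ℝ) + 1)) =
        (- Real.log (pc n)) / Real.log (Real.log^[r] ((n : ℝ) + 1)) := by
      rw [one_div, Real.log_inv, div_neg, neg_div]
    rw [h5]
    show (1 - 1 / 200) * alph * (Real.log (Real.log ((n : ℝ) + 1)) /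
      Real.log (Real.log (Real.log ((n : ℝ) + 1)))) ≤ _
    have h6 : 0 < Real.log (Real.log^[r] ((n : ℝ) + 1)) := Real.log_pos h3
    have h7 : Real.log (Real.log^[r] ((n : ℝ) + 1)) ≤
        Real.log (Real.log (Real.log ((n : ℝ) + 1))) := Real.log_le_log (by linarith) h2
    calc (1 - 1 / 200) * alph * (Real.log (Real.log ((n : ℝ) + 1)) /
          Real.log (Real.log (Real.log ((n : ℝ) + 1))))
        = ((1 - 1 / 200) * alph * Real.log (Real.log ((n : ℝ) + 1))) /
          Real.log (Real.log (Real.log ((n : ℝ) + 1))) := by ring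
      _ ≤ (- Real.log (pc n)) / Real.log (Real.log (Real.log ((n : ℝ) + 1))) :=
          div_le_div_of_nonneg_right h1.1 (h6.le.trans h7)
      _ ≤ (- Real.log (pc n)) / Real.log (Real.log^[r] ((n : ℝ) + 1)) := by
          apply div_le_div_of_nonneg_left _ h6 h7
          have : 0 ≤ (1 - 1 / 200) * alph * Real.log (Real.log ((n : ℝ) + 1)) := by
            have h8 : (0 : ℝ) ≤ (1 - 1 / 200) * alph := by nlinarith
            nlinarith
          linarith [h1.1]

omit hlow hupp in
open Classical in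
/-- the filtered sum of the frozen statement is the probability of percolation -/
theorem sum_eq_Pr (n : ℕ) (p : ℝ) :
    Finset.sum
      (Finset.filter
        (fun A : Finset (Fin 7 → ZMod (n + 1)) =>
          ∀ T : Set (Fin 7 → ZMod (n + 1)), ((A : Set (Fin 7 → ZMod (n + 1))) ⊆ T) →
            (∀ y : Fin 7 → ZMod (n + 1),
              (∃ X ∈ U, ∀ x ∈ X,
                y + (fun i : Fin 7 => ((x i : ℤ) : ZMod (n + 1))) ∈ T) → y ∈ T) →
            T = Set.univ)
        (Finset.univ : Finset (Finset (Fin 7 → ZMod (n + 1)))))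
      (fun A : Finset (Fin 7 → ZMod (n + 1)) =>
        p ^ (Finset.card A) *
          (1 - p) ^ (Fintype.card (Fin 7 → ZMod (n + 1)) - Finset.card A)) =
    Pr p (fun A : Finset (Fin 7 → ZMod (n + 1)) => Perc (lift A)) := by
  unfold Pr
  apply Finset.sum_congr
  · ext A
    rw [Finset.mem_filter, Finset.mem_filter, perc_iff]
  · intro A _
    rfl

open Classical in
/-- the frozen statement S19636, from the two probability estimates -/
theorem final :
    ¬ (∀ d : ℕ, 2 ≤ d → ∀ U : Finset (Finset (Fin d → ℤ)),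
   (∀ X ∈ U, X.Nonempty ∧ (0 : Fin d → ℤ) ∉ X) →
   ((∃ v : Fin d → ℝ, v ≠ 0 ∧ MeasureTheory.Measure.hausdorffMeasure ((d : ℝ) - 1)
        {u : Fin d → ℝ | ∑ i, u i ^ 2 = 1 ∧ (∀ X ∈ U, ∃ x ∈ X, 0 ≤ ∑ i, (x i : ℝ) * u i) ∧
          0 ≤ ∑ i, u i * v i} = 0) ∧
    (∀ v : Fin d → ℝ, v ≠ 0 → ∃ u : Fin d → ℝ, ∑ i, u i ^ 2 = 1 ∧
        (∀ X ∈ U, ∃ x ∈ X, 0 ≤ ∑ i, (x i : ℝ) * u i) ∧ 0 < ∑ i, u i * v i)) →
   ∃ r : ℕ, 1 ≤ r ∧ r ≤ d - 1 ∧ ∃ α : ℚ,
    Filter.Tendsto (fun n : ℕ =>
      Real.log (sInf {p : ℝ | 0 ≤ p ∧ p ≤ 1 ∧ (1 / 2 : ℝ) ≤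
        Finset.sum
          (Finset.filter
            (fun A : Finset (Fin d → ZMod (n + 1)) =>
              ∀ T : Set (Fin d → ZMod (n + 1)), ((A : Set (Fin d → ZMod (n + 1))) ⊆ T) →
                (∀ y : Fin d → ZMod (n + 1),
                  (∃ X ∈ U, ∀ x ∈ X,
                    y + (fun i : Fin d => ((x i : ℤ) : ZMod (n + 1))) ∈ T) → y ∈ T) →
                T = Set.univ)
            (Finset.univ : Finset (Finset (Fin d → ZMod (n + 1)))))
          (fun A : Finset (Fin d → ZMod (n + 1)) =>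
            p ^ (Finset.card A) *
              (1 - p) ^ (Fintype.card (Fin d → ZMod (n + 1)) - Finset.card A))})
      / Real.log (1 / Real.log^[r] ((n : ℝ) + 1)))
    Filter.atTop (nhds (α : ℝ))) := by
  intro H
  obtain ⟨r, hr, -, q, hT⟩ := H 7 (by norm_num) U U_valid U_crit
  apply not_tendsto_ratio hlow hupp r hr q
  refine hT.congr fun n => ?_
  unfold pc
  simp only [sum_eq_Pr]

end

end Pool.Agent.Boot
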