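import Pool.Agent.Boot.Defs

/-!
# Deterministic growth of a cube (module M5)
-/

set_option autoImplicit false
set_option linter.all false

open Set

namespace Pool.Agent.Boot

/-- closure of a layer above a full region with cross section `D` -/
structure LClosed (L D : Set (Fin 6 → ℤ)) : Prop where
  pat : ∀ P ∈ Pats, ∀ v ∈ D, (∀ w ∈ P, v + w ∈ L) → v ∈ L
  seg : ∀ (j : Fin 6) (b : Bool), ∀ v ∈ D, (∀ w ∈ P0 j (sg b), v + w ∈ L) → v ∈ L

/-- a cell carrying the symbol `σ` -/
def Cell (L : Set (Fin 6 → ℤ)) (x : Fin 6 → ℤ) (σ : Sym) : Prop :=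
  x ∈ L ∧ x + ff (kap σ) ∈ L

theorem ff_add (s t : ℤ) : ff (s + t) = ff s + ff t := by
  funext j; fin_cases j <;> simp [ff]

theorem ff_zero : ff 0 = 0 := by
  funext j; fin_cases j <;> simp [ff]

theorem ff_neg (s : ℤ) : ff (-s) = - ff s := by
  funext j; fin_cases j <;> simp [ff]

theorem ff_sub (s t : ℤ) : ff (s - t) = ff s - ff t := by
  rw [sub_eq_add_neg, ff_add, ff_neg]; rfl

section layer

variable {L D : Set (Fin 6 → ℤ)} (h : LClosed L D)

include h

theorem cell_sing {r : Fin 3} {a o : Sym} (hs : sing r a o = true) {x : Fin 6 → ℤ}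
    (hx : x ∈ D) (hx' : x + ff (kap o) ∈ D) (hc : Cell L (x - st r) a) : Cell L x o := by
  obtain ⟨h1, h2⟩ := hc
  constructor
  · refine h.pat (P1 r a 0) (mem_Pats.2 (Or.inl ⟨r, a, o, hs, Or.inl rfl⟩)) x hx ?_
    intro w hw
    simp only [P1, Finset.mem_insert, Finset.mem_singleton] at hw
    rcases hw with rfl | rfl
    · have e : x + (ff (-0) - st r) = x - st r := by
        rw [neg_zero, ff_zero]; abel
      rw [e]; exact h1
    · have e : x + (ff (kap a - 0) - st r) = x - st r + ff (kap a) := by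
        rw [sub_zero]; abel
      rw [e]; exact h2
  · refine h.pat (P1 r a (kap o)) (mem_Pats.2 (Or.inl ⟨r, a, o, hs, Or.inr rfl⟩)) _ hx' ?_
    intro w hw
    simp only [P1, Finset.mem_insert, Finset.mem_singleton] at hw
    rcases hw with rfl | rfl
    · have e : x + ff (kap o) + (ff (-kap o) - st r) = x - st r := by
        rw [ff_neg]; abel
      rw [e]; exact h1
    · have e : x + ff (kap o) + (ff (kap a - kap o) - st r) = x - st r + ff (kap a) := by
        rw [ff_sub]; abel
      rw [e]; exact h2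

theorem cell_dbl {a b o : Sym} (hs : dbl a b o = true) {x : Fin 6 → ℤ}
    (hx : x ∈ D) (hx' : x + ff (kap o) ∈ D) (hw : Cell L (x - st 0) a)
    (hss : Cell L (x - st 1) b) : Cell L x o := by
  obtain ⟨h1, h2⟩ := hw
  obtain ⟨h3, h4⟩ := hss
  constructor
  · refine h.pat (P2 a b 0) (mem_Pats.2 (Or.inr (Or.inl ⟨a, b, o, hs, Or.inl rfl⟩))) x hx ?_
    intro w hw
    simp only [P2, Finset.mem_insert, Finset.mem_singleton] at hw
    rcases hw with rfl | rfl | rfl | rfl
    · have e : x + (ff (-0) - st 0) = x - st 0 := by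
        rw [neg_zero, ff_zero]; abel
      rw [e]; exact h1
    · have e : x + (ff (kap a - 0) - st 0) = x - st 0 + ff (kap a) := by
        rw [sub_zero]; abel
      rw [e]; exact h2
    · have e : x + (ff (-0) - st 1) = x - st 1 := by
        rw [neg_zero, ff_zero]; abel
      rw [e]; exact h3
    · have e : x + (ff (kap b - 0) - st 1) = x - st 1 + ff (kap b) := by
        rw [sub_zero]; abel
      rw [e]; exact h4
  · refine h.pat (P2 a b (kap o)) (mem_Pats.2 (Or.inr (Or.inl ⟨a, b, o, hs, Or.inr rfl⟩))) _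
      hx' ?_
    intro w hw
    simp only [P2, Finset.mem_insert, Finset.mem_singleton] at hw
    rcases hw with rfl | rfl | rfl | rfl
    · have e : x + ff (kap o) + (ff (-kap o) - st 0) = x - st 0 := by
        rw [ff_neg]; abel
      rw [e]; exact h1
    · have e : x + ff (kap o) + (ff (kap a - kap o) - st 0) = x - st 0 + ff (kap a) := by
        rw [ff_sub]; abel
      rw [e]; exact h2
    · have e : x + ff (kap o) + (ff (-kap o) - st 1) = x - st 1 := by
        rw [ff_neg]; abel
      rw [e]; exact h3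
    · have e : x + ff (kap o) + (ff (kap b - kap o) - st 1) = x - st 1 + ff (kap b) := by
        rw [ff_sub]; abel
      rw [e]; exact h4

/-- the trigger fills a cube of side three -/
theorem cell_trig {x : Fin 6 → ℤ} (hc : Cell L x Sym.G) (ht : x + ff (-1) ∈ L)
    (z : Fin 6 → Fin 3) (hz : x + (fun j => ((z j : ℕ) : ℤ)) ∈ D) :
    x + (fun j => ((z j : ℕ) : ℤ)) ∈ L := by
  by_cases h0 : z = 0
  · subst h0
    have e : x + (fun j => (((0 : Fin 6 → Fin 3) j : ℕ) : ℤ)) = x := by
      funext j; simp
    rw [e]; exact hc.1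
  · refine h.pat (P3 (fun j => ((z j : ℕ) : ℤ)))
      (mem_Pats.2 (Or.inr (Or.inr ⟨z, h0, rfl⟩))) _ hz ?_
    intro w hw
    simp only [P3, Finset.mem_insert, Finset.mem_singleton] at hw
    rcases hw with rfl | rfl | rfl
    · rw [add_neg_cancel_right]; exact hc.1
    · have e : x + (fun j => ((z j : ℕ) : ℤ)) + (ff 7 - (fun j => ((z j : ℕ) : ℤ)))
          = x + ff (kap Sym.G) := by
        show _ = x + ff 7
        abel
      rw [e]; exact hc.2
    · have e : x + (fun j => ((z j : ℕ) : ℤ)) + (ff (-1) - (fun j => ((z j : ℕ) : ℤ)))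
          = x + ff (-1) := by abel
      rw [e]; exact ht

end layer

/-- symbol of the cell `(m, n)` of Pascal's triangle -/
def sym (m n : ℕ) : Sym :=
  if m = 0 then (if n = 0 then Sym.C else Sym.N)
  else if n = 0 then Sym.E
  else if (m + n).choose m % 2 = 1 then Sym.O else Sym.Z

theorem sym_zero_zero : sym 0 0 = Sym.C := by simp [sym]
theorem sym_zero_succ (n : ℕ) : sym 0 (n + 1) = Sym.N := by simp [sym]
theorem sym_succ_zero (m : ℕ) : sym (m + 1) 0 = Sym.E := by simp [sym]

theorem dbl_sym (m n : ℕ) : dbl (sym m (n + 1)) (sym (m + 1) n) (sym (m + 1) (n + 1)) = true := by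
  have hS : (m + 1 + (n + 1)).choose (m + 1) = (m + (n + 1)).choose m + (m + 1 + n).choose (m + 1) := by
    have e : m + 1 + (n + 1) = (m + n + 1) + 1 := by ring
    rw [e, Nat.choose_succ_succ]
    congr 2 <;> ring
  have hA : m = 0 → (m + (n + 1)).choose m = 1 := by rintro rfl; simp
  have hB : n = 0 → (m + 1 + n).choose (m + 1) = 1 := by rintro rfl; simp
  unfold sym
  rw [hS]
  generalize (m + (n + 1)).choose m = A at *
  generalize (m + 1 + n).choose (m + 1) = B at *
  rcases Nat.eq_zero_or_pos m with rfl | hm <;> rcases Nat.eq_zero_or_pos n with rfl | hn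
  · have := hA rfl; have := hB rfl; subst_vars; simp [dbl]
  · have := hA rfl; subst this
    have hn' : n ≠ 0 := by omega
    rcases Nat.mod_two_eq_zero_or_one B with hb | hb
    · have : (1 + B) % 2 = 1 := by omega
      simp [dbl, hn', hb, this]
    · have : (1 + B) % 2 = 0 := by omega
      simp [dbl, hn', hb, this]
  · have := hB rfl; subst this
    have hm' : m ≠ 0 := by omega
    rcases Nat.mod_two_eq_zero_or_one A with ha | ha
    · have : (A + 1) % 2 = 1 := by omega
      simp [dbl, hm', ha, this]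
    · have : (A + 1) % 2 = 0 := by omega
      simp [dbl, hm', ha, this]
  · have hm' : m ≠ 0 := by omega
    have hn' : n ≠ 0 := by omega
    rcases Nat.mod_two_eq_zero_or_one A with ha | ha <;>
      rcases Nat.mod_two_eq_zero_or_one B with hb | hb
    · have : (A + B) % 2 = 0 := by omega
      simp [dbl, hm', hn', ha, hb, this]
    · have : (A + B) % 2 = 1 := by omega
      simp [dbl, hm', hn', ha, hb, this]
    · have : (A + B) % 2 = 1 := by omega
      simp [dbl, hm', hn', ha, hb, this]
    · have : (A + B) % 2 = 0 := by omega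
      simp [dbl, hm', hn', ha, hb, this]

theorem cv_sub0 (m n k : ℕ) : cv (m + 1) n k - st 0 = cv m n k := by
  funext j; fin_cases j <;> simp [cv, st] <;> ring
theorem cv_sub1 (m n k : ℕ) : cv m (n + 1) k - st 1 = cv m n k := by
  funext j; fin_cases j <;> simp [cv, st] <;> ring
theorem cv_sub2 (m n k : ℕ) : cv m n (k + 1) - st 2 = cv m n k := by
  funext j; fin_cases j <;> simp [cv, st] <;> ring
theorem cv_zero : cv 0 0 0 = 0 := by
  funext j; fin_cases j <;> simp [cv]

section layer2

variable {L D : Set (Fin 6 → ℤ)} (h : LClosed L D)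

include h

theorem pascal {v : Fin 6 → ℤ} {M N K : ℕ}
    (hD : ∀ m n k, m ≤ M → n ≤ N → k ≤ K → ∀ t : ℤ, 0 ≤ t → t ≤ 7 →
      v + cv m n k + ff t ∈ D)
    (hC : Cell L v Sym.C) :
    ∀ m n, m ≤ M → n ≤ N → Cell L (v + cv m n 0) (sym m n) := by
  have hk : ∀ σ : Sym, 0 ≤ kap σ ∧ kap σ ≤ 7 := by
    intro σ; cases σ <;> simp [kap]
  have hD0 : ∀ m n k, m ≤ M → n ≤ N → k ≤ K → v + cv m n k ∈ D := by
    intro m n k hm hn hk
    have := hD m n k hm hn hk 0 le_rfl (by norm_num)
    rwa [ff_zero, add_zero] at this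
  intro m
  induction m with
  | zero =>
    intro n
    induction n with
    | zero =>
      intro _ _
      rw [cv_zero, add_zero, sym_zero_zero]; exact hC
    | succ n ihn =>
      intro hm hn
      have ih := ihn hm (by omega)
      rw [sym_zero_succ]
      have e : v + cv 0 n 0 = v + cv 0 (n + 1) 0 - st 1 := by
        rw [add_sub_assoc, cv_sub1]
      rw [e] at ih
      rcases Nat.eq_zero_or_pos n with rfl | hn0
      · rw [sym_zero_zero] at ih
        exact cell_sing h (r := 1) (a := Sym.C) (by decide) (hD0 _ _ _ hm hn (Nat.zero_le _))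
          (hD _ _ _ hm hn (Nat.zero_le _) _ (hk _).1 (hk _).2) ih
      · obtain ⟨n', rfl⟩ : ∃ n', n = n' + 1 := ⟨n - 1, by omega⟩
        rw [sym_zero_succ] at ih
        exact cell_sing h (r := 1) (a := Sym.N) (by decide) (hD0 _ _ _ hm hn (Nat.zero_le _))
          (hD _ _ _ hm hn (Nat.zero_le _) _ (hk _).1 (hk _).2) ih
  | succ m ihm =>
    intro n
    induction n with
    | zero =>
      intro hm hn
      have ih := ihm 0 (by omega) hn
      rw [sym_succ_zero]
      have e : v + cv m 0 0 = v + cv (m + 1) 0 0 - st 0 := by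
        rw [add_sub_assoc, cv_sub0]
      rw [e] at ih
      rcases Nat.eq_zero_or_pos m with rfl | hm0
      · rw [sym_zero_zero] at ih
        exact cell_sing h (r := 0) (a := Sym.C) (by decide) (hD0 _ _ _ hm hn (Nat.zero_le _))
          (hD _ _ _ hm hn (Nat.zero_le _) _ (hk _).1 (hk _).2) ih
      · obtain ⟨m', rfl⟩ : ∃ m', m = m' + 1 := ⟨m - 1, by omega⟩
        rw [sym_succ_zero] at ih
        exact cell_sing h (r := 0) (a := Sym.E) (by decide) (hD0 _ _ _ hm hn (Nat.zero_le _))
          (hD _ _ _ hm hn (Nat.zero_le _) _ (hk _).1 (hk _).2) ih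
    | succ n ihn =>
      intro hm hn
      have ih1 := ihm (n + 1) (by omega) hn
      have ih2 := ihn hm (by omega)
      have e1 : v + cv m (n + 1) 0 = v + cv (m + 1) (n + 1) 0 - st 0 := by
        rw [add_sub_assoc, cv_sub0]
      have e2 : v + cv (m + 1) n 0 = v + cv (m + 1) (n + 1) 0 - st 1 := by
        rw [add_sub_assoc, cv_sub1]
      rw [e1] at ih1
      rw [e2] at ih2
      exact cell_dbl h (dbl_sym m n) (hD0 _ _ _ hm hn (Nat.zero_le _))
          (hD _ _ _ hm hn (Nat.zero_le _) _ (hk _).1 (hk _).2) ih1 ih2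

theorem gline {v : Fin 6 → ℤ} {M N K : ℕ}
    (hD : ∀ m n k, m ≤ M → n ≤ N → k ≤ K → ∀ t : ℤ, 0 ≤ t → t ≤ 7 →
      v + cv m n k + ff t ∈ D)
    (hO : Cell L (v + cv M N 0) Sym.O) :
    ∀ k, 1 ≤ k → k ≤ K → Cell L (v + cv M N k) Sym.G := by
  have hD0 : ∀ m n k, m ≤ M → n ≤ N → k ≤ K → v + cv m n k ∈ D := by
    intro m n k hm hn hk
    have := hD m n k hm hn hk 0 le_rfl (by norm_num)
    rwa [ff_zero, add_zero] at this
  intro k
  induction k with
  | zero => intro h0; omega
  | succ k ih =>
    intro _ hk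
    have e : v + cv M N k = v + cv M N (k + 1) - st 2 := by
      rw [add_sub_assoc, cv_sub2]
    have hk7 : (0 : ℤ) ≤ kap Sym.G ∧ kap Sym.G ≤ 7 := by simp [kap]
    rcases Nat.eq_zero_or_pos k with rfl | hk0
    · rw [e] at hO
      exact cell_sing h (r := 2) (a := Sym.O) (by decide) (hD0 _ _ _ le_rfl le_rfl hk)
          (hD _ _ _ le_rfl le_rfl hk _ hk7.1 hk7.2) hO
    · have := ih (by omega) (by omega)
      rw [e] at this
      exact cell_sing h (r := 2) (a := Sym.G) (by decide) (hD0 _ _ _ le_rfl le_rfl hk)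
          (hD _ _ _ le_rfl le_rfl hk _ hk7.1 hk7.2) this

end layer2

/-- one-dimensional propagation -/
theorem line_fill {A : ℤ → Prop} {lo hi x : ℤ} (hx : lo ≤ x) (hx' : x + 2 < hi)
    (h0 : A x) (h1 : A (x + 1)) (h2 : A (x + 2))
    (up : ∀ c, lo ≤ c → c < hi → A (c - 1) → A (c - 2) → A (c - 3) → A c)
    (dn : ∀ c, lo ≤ c → c < hi → A (c + 1) → A (c + 2) → A (c + 3) → A c) :
    ∀ c, lo ≤ c → c < hi → A c := by
  have hup : ∀ n : ℕ, x + 2 + n < hi → A (x + n) ∧ A (x + 1 + n) ∧ A (x + 2 + n) := by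
    intro n
    induction n with
    | zero => intro _; simpa using ⟨h0, h1, h2⟩
    | succ n ih =>
      intro hn
      push_cast at hn
      obtain ⟨a0, a1, a2⟩ := ih (by linarith)
      push_cast
      refine ⟨?_, ?_, ?_⟩
      · have e : x + ((n : ℤ) + 1) = x + 1 + n := by ring
        rw [e]; exact a1
      · have e : x + 1 + ((n : ℤ) + 1) = x + 2 + n := by ring
        rw [e]; exact a2
      · apply up _ (by linarith) (by linarith)
        · have e : x + 2 + ((n : ℤ) + 1) - 1 = x + 2 + n := by ring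
          rw [e]; exact a2
        · have e : x + 2 + ((n : ℤ) + 1) - 2 = x + 1 + n := by ring
          rw [e]; exact a1
        · have e : x + 2 + ((n : ℤ) + 1) - 3 = x + n := by ring
          rw [e]; exact a0
  have hdn : ∀ n : ℕ, lo ≤ x - n → A (x - n) ∧ A (x + 1 - n) ∧ A (x + 2 - n) := by
    intro n
    induction n with
    | zero => intro _; simpa using ⟨h0, h1, h2⟩
    | succ n ih =>
      intro hn
      push_cast at hn
      obtain ⟨a0, a1, a2⟩ := ih (by linarith)
      push_cast
      refine ⟨?_, ?_, ?_⟩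
      · apply dn _ (by linarith) (by linarith)
        · have e : x - ((n : ℤ) + 1) + 1 = x - n := by ring
          rw [e]; exact a0
        · have e : x - ((n : ℤ) + 1) + 2 = x + 1 - n := by ring
          rw [e]; exact a1
        · have e : x - ((n : ℤ) + 1) + 3 = x + 2 - n := by ring
          rw [e]; exact a2
      · have e : x + 1 - ((n : ℤ) + 1) = x - n := by ring
        rw [e]; exact a0
      · have e : x + 2 - ((n : ℤ) + 1) = x + 1 - n := by ring
        rw [e]; exact a1
  intro c hc hc'
  rcases le_or_gt c x with h | h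
  · have := (hdn (x - c).toNat (by rw [Int.toNat_of_nonneg (by linarith)]; linarith)).1
    rw [Int.toNat_of_nonneg (by linarith)] at this
    have e : x - (x - c) = c := by ring
    rwa [e] at this
  · rcases le_or_gt c (x + 1) with h3 | h3
    · have e : c = x + 1 := by omega
      rw [e]; exact h1
    · have := (hup (c - x - 2).toNat (by rw [Int.toNat_of_nonneg (by linarith)]; linarith)).2.2
      rw [Int.toNat_of_nonneg (by linarith)] at this
      have e : x + 2 + (c - x - 2) = c := by ring
      rwa [e] at this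

/-- a cube of side three in the layer fills the whole cross section -/
theorem fill {L : Set (Fin 6 → ℤ)} {lo hi : Fin 6 → ℤ}
    (h : LClosed L {v | ∀ j, lo j ≤ v j ∧ v j < hi j}) {x : Fin 6 → ℤ}
    (hx : ∀ j, lo j ≤ x j ∧ x j + 2 < hi j)
    (hnuc : ∀ y : Fin 6 → ℤ, (∀ j, x j ≤ y j ∧ y j ≤ x j + 2) → y ∈ L) :
    ∀ y : Fin 6 → ℤ, (∀ j, lo j ≤ y j ∧ y j < hi j) → y ∈ L := by
  have key : ∀ k : ℕ, k ≤ 6 → ∀ y : Fin 6 → ℤ, (∀ j, lo j ≤ y j ∧ y j < hi j) →
      (∀ j : Fin 6, k ≤ (j : ℕ) → x j ≤ y j ∧ y j ≤ x j + 2) → y ∈ L := by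
    intro k
    induction k with
    | zero => intro _ y _ hy; exact hnuc y fun j => hy j (Nat.zero_le _)
    | succ k ih =>
      intro hk y hy hy'
      set q : Fin 6 := ⟨k, by omega⟩ with hq
      have hline : ∀ c, lo q ≤ c → c < hi q → Function.update y q c ∈ L := by
        have hin : ∀ c, lo q ≤ c → c < hi q →
            ∀ j, lo j ≤ Function.update y q c j ∧ Function.update y q c j < hi j := by
          intro c hc hc' j
          by_cases hj : j = q
          · subst hj; simp only [Function.update_self]; exact ⟨hc, hc'⟩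
          · simp only [Function.update_of_ne hj]; exact hy j
        have hbase : ∀ c, x q ≤ c → c ≤ x q + 2 → Function.update y q c ∈ L := by
          intro c hc hc'
          apply ih (by omega)
          · exact hin c (by linarith [(hx q).1]) (by linarith [(hx q).2])
          · intro j hj
            by_cases hjq : j = q
            · subst hjq; simp only [Function.update_self]; exact ⟨hc, hc'⟩
            · simp only [Function.update_of_ne hjq]
              apply hy'
              have : (j : ℕ) ≠ k := fun h => hjq (Fin.ext h)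
              omega
        apply line_fill (A := fun c => Function.update y q c ∈ L) (x := x q) (hx q).1 (hx q).2
          (hbase _ (by linarith) (by linarith)) (hbase _ (by linarith) (by linarith))
          (hbase _ (by linarith) (by linarith))
        · intro c hc hc' a1 a2 a3
          refine h.seg q true _ (hin c hc hc') ?_
          intro w hw
          simp only [P0, sg, Finset.mem_insert, Finset.mem_singleton, if_true] at hw
          rcases hw with rfl | rfl | rfl
          · have e : Function.update y q c + Pi.single q (-1) = Function.update y q (c - 1) := by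
              funext j
              by_cases hj : j = q
              · subst hj; simp; ring
              · simp [hj]
            rw [e]; exact a1
          · have e : Function.update y q c + Pi.single q (-2 * 1) = Function.update y q (c - 2) := by
              funext j
              by_cases hj : j = q
              · subst hj; simp; ring
              · simp [hj]
            rw [e]; exact a2
          · have e : Function.update y q c + Pi.single q (-3 * 1) = Function.update y q (c - 3) := by
              funext j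
              by_cases hj : j = q
              · subst hj; simp; ring
              · simp [hj]
            rw [e]; exact a3
        · intro c hc hc' a1 a2 a3
          refine h.seg q false _ (hin c hc hc') ?_
          intro w hw
          simp only [P0, sg, Finset.mem_insert, Finset.mem_singleton] at hw
          rcases hw with rfl | rfl | rfl
          · have e : Function.update y q c + Pi.single q (-(if false = true then 1 else -1))
                = Function.update y q (c + 1) := by
              funext j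
              by_cases hj : j = q
              · subst hj; simp
              · simp [hj]
            rw [e]; exact a1
          · have e : Function.update y q c + Pi.single q (-2 * (if false = true then 1 else -1))
                = Function.update y q (c + 2) := by
              funext j
              by_cases hj : j = q
              · subst hj; simp
              · simp [hj]
            rw [e]; exact a2
          · have e : Function.update y q c + Pi.single q (-3 * (if false = true then 1 else -1))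
                = Function.update y q (c + 3) := by
              funext j
              by_cases hj : j = q
              · subst hj; simp
              · simp [hj]
            rw [e]; exact a3
      have := hline (y q) (hy q).1 (hy q).2
      rwa [Function.update_eq_self] at this
  intro y hy
  refine key 6 le_rfl y hy ?_
  intro j hj
  have := j.2
  omega


theorem ins_add_single (i : Fin 7) (p s : ℤ) (v : Fin 6 → ℤ) :
    (i.insertNth p v : Fin 7 → ℤ) + Pi.single i s = i.insertNth (p + s) v := by
  funext j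
  rcases Fin.eq_self_or_eq_succAbove i j with rfl | ⟨k, rfl⟩
  · simp
  · simp [Fin.succAbove_ne]

theorem ins_add_ins (i : Fin 7) (p : ℤ) (v w : Fin 6 → ℤ) :
    (i.insertNth p v : Fin 7 → ℤ) + (i.insertNth 0 w : Fin 7 → ℤ) = i.insertNth p (v + w) := by
  funext j
  rcases Fin.eq_self_or_eq_succAbove i j with rfl | ⟨k, rfl⟩
  · simp
  · simp

/-- the layer above a box is closed -/
theorem layer_closed {T : Set (Fin 7 → ℤ)} (hT : Closed T) {a c : Fin 7 → ℤ} {i : Fin 7}
    (hi : 3 ≤ c i) (hbox : ∀ x, (∀ j, a j ≤ x j ∧ x j < a j + c j) → x ∈ T) :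
    LClosed {v | a + (i.insertNth (c i) v : Fin 7 → ℤ) ∈ T}
      {v | ∀ j, (fun _ => (0 : ℤ)) j ≤ v j ∧ v j < (fun j => c (i.succAbove j)) j} := by
  have hin : ∀ (v : Fin 6 → ℤ), (∀ j, (0 : ℤ) ≤ v j ∧ v j < c (i.succAbove j)) → ∀ h : ℤ,
      0 ≤ h → h < c i → a + (i.insertNth h v : Fin 7 → ℤ) ∈ T := by
    intro v hv h h0 h1
    apply hbox
    intro j
    rcases Fin.eq_self_or_eq_succAbove i j with rfl | ⟨k, rfl⟩
    · simp only [Pi.add_apply, Fin.insertNth_apply_same]
      constructor <;> linarith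
    · simp only [Pi.add_apply, Fin.insertNth_apply_succAbove]
      have := hv k
      constructor <;> linarith [this.1, this.2]
  constructor
  · intro P hP v hv hw
    apply hT
    refine ⟨mk i 1 P, mem_U.2 (Or.inl ⟨i, P, hP, rfl⟩), ?_⟩
    intro x hx
    rcases mem_mk.1 hx with rfl | rfl | rfl | ⟨w, hwP, rfl⟩
    · rw [add_assoc, ins_add_single]; exact hin v hv _ (by linarith) (by linarith)
    · rw [add_assoc, ins_add_single]; exact hin v hv _ (by linarith) (by linarith)
    · rw [add_assoc, ins_add_single]; exact hin v hv _ (by linarith) (by linarith)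
    · rw [add_assoc, ins_add_ins]; exact hw w hwP
  · intro j b v hv hw
    apply hT
    refine ⟨mk i (sg true) (P0 j (sg b)), mem_U.2 (Or.inr ⟨i, j, true, b, rfl⟩), ?_⟩
    have hsg : sg true = 1 := rfl
    rw [hsg]
    intro x hx
    rcases mem_mk.1 hx with rfl | rfl | rfl | ⟨w, hwP, rfl⟩
    · rw [add_assoc, ins_add_single]; exact hin v hv _ (by linarith) (by linarith)
    · rw [add_assoc, ins_add_single]; exact hin v hv _ (by linarith) (by linarith)
    · rw [add_assoc, ins_add_single]; exact hin v hv _ (by linarith) (by linarith)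
    · rw [add_assoc, ins_add_ins]; exact hw w hwP

theorem ff_bd (t : ℤ) (h0 : 0 ≤ t) (h7 : t ≤ 7) (j : Fin 6) : 0 ≤ ff t j ∧ ff t j ≤ 7 := by
  fin_cases j
  · show 0 ≤ (0 : ℤ) ∧ (0 : ℤ) ≤ 7; norm_num
  · show 0 ≤ (0 : ℤ) ∧ (0 : ℤ) ≤ 7; norm_num
  · show 0 ≤ (0 : ℤ) ∧ (0 : ℤ) ≤ 7; norm_num
  · show 0 ≤ t ∧ t ≤ 7; exact ⟨h0, h7⟩
  · show 0 ≤ (0 : ℤ) ∧ (0 : ℤ) ≤ 7; norm_num
  · show 0 ≤ (0 : ℤ) ∧ (0 : ℤ) ≤ 7; norm_num

theorem cv_bd {v : Fin 6 → ℤ} {m n k m' n' k' : ℕ} {ℓ : ℤ}
    (hv : ∀ j, 2 ≤ v j ∧ v j + 10 ≤ ℓ) (hv0 : v 0 + 2 * m + 10 ≤ ℓ)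
    (hv1 : v 1 + 2 * n + 10 ≤ ℓ) (hv2 : v 2 + 2 * k + 10 ≤ ℓ)
    (hm : m' ≤ m) (hn : n' ≤ n) (hk : k' ≤ k) (j : Fin 6) :
    0 ≤ cv m' n' k' j ∧ v j + cv m' n' k' j + 10 ≤ ℓ := by
  have hm'' : (m' : ℤ) ≤ m := by exact_mod_cast hm
  have hn'' : (n' : ℤ) ≤ n := by exact_mod_cast hn
  have hk'' : (k' : ℤ) ≤ k := by exact_mod_cast hk
  have p1 : (0 : ℤ) ≤ m' := by positivity
  have p2 : (0 : ℤ) ≤ n' := by positivity
  have p3 : (0 : ℤ) ≤ k' := by positivity
  fin_cases j
  · show 0 ≤ 2 * (m' : ℤ) ∧ v 0 + 2 * (m' : ℤ) + 10 ≤ ℓ; constructor <;> linarith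
  · show 0 ≤ 2 * (n' : ℤ) ∧ v 1 + 2 * (n' : ℤ) + 10 ≤ ℓ; constructor <;> linarith
  · show 0 ≤ 2 * (k' : ℤ) ∧ v 2 + 2 * (k' : ℤ) + 10 ≤ ℓ; constructor <;> linarith
  · show 0 ≤ (0 : ℤ) ∧ v 3 + (0 : ℤ) + 10 ≤ ℓ; constructor <;> linarith [(hv 3).2]
  · show 0 ≤ (0 : ℤ) ∧ v 4 + (0 : ℤ) + 10 ≤ ℓ; constructor <;> linarith [(hv 4).2]
  · show 0 ≤ (0 : ℤ) ∧ v 5 + (0 : ℤ) + 10 ≤ ℓ; constructor <;> linarith [(hv 5).2]

/-- one face is filled -/
theorem face_fill {T : Set (Fin 7 → ℤ)} (hT : Closed T) {a c : Fin 7 → ℤ} {i : Fin 7} {ℓ : ℕ}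
    (hℓ : 3 ≤ ℓ) (hci : c i = ℓ) (hc : ∀ j, (ℓ : ℤ) ≤ c j)
    (hbox : ∀ x, (∀ j, a j ≤ x j ∧ x j < a j + c j) → x ∈ T) (htr : Trig i a ℓ T) :
    ∀ v : Fin 6 → ℤ, (∀ j, (0 : ℤ) ≤ v j ∧ v j < c (i.succAbove j)) →
      a + (i.insertNth (ℓ : ℤ) v : Fin 7 → ℤ) ∈ T := by
  have hℓ' : (3 : ℤ) ≤ ℓ := by exact_mod_cast hℓ
  have hLC := layer_closed hT (a := a) (c := c) (i := i) (by rw [hci]; exact hℓ') hbox
  obtain ⟨v, m, n, k, hm, hn, hk, hodd, hv, hv0, hv1, hv2, ht1, ht2, ht3⟩ := htr
  rw [hci] at hLC
  have hcc : ∀ j : Fin 6, (ℓ : ℤ) ≤ c (i.succAbove j) := fun j => hc _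
  -- the cells lie in the cross section
  have hD : ∀ m' n' k', m' ≤ m → n' ≤ n → k' ≤ k → ∀ t : ℤ, 0 ≤ t → t ≤ 7 →
      v + cv m' n' k' + ff t ∈
        {v : Fin 6 → ℤ | ∀ j, (fun _ => (0 : ℤ)) j ≤ v j ∧ v j < (fun j => c (i.succAbove j)) j} := by
    intro m' n' k' hm' hn' hk' t ht0 ht7 j
    have g := hcc j
    have gv := hv j
    have g1 := cv_bd hv hv0 hv1 hv2 hm' hn' hk' j
    have g2 := ff_bd t ht0 ht7 j
    show 0 ≤ v j + cv m' n' k' j + ff t j ∧ v j + cv m' n' k' j + ff t j < c (i.succAbove j)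
    constructor <;> linarith [g1.1, g1.2, g2.1, g2.2, gv.1, gv.2]
  have hC : Cell {v | a + (i.insertNth (ℓ : ℤ) v : Fin 7 → ℤ) ∈ T} v Sym.C := ⟨ht1, ht2⟩
  have hO := pascal hLC hD hC m n le_rfl le_rfl
  have hsym : sym m n = Sym.O := by
    unfold sym
    rw [if_neg (by omega), if_neg (by omega), if_pos hodd]
  rw [hsym] at hO
  have hG := gline hLC hD hO k hk le_rfl
  -- the nucleus
  have hnuc : ∀ y : Fin 6 → ℤ, (∀ j, (v + cv m n k) j ≤ y j ∧ y j ≤ (v + cv m n k) j + 2) →
      y ∈ {v | a + (i.insertNth (ℓ : ℤ) v : Fin 7 → ℤ) ∈ T} := by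
    intro y hy
    have hz : ∀ j, (y j - (v + cv m n k) j).toNat < 3 := by
      intro j
      have := hy j
      omega
    have e : y = v + cv m n k + (fun j => (((⟨(y j - (v + cv m n k) j).toNat, hz j⟩ : Fin 3) : ℕ) : ℤ)) := by
      funext j
      have := hy j
      simp only [Pi.add_apply]
      simp only [Pi.add_apply] at this
      rw [Int.toNat_of_nonneg (by linarith)]
      ring
    rw [e]
    apply cell_trig hLC hG ht3
    rw [← e]
    intro j
    have g := hcc j
    have gv := hv j
    have gy := hy j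
    have g1 := cv_bd hv hv0 hv1 hv2 (le_refl m) (le_refl n) (le_refl k) j
    rw [Pi.add_apply] at gy
    show 0 ≤ y j ∧ y j < c (i.succAbove j)
    constructor <;> linarith [g1.1, g1.2, gv.1, gv.2, gy.1, gy.2]
  have hfill := fill hLC (x := v + cv m n k) ?_ hnuc
  · exact hfill
  · intro j
    have g := hcc j
    have gv := hv j
    have g1 := cv_bd hv hv0 hv1 hv2 (le_refl m) (le_refl n) (le_refl k) j
    show 0 ≤ v j + cv m n k j ∧ v j + cv m n k j + 2 < c (i.succAbove j)
    constructor <;> linarith [g1.1, g1.2, gv.1, gv.2]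

theorem grow {T : Set (Fin 7 → ℤ)} (hT : Closed T) {a : Fin 7 → ℤ} {ℓ : ℕ} (hℓ : 3 ≤ ℓ)
    (hbox : ∀ x, (∀ i, a i ≤ x i ∧ x i < a i + ℓ) → x ∈ T) (htr : ∀ i, Trig i a ℓ T) :
    ∀ x, (∀ i, a i ≤ x i ∧ x i < a i + (ℓ + 1)) → x ∈ T := by
  have key : ∀ q : ℕ, q ≤ 7 → ∀ x : Fin 7 → ℤ,
      (∀ i : Fin 7, a i ≤ x i ∧ x i < a i + (if (i : ℕ) < q then (ℓ : ℤ) + 1 else ℓ)) → x ∈ T := by
    intro q
    induction q with
    | zero =>
      intro _ x hx
      apply hbox
      intro i
      simpa using hx i
    | succ q ih =>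
      intro hq x hx
      set i : Fin 7 := ⟨q, by omega⟩ with hi
      have ih' := ih (by omega)
      set c : Fin 7 → ℤ := fun j => if (j : ℕ) < q then (ℓ : ℤ) + 1 else ℓ with hc
      have hci : c i = ℓ := by simp [hc, hi]
      have hcc : ∀ j, (ℓ : ℤ) ≤ c j := by
        intro j
        simp only [hc]
        split_ifs <;> linarith
      by_cases hxi : x i < a i + ℓ
      · apply ih'
        intro j
        have h1 := hx j
        refine ⟨h1.1, ?_⟩
        by_cases hj : j = i
        · subst hj
          simp [hi]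
          exact hxi
        · have hjq : (j : ℕ) ≠ q := fun h => hj (Fin.ext h)
          by_cases hjl : (j : ℕ) < q
          · rw [if_pos (by omega)] at h1
            rw [if_pos hjl]; exact h1.2
          · rw [if_neg (by omega)] at h1
            rw [if_neg hjl]; exact h1.2
      · have hxi' : x i = a i + ℓ := by
          have h1 := hx i
          rw [if_pos (by simp [hi])] at h1
          linarith [h1.2, Int.not_lt.1 hxi, Int.lt_add_one_iff.1 (by linarith [h1.2] : x i < (a i + ℓ) + 1)]
        have hf := face_fill hT hℓ hci hcc ih' (htr i) (fun j => x (i.succAbove j) - a (i.succAbove j)) ?_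
        · have e : a + (i.insertNth (ℓ : ℤ) (fun j => x (i.succAbove j) - a (i.succAbove j)) :
              Fin 7 → ℤ) = x := by
            funext j
            rcases Fin.eq_self_or_eq_succAbove i j with rfl | ⟨k, rfl⟩
            · simp only [Pi.add_apply, Fin.insertNth_apply_same]; exact hxi'.symm
            · simp only [Pi.add_apply, Fin.insertNth_apply_succAbove]; ring
          rw [e] at hf
          exact hf
        · intro j
          have h1 := hx (i.succAbove j)
          have hne : i.succAbove j ≠ i := Fin.succAbove_ne i j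
          have hjq : ((i.succAbove j : Fin 7) : ℕ) ≠ q := fun h => hne (Fin.ext h)
          refine ⟨by linarith [h1.1], ?_⟩
          simp only [hc]
          by_cases hjl : ((i.succAbove j : Fin 7) : ℕ) < q
          · rw [if_pos (by omega)] at h1
            rw [if_pos hjl]; linarith [h1.2]
          · rw [if_neg (by omega)] at h1
            rw [if_neg hjl]; linarith [h1.2]
  intro x hx
  apply key 7 le_rfl
  intro i
  rw [if_pos i.2]
  exact hx i

end Pool.Agent.Boot
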