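import Mathlib
import Pool.Agent.Boot.Bad2

/-!
# Lower bound for the critical probability (module M8, last part)
-/

set_option autoImplicit false

open Set Filter

namespace Pool.Agent.Boot

theorem one_le_logb : 1 ≤ Real.logb 2 3 := by
  rw [Real.le_logb_iff_rpow_le (by norm_num) (by norm_num)]
  norm_num

theorem alph_three : 3 * alph = 7 + Real.logb 2 3 := by
  unfold alph
  ring

theorem count_bound : ∃ C : ℝ, 0 < C ∧ ∀ D : ℕ, 1 ≤ D → ∀ p : ℝ, 0 ≤ p →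
    (C1 D 40).card * p ^ 3 + ((C2 D 40).card * p ^ 3 + (C3 D).card * p ^ 4) ≤
      C * ((D : ℝ) ^ (3 * alph) * p ^ 3 + (D : ℝ) ^ 9 * p ^ 4) := by
  obtain ⟨K, hK⟩ : ∃ K, (bx 7 40).card = K := ⟨_, rfl⟩
  have e1 : ∀ D : ℕ, ((C1 D 40).card : ℝ) = (2 * D + 1) ^ 7 * (K * K) := by
    intro D
    rw [card_C1 D hK]
    push_cast
    ring
  have e2 : ∀ D : ℕ, ((C2 D 40).card : ℝ) =
      (2 * D + 1) ^ 6 * (6 * ((cellW (D + 23)).card * (8 * K))) := by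
    intro D
    rw [card_C2 D hK]
    push_cast
    ring
  clear hK
  have e3 : ∀ D : ℕ, ((C3 D).card : ℝ) =
      (2 * D + 1) ^ 6 * (6 * (6 * ((4 * D + 1) ^ 3 * 95 ^ 3))) := by
    intro D
    rw [card_C3 D]
    push_cast
    ring
  set g := Real.logb 2 3 with hg
  have hg1 : 1 ≤ g := one_le_logb
  refine ⟨3 ^ 7 * K ^ 2 + 3 ^ 6 * 48 * K * (4 * 24 ^ (1 + g)) + 3 ^ 6 * 36 * 5 ^ 3 * 95 ^ 3,
    by positivity, ?_⟩
  intro D hD p hp
  rw [e1, e2, e3, alph_three, ← hg]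
  have hD1 : (1 : ℝ) ≤ D := by exact_mod_cast hD
  have hD0 : (0 : ℝ) < D := by linarith
  have hDg : (D : ℝ) ^ (7 + g) = (D : ℝ) ^ 7 * (D : ℝ) ^ g := by
    rw [Real.rpow_add hD0]
    congr 1
    exact_mod_cast Real.rpow_natCast (D : ℝ) 7
  have hDg1 : 1 ≤ (D : ℝ) ^ g := Real.one_le_rpow hD1 (by linarith)
  have h2 : (2 * (D : ℝ) + 1) ≤ 3 * D := by linarith
  have h4 : (4 * (D : ℝ) + 1) ≤ 5 * D := by linarith
  have p6 : (2 * (D : ℝ) + 1) ^ 6 ≤ (3 * D) ^ 6 := pow_le_pow_left₀ (by linarith) h2 6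
  have p7 : (2 * (D : ℝ) + 1) ^ 7 ≤ (3 * D) ^ 7 := pow_le_pow_left₀ (by linarith) h2 7
  have p3 : (4 * (D : ℝ) + 1) ^ 3 ≤ (5 * D) ^ 3 := pow_le_pow_left₀ (by linarith) h4 3
  have hcell : ((cellW (D + 23)).card : ℝ) ≤ 4 * 24 ^ (1 + g) * (D * (D : ℝ) ^ g) := by
    have c1 : ((cellW (D + 23)).card : ℝ) ≤ ((D + 23 : ℕ) : ℝ) ^ 2 +
        ((D + 23 : ℕ) : ℝ) * (oddCount (D + 23) : ℝ) := by
      exact_mod_cast card_cellW (D + 23)
    have c2 := oddCount_le (D + 23)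
    rw [← hg] at c2
    set W : ℝ := ((D + 23 : ℕ) : ℝ) with hW
    have hW1 : 1 ≤ W := by
      rw [hW]; push_cast; linarith
    have hW24 : W ≤ 24 * D := by
      rw [hW]; push_cast; linarith
    have hW0 : 0 < W := by linarith
    have c3 : W ≤ W ^ g := by
      calc W = W ^ (1 : ℝ) := (Real.rpow_one W).symm
        _ ≤ W ^ g := Real.rpow_le_rpow_of_exponent_le hW1 hg1
    have c4 : W ^ 2 + W * (oddCount (D + 23) : ℝ) ≤ 4 * (W * W ^ g) := by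
      nlinarith [mul_le_mul_of_nonneg_left c3 hW0.le, mul_le_mul_of_nonneg_left c2 hW0.le]
    have c5 : W * W ^ g ≤ 24 ^ (1 + g) * (D * (D : ℝ) ^ g) := by
      calc W * W ^ g = W ^ (1 + g) := by rw [Real.rpow_add hW0, Real.rpow_one]
        _ ≤ (24 * D) ^ (1 + g) := Real.rpow_le_rpow hW0.le hW24 (by linarith)
        _ = 24 ^ (1 + g) * (D : ℝ) ^ (1 + g) := by
            rw [Real.mul_rpow (by norm_num) hD0.le]
        _ = 24 ^ (1 + g) * (D * (D : ℝ) ^ g) := by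
            rw [Real.rpow_add hD0, Real.rpow_one]
    calc ((cellW (D + 23)).card : ℝ) ≤ 4 * (W * W ^ g) := c1.trans c4
      _ ≤ 4 * (24 ^ (1 + g) * (D * (D : ℝ) ^ g)) := by linarith
      _ = _ := by ring
  have q1 : ((2 * D + 1) ^ 7 * (K * K) : ℝ) ≤ 3 ^ 7 * K ^ 2 * (D : ℝ) ^ (7 + g) := by
    rw [hDg]
    calc ((2 * D + 1) ^ 7 * (K * K) : ℝ) ≤ (3 * D) ^ 7 * (K * K) := by gcongr
      _ = 3 ^ 7 * K ^ 2 * ((D : ℝ) ^ 7 * 1) := by ring
      _ ≤ 3 ^ 7 * K ^ 2 * ((D : ℝ) ^ 7 * (D : ℝ) ^ g) := by gcongr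
  have q2 : ((2 * D + 1) ^ 6 * (6 * ((cellW (D + 23)).card * (8 * K))) : ℝ) ≤
      3 ^ 6 * 48 * K * (4 * 24 ^ (1 + g)) * (D : ℝ) ^ (7 + g) := by
    rw [hDg]
    calc ((2 * D + 1) ^ 6 * (6 * ((cellW (D + 23)).card * (8 * K))) : ℝ) ≤
        (3 * D) ^ 6 * (6 * ((4 * 24 ^ (1 + g) * (D * (D : ℝ) ^ g)) * (8 * K))) := by gcongr
      _ = _ := by ring
  have q3 : ((2 * D + 1) ^ 6 * (6 * (6 * ((4 * D + 1) ^ 3 * 95 ^ 3))) : ℝ) ≤
      3 ^ 6 * 36 * 5 ^ 3 * 95 ^ 3 * (D : ℝ) ^ 9 := by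
    calc ((2 * D + 1) ^ 6 * (6 * (6 * ((4 * D + 1) ^ 3 * 95 ^ 3))) : ℝ) ≤
        (3 * D) ^ 6 * (6 * (6 * ((5 * D) ^ 3 * 95 ^ 3))) := by gcongr
      _ = _ := by ring
  have hp3 : 0 ≤ p ^ 3 := by positivity
  have hp4 : 0 ≤ p ^ 4 := by positivity
  have hX : 0 ≤ (D : ℝ) ^ (7 + g) * p ^ 3 := by positivity
  have hY : 0 ≤ (D : ℝ) ^ 9 * p ^ 4 := by positivity
  have r1 := mul_le_mul_of_nonneg_right q1 hp3
  have r2 := mul_le_mul_of_nonneg_right q2 hp3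
  have r3 := mul_le_mul_of_nonneg_right q3 hp4
  have hKK : (0 : ℝ) ≤ 3 ^ 7 * K ^ 2 := by positivity
  have hKK2 : (0 : ℝ) ≤ 3 ^ 6 * 48 * K * (4 * 24 ^ (1 + g)) := by positivity
  have s1 := mul_nonneg hKK hY
  have s2 := mul_nonneg hKK2 hY
  have s3 : (0 : ℝ) ≤ 3 ^ 6 * 36 * 5 ^ 3 * 95 ^ 3 * ((D : ℝ) ^ (7 + g) * p ^ 3) := by positivity
  calc _ ≤ 3 ^ 7 * K ^ 2 * (D : ℝ) ^ (7 + g) * p ^ 3 +
        (3 ^ 6 * 48 * K * (4 * 24 ^ (1 + g)) * (D : ℝ) ^ (7 + g) * p ^ 3 +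
        3 ^ 6 * 36 * 5 ^ 3 * 95 ^ 3 * (D : ℝ) ^ 9 * p ^ 4) := add_le_add r1 (add_le_add r2 r3)
    _ ≤ 3 ^ 7 * K ^ 2 * (D : ℝ) ^ (7 + g) * p ^ 3 +
        (3 ^ 6 * 48 * K * (4 * 24 ^ (1 + g)) * (D : ℝ) ^ (7 + g) * p ^ 3 +
        3 ^ 6 * 36 * 5 ^ 3 * 95 ^ 3 * (D : ℝ) ^ 9 * p ^ 4) +
        (3 ^ 7 * K ^ 2 * ((D : ℝ) ^ 9 * p ^ 4) +
          3 ^ 6 * 48 * K * (4 * 24 ^ (1 + g)) * ((D : ℝ) ^ 9 * p ^ 4) +
          3 ^ 6 * 36 * 5 ^ 3 * 95 ^ 3 * ((D : ℝ) ^ (7 + g) * p ^ 3)) := by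
        have := add_nonneg (add_nonneg s1 s2) s3
        linarith only [this]
    _ = _ := by ring

/-- the probability of a bad slab tends to zero -/
theorem eta_small {ε : ℝ} (hε : 0 < ε) {C : ℝ} : ∀ᶠ x : ℝ in atTop, ∀ p : ℝ, 0 ≤ p →
    p ≤ x ^ (-((1 + ε) * alph)) → ∀ D : ℝ, 0 ≤ D → D ≤ 600 * x →
      0 < C → C * (D ^ (3 * alph) * p ^ 3 + D ^ 9 * p ^ 4) ≤ Real.exp (-20) := by
  have ha : 8 / 3 ≤ alph := by
    have := one_le_logb
    have := alph_three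
    linarith
  have t1 : Tendsto (fun x : ℝ => x ^ (-(3 * ε * alph))) atTop (nhds 0) :=
    tendsto_rpow_neg_atTop (by positivity)
  have t2 : Tendsto (fun x : ℝ => x ^ (-(4 * (1 + ε) * alph - 9))) atTop (nhds 0) := by
    apply tendsto_rpow_neg_atTop
    nlinarith [mul_pos hε (show (0 : ℝ) < alph by linarith)]
  have t3 : Tendsto (fun x : ℝ => C * (600 ^ (3 * alph) * x ^ (-(3 * ε * alph)) +
      600 ^ 9 * x ^ (-(4 * (1 + ε) * alph - 9)))) atTop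
      (nhds (C * (600 ^ (3 * alph) * 0 + 600 ^ 9 * 0))) :=
    ((t1.const_mul _).add (t2.const_mul _)).const_mul _
  have e0 : C * (600 ^ (3 * alph) * 0 + 600 ^ 9 * 0) = 0 := by ring
  rw [e0] at t3
  have t4 := t3.eventually_le_const (Real.exp_pos (-20))
  filter_upwards [t4, eventually_ge_atTop 1] with x hx hx1 p hp0 hp D hD0 hD hC
  refine le_trans ?_ hx
  have hx0 : 0 < x := by linarith
  apply mul_le_mul_of_nonneg_left _ hC.le
  have hp3 : p ^ 3 ≤ x ^ (-(3 * (1 + ε) * alph)) := by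
    calc p ^ 3 ≤ (x ^ (-((1 + ε) * alph))) ^ 3 := pow_le_pow_left₀ hp0 hp 3
      _ = x ^ (-((1 + ε) * alph) * (3 : ℕ)) := by rw [Real.rpow_mul_natCast hx0.le]
      _ = x ^ (-(3 * (1 + ε) * alph)) := by congr 1; push_cast; ring
  have hp4 : p ^ 4 ≤ x ^ (-(4 * (1 + ε) * alph)) := by
    calc p ^ 4 ≤ (x ^ (-((1 + ε) * alph))) ^ 4 := pow_le_pow_left₀ hp0 hp 4
      _ = x ^ (-((1 + ε) * alph) * (4 : ℕ)) := by rw [Real.rpow_mul_natCast hx0.le]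
      _ = x ^ (-(4 * (1 + ε) * alph)) := by congr 1; push_cast; ring
  have hD3 : D ^ (3 * alph) ≤ 600 ^ (3 * alph) * x ^ (3 * alph) := by
    rw [← Real.mul_rpow (by norm_num) hx0.le]
    exact Real.rpow_le_rpow hD0 hD (by linarith)
  have hD9 : D ^ 9 ≤ 600 ^ 9 * x ^ (9 : ℝ) := by
    have : x ^ (9 : ℝ) = x ^ 9 := by exact_mod_cast Real.rpow_natCast x 9
    rw [this, ← mul_pow]
    exact pow_le_pow_left₀ hD0 hD 9
  apply add_le_add
  · calc D ^ (3 * alph) * p ^ 3 ≤ (600 ^ (3 * alph) * x ^ (3 * alph)) *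
          x ^ (-(3 * (1 + ε) * alph)) := by
          apply mul_le_mul hD3 hp3 (by positivity) (by positivity)
      _ = 600 ^ (3 * alph) * x ^ (-(3 * ε * alph)) := by
          rw [mul_assoc, ← Real.rpow_add hx0]
          congr 2
          ring
  · calc D ^ 9 * p ^ 4 ≤ (600 ^ 9 * x ^ (9 : ℝ)) * x ^ (-(4 * (1 + ε) * alph)) := by
          apply mul_le_mul hD9 hp4 (by positivity) (by positivity)
      _ = 600 ^ 9 * x ^ (-(4 * (1 + ε) * alph - 9)) := by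
          rw [mul_assoc, ← Real.rpow_add hx0]
          congr 2
          ring

theorem lower_prob {ε : ℝ} (hε : 0 < ε) : ∀ᶠ n : ℕ in Filter.atTop, ∀ p : ℝ, 0 ≤ p →
    p ≤ Real.log ((n : ℝ) + 1) ^ (-((1 + ε) * alph)) →
    Pr p (fun A : Finset (Fin 7 → ZMod (n + 1)) => Perc (lift A)) < 1 / 2 := by
  obtain ⟨C, hC, hcount⟩ := count_bound
  have ha : 8 / 3 ≤ alph := by
    have := one_le_logb
    have := alph_three
    linarith
  have hcast : Tendsto (fun n : ℕ => (n : ℝ) + 1) atTop atTop :=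
    tendsto_atTop_add_const_right _ _ tendsto_natCast_atTop_atTop
  have hlog : Tendsto (fun n : ℕ => Real.log ((n : ℝ) + 1)) atTop atTop :=
    Real.tendsto_log_atTop.comp hcast
  have ev1 := hlog.eventually (eta_small hε (C := C))
  have ev2 := hlog.eventually (eventually_ge_atTop 1)
  have ev3 : ∀ᶠ n : ℕ in atTop, 1200 * Real.log ((n : ℝ) + 1) < (n : ℝ) + 1 := by
    have h1 := Real.isLittleO_log_id_atTop.def (show (0 : ℝ) < 1 / 2400 by norm_num)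
    have h2 := hcast.eventually h1
    filter_upwards [h2, ev2] with n hn hn2
    have h3 : (0 : ℝ) < (n : ℝ) + 1 := by positivity
    rw [Real.norm_of_nonneg (by linarith), id, Real.norm_of_nonneg h3.le] at hn
    linarith
  filter_upwards [ev1, ev2, ev3] with n h1 h2 h3 p hp0 hp
  set x := Real.log ((n : ℝ) + 1) with hx
  set k := ⌈x⌉₊ + 1 with hk
  have hn0 : (0 : ℝ) < (n : ℝ) + 1 := by positivity
  have hkx : x + 1 ≤ (k : ℝ) := by
    rw [hk]; push_cast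
    linarith [Nat.le_ceil x]
  have hkx2 : (k : ℝ) ≤ x + 2 := by
    rw [hk]; push_cast
    linarith [Nat.ceil_lt_add_one (show 0 ≤ x by linarith)]
  have hDx : ((160 * k + 42 : ℕ) : ℝ) ≤ 600 * x := by
    push_cast
    linarith
  have hDN : 2 * (160 * k + 42) < n + 1 := by
    have : ((2 * (160 * k + 42) : ℕ) : ℝ) < ((n + 1 : ℕ) : ℝ) := by
      push_cast at hDx ⊢
      linarith
    exact_mod_cast this
  have hp1 : p ≤ 1 := by
    refine hp.trans (Real.rpow_le_one_of_one_le_of_nonpos h2 ?_)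
    have : 0 < (1 + ε) * alph := by positivity
    linarith
  have hη := h1 p hp0 hp ((160 * k + 42 : ℕ) : ℝ) (by positivity) hDx hC
  have hη2 := (hcount (160 * k + 42) (by omega) p hp0).trans hη
  have hfin := Pr_perc_le (N := n + 1) k hDN hp0 hp1 hη2
  refine hfin.trans_lt ?_
  have hN : (((n + 1 : ℕ) : ℝ)) = Real.exp x := by
    rw [hx, Real.exp_log hn0]; push_cast; ring
  rw [hN, ← Real.exp_nat_mul, ← Real.exp_nat_mul, mul_assoc, ← Real.exp_add]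
  have h5 : ((7 : ℕ) : ℝ) * x + (k : ℝ) * (-20) ≤ -20 := by
    push_cast
    linarith
  have h6 : Real.exp (((7 : ℕ) : ℝ) * x + (k : ℝ) * (-20)) ≤ Real.exp (-20) :=
    Real.exp_le_exp.2 h5
  have h7 : Real.exp (-20) ≤ 1 / 21 := by
    rw [Real.exp_neg, inv_eq_one_div]
    apply one_div_le_one_div_of_le (by norm_num)
    have := Real.add_one_le_exp (20 : ℝ)
    linarith
  calc 7 * Real.exp (((7 : ℕ) : ℝ) * x + (k : ℝ) * (-20)) ≤ 7 * Real.exp (-20) :=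
        mul_le_mul_of_nonneg_left h6 (by norm_num)
    _ ≤ 7 * (1 / 21) := mul_le_mul_of_nonneg_left h7 (by norm_num)
    _ < 1 / 2 := by norm_num

end Pool.Agent.Boot
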