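import Mathlib
import Pool.Agent.Boot.Defs
import Pool.Agent.Boot.Growth
import Pool.Agent.Boot.Pascal
import Pool.Agent.Boot.Prob

set_option autoImplicit false
set_option linter.unusedSectionVars false

open Set

namespace Pool.Agent.Boot.Up

section generic

variable {V : Type*} [Fintype V] [DecidableEq V] {p : ℝ}

theorem dep_mono {E : Finset V → Prop} {S S' : Finset V} (h : Dep E S) (hS : S ⊆ S') : Dep E S' := by
  intro A B hAB
  apply h
  have : A ∩ S' ∩ S = B ∩ S' ∩ S := by rw [hAB]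
  rwa [Finset.inter_assoc, Finset.inter_assoc, Finset.inter_eq_right.2 hS] at this

theorem dep_not {E : Finset V → Prop} {S : Finset V} (h : Dep E S) : Dep (fun A => ¬ E A) S :=
  fun A B hAB => not_congr (h A B hAB)

theorem dep_and {E F : Finset V → Prop} {S : Finset V} (hE : Dep E S) (hF : Dep F S) :
    Dep (fun A => E A ∧ F A) S :=
  fun A B hAB => and_congr (hE A B hAB) (hF A B hAB)

theorem dep_forall {ι : Type*} {s : Finset ι} {E : ι → Finset V → Prop} {S : Finset V}
    (h : ∀ i ∈ s, Dep (E i) S) : Dep (fun A => ∀ i ∈ s, E i A) S :=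
  fun A B hAB => forall_congr' fun i => forall_congr' fun hi => h i hi A B hAB

theorem dep_exists {ι : Type*} {s : Finset ι} {E : ι → Finset V → Prop} {S : Finset V}
    (h : ∀ i ∈ s, Dep (E i) S) : Dep (fun A => ∃ i ∈ s, E i A) S :=
  fun A B hAB => exists_congr fun i => and_congr_right fun hi => h i hi A B hAB

theorem dep_subset (F : Finset V) : Dep (fun A => F ⊆ A) F := by
  intro A B hAB
  constructor
  · intro h x hx
    have : x ∈ A ∩ F := Finset.mem_inter.2 ⟨h hx, hx⟩
    rw [hAB] at this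
    exact (Finset.mem_inter.1 this).1
  · intro h x hx
    have : x ∈ B ∩ F := Finset.mem_inter.2 ⟨h hx, hx⟩
    rw [← hAB] at this
    exact (Finset.mem_inter.1 this).1

theorem dep_mem (F : Finset V) : Dep (fun A => ∃ x ∈ F, x ∈ A) F := by
  apply dep_exists
  intro x hx A B hAB
  constructor
  · intro h
    have : x ∈ A ∩ F := Finset.mem_inter.2 ⟨h, hx⟩
    rw [hAB] at this
    exact (Finset.mem_inter.1 this).1
  · intro h
    have : x ∈ B ∩ F := Finset.mem_inter.2 ⟨h, hx⟩
    rw [← hAB] at this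
    exact (Finset.mem_inter.1 this).1

theorem Pr_congr (p : ℝ) {E F : Finset V → Prop} (h : ∀ A, E A ↔ F A) : Pr p E = Pr p F := by
  have : E = F := funext fun A => propext (h A)
  rw [this]

theorem Pr_le_one (h0 : 0 ≤ p) (h1 : p ≤ 1) (E : Finset V → Prop) : Pr p E ≤ 1 := by
  rw [← Pr_true (V := V) p]
  exact Pr_mono h0 h1 (fun _ _ => trivial)

/-- two exclusive events -/
theorem Pr_or_disjoint {E F : Finset V → Prop} (hd : ∀ A, E A → ¬ F A) :
    Pr p (fun A => E A ∨ F A) = Pr p E + Pr p F := by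
  have h := Pr_exists_disjoint (p := p) (V := V) (Finset.univ : Finset Bool)
    (fun b => if b then E else F) (by
      intro A i _ j _ hi hj
      cases i <;> cases j <;> simp only [Bool.false_eq_true, if_false, if_true] at hi hj <;>
        first
        | rfl
        | exact absurd hi (hd A hj)
        | exact absurd hj (hd A hi))
  rw [Fintype.sum_bool] at h
  simp only [Bool.false_eq_true, if_false, if_true] at h
  rw [← h]
  apply Pr_congr
  intro A
  constructor
  · rintro (hA | hA)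
    · exact ⟨true, Finset.mem_univ _, by simpa using hA⟩
    · exact ⟨false, Finset.mem_univ _, by simpa using hA⟩
  · rintro ⟨b, -, hb⟩
    cases b
    · right; simpa using hb
    · left; simpa using hb

/-- some site of a large set is present -/
theorem Pr_mem_ge (h0 : 0 ≤ p) (h1 : p ≤ 1) (F : Finset V) {K : ℕ} (hK : K ≤ F.card) :
    1 - (1 - p) ^ K ≤ Pr p (fun A => ∃ x ∈ F, x ∈ A) := by
  have h2 : Pr p (fun A => ∃ x ∈ F, x ∈ A) = 1 - Pr p (fun A => ∀ x ∈ F, x ∉ A) := by
    rw [← Pr_not]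
    apply Pr_congr
    intro A
    push Not
    rfl
  have h3 : Pr p (fun A => ∀ x ∈ F, x ∉ A) = ∏ x ∈ F, (1 - p) := by
    rw [Pr_forall F (fun x A => x ∉ A) (fun x => {x})]
    · apply Finset.prod_congr rfl
      intro x _
      rw [Pr_not]
      have : Pr p (fun A : Finset V => x ∈ A) = p := by
        have := Pr_subset h1 ({x} : Finset V)
        simpa using this
      rw [this]
    · intro x _
      apply dep_not
      intro A B hAB
      have := dep_subset ({x} : Finset V) A B hAB
      simpa using this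
    · intro x _ y _ hxy
      simpa using hxy
  rw [h2, h3, Finset.prod_const]
  have h4 : (1 - p) ^ F.card ≤ (1 - p) ^ K := pow_le_pow_of_le_one (by linarith) (by linarith) hK
  linarith

/-- Two-stage lemma: some pair and some site of the target set attached to this pair. -/
theorem two_stage (h0 : 0 ≤ p) (h1 : p ≤ 1) {ι : Type*} [DecidableEq ι] (S : Finset ι)
    (c t : ι → Finset V) (K : ℕ)
    (hct : ∀ u ∈ S, ∀ u' ∈ S, Disjoint (c u) (t u'))
    (hcc : ∀ u ∈ S, ∀ u' ∈ S, u ≠ u' → Disjoint (c u) (c u'))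
    (hc : ∀ u ∈ S, (c u).card ≤ 2) (hK : ∀ u ∈ S, K ≤ (t u).card) :
    (1 - (1 - p) ^ K) * (1 - (1 - p ^ 2) ^ S.card) ≤
      Pr p (fun A => ∃ u ∈ S, c u ⊆ A ∧ ∃ x ∈ t u, x ∈ A) := by
  have hg0 : 0 ≤ 1 - (1 - p) ^ K := by
    have : (1 - p) ^ K ≤ 1 := pow_le_one₀ (by linarith) (by linarith)
    linarith
  have hp2 : p ^ 2 ≤ 1 := pow_le_one₀ h0 h1
  induction S using Finset.induction_on with
  | empty =>
    simp only [Finset.card_empty, pow_zero, sub_self, mul_zero]
    exact Pr_nonneg h0 h1 _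
  | insert v S hv ih =>
    have ih' := ih (fun u hu u' hu' => hct u (Finset.mem_insert_of_mem hu) u' (Finset.mem_insert_of_mem hu'))
      (fun u hu u' hu' => hcc u (Finset.mem_insert_of_mem hu) u' (Finset.mem_insert_of_mem hu'))
      (fun u hu => hc u (Finset.mem_insert_of_mem hu)) (fun u hu => hK u (Finset.mem_insert_of_mem hu))
    set f := Pr p (fun A => ∃ u ∈ S, c u ⊆ A ∧ ∃ x ∈ t u, x ∈ A) with hf
    have hvi : v ∈ insert v S := Finset.mem_insert_self _ _
    have hle : Pr p (fun A => (c v ⊆ A ∧ ∃ x ∈ t v, x ∈ A) ∨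
        (¬ c v ⊆ A ∧ ∃ u ∈ S, c u ⊆ A ∧ ∃ x ∈ t u, x ∈ A)) ≤
        Pr p (fun A => ∃ u ∈ insert v S, c u ⊆ A ∧ ∃ x ∈ t u, x ∈ A) := by
      apply Pr_mono h0 h1
      rintro A (h | ⟨-, u, hu, h⟩)
      · exact ⟨v, hvi, h⟩
      · exact ⟨u, Finset.mem_insert_of_mem hu, h⟩
    refine le_trans ?_ hle
    rw [Pr_or_disjoint (fun A h h' => h'.1 h.1)]
    have e1 : Pr p (fun A => c v ⊆ A ∧ ∃ x ∈ t v, x ∈ A) =
        p ^ (c v).card * Pr p (fun A => ∃ x ∈ t v, x ∈ A) := by
      rw [Pr_and (dep_subset (c v)) (dep_mem (t v)) (hct v hvi v hvi), Pr_subset h1]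
    have e2 : Pr p (fun A => ¬ c v ⊆ A ∧ ∃ u ∈ S, c u ⊆ A ∧ ∃ x ∈ t u, x ∈ A) =
        (1 - p ^ (c v).card) * f := by
      rw [Pr_and (S := c v) (S' := S.biUnion (fun u => c u ∪ t u)) (dep_not (dep_subset (c v))),
        Pr_not, Pr_subset h1]
      · apply dep_exists
        intro u hu
        apply dep_and
        · exact dep_mono (dep_subset (c u)) (Finset.subset_union_left.trans
            (Finset.subset_biUnion_of_mem (fun u => c u ∪ t u) hu))
        · exact dep_mono (dep_mem (t u)) (Finset.subset_union_right.trans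
            (Finset.subset_biUnion_of_mem (fun u => c u ∪ t u) hu))
      · rw [Finset.disjoint_biUnion_right]
        intro u hu
        rw [Finset.disjoint_union_right]
        refine ⟨hcc v hvi u (Finset.mem_insert_of_mem hu) ?_, hct v hvi u (Finset.mem_insert_of_mem hu)⟩
        rintro rfl
        exact hv hu
    rw [e1, e2, Finset.card_insert_of_notMem hv]
    have hκ : p ^ 2 ≤ p ^ (c v).card := pow_le_pow_of_le_one h0 h1 (hc v hvi)
    have hκ1 : p ^ (c v).card ≤ 1 := pow_le_one₀ h0 h1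
    have hτ := Pr_mem_ge h0 h1 (t v) (hK v hvi)
    set κ := p ^ (c v).card with hκdef
    set τ := Pr p (fun A => ∃ x ∈ t v, x ∈ A) with hτdef
    set g := 1 - (1 - p) ^ K with hgdef
    set m := (1 - p ^ 2) ^ S.card with hm
    have hm0 : 0 ≤ m := pow_nonneg (by linarith) _
    have hκ0 : 0 ≤ κ := pow_nonneg h0 _
    calc g * (1 - (1 - p ^ 2) ^ (S.card + 1)) = g * (1 - m * (1 - p ^ 2)) := by rw [pow_succ]
      _ ≤ g * (1 - m * (1 - κ)) := by
          apply mul_le_mul_of_nonneg_left _ hg0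
          nlinarith
      _ = κ * g + (1 - κ) * (g * (1 - m)) := by ring
      _ ≤ κ * τ + (1 - κ) * f := by
          apply add_le_add
          · exact mul_le_mul_of_nonneg_left hτ hκ0
          · exact mul_le_mul_of_nonneg_left ih' (by linarith)

/-- numerical form -/
theorem one_sub_pow_ge {p : ℝ} (h0 : 0 ≤ p) (h1 : p ≤ 1) {K : ℕ} {x : ℝ} (hx : x ≤ K) (hx0 : 0 ≤ x)
    (hpx : p * x ≤ 1) : p * x / 2 ≤ 1 - (1 - p) ^ K := by
  have h2 : (1 - p) ^ K ≤ Real.exp (-(p * K)) := by
    have := Real.one_sub_le_exp_neg p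
    calc (1 - p) ^ K ≤ (Real.exp (-p)) ^ K := pow_le_pow_left₀ (by linarith) this K
      _ = Real.exp (-(p * K)) := by rw [← Real.exp_nat_mul]; congr 1; ring
  have h3 : Real.exp (-(p * K)) ≤ Real.exp (-(p * x)) :=
    Real.exp_le_exp.2 (by nlinarith)
  have h4 : Real.exp (-(p * x)) ≤ 1 - p * x / 2 := by
    have hy0 : 0 ≤ p * x := mul_nonneg h0 hx0
    have h5 : (1 + p * x) * Real.exp (-(p * x)) ≤ 1 := by
      have := Real.add_one_le_exp (p * x)
      calc (1 + p * x) * Real.exp (-(p * x)) ≤ Real.exp (p * x) * Real.exp (-(p * x)) := by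
            apply mul_le_mul_of_nonneg_right _ (Real.exp_pos _).le
            linarith
        _ = 1 := by rw [← Real.exp_add, add_neg_cancel, Real.exp_zero]
    have h6 : 1 ≤ (1 + p * x) * (1 - p * x / 2) := by nlinarith
    have h7 : (1 + p * x) * Real.exp (-(p * x)) ≤ (1 + p * x) * (1 - p * x / 2) := h5.trans h6
    exact le_of_mul_le_mul_left h7 (by linarith)
  linarith

/-- independent attempts -/
theorem Pr_forall_not_le (h0 : 0 ≤ p) (h1 : p ≤ 1) {ι : Type*} (s : Finset ι)
    (E : ι → Finset V → Prop) (S : ι → Finset V) (hE : ∀ i ∈ s, Dep (E i) (S i))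
    (hd : ∀ i ∈ s, ∀ j ∈ s, i ≠ j → Disjoint (S i) (S j)) {q : ℝ}
    (hq : ∀ i ∈ s, q ≤ Pr p (E i)) :
    Pr p (fun A => ∀ i ∈ s, ¬ E i A) ≤ Real.exp (-(q * s.card)) := by
  rw [Pr_forall s (fun i A => ¬ E i A) S (fun i hi => dep_not (hE i hi)) hd]
  calc ∏ i ∈ s, Pr p (fun A => ¬ E i A) ≤ ∏ i ∈ s, Real.exp (-q) := by
        apply Finset.prod_le_prod
        · intro i _; exact Pr_nonneg h0 h1 _
        · intro i hi
          rw [Pr_not]
          have := Real.one_sub_le_exp_neg q
          linarith [hq i hi]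
    _ = Real.exp (-(q * s.card)) := by
        rw [Finset.prod_const, ← Real.exp_nat_mul]
        congr 1
        ring

end generic

end Pool.Agent.Boot.Up
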