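import Pool.Agent.Boot.UpA

set_option autoImplicit false
set_option linter.unusedSectionVars false

open Set

namespace Pool.Agent.Boot.Up

section geom

variable {N : ℕ} [NeZero N]

theorem cast_inj {x y a : Fin 7 → ℤ} (hx : ∀ t, a t ≤ x t ∧ x t < a t + N)
    (hy : ∀ t, a t ≤ y t ∧ y t < a t + N)
    (h : (fun t => ((x t : ℤ) : ZMod N)) = fun t => ((y t : ℤ) : ZMod N)) : x = y := by
  funext t
  have h1 := (ZMod.intCast_eq_intCast_iff_dvd_sub _ _ _).1 (congrFun h t)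
  have h2 : y t - x t = 0 := by
    apply Int.eq_zero_of_abs_lt_dvd h1
    rw [abs_lt]
    have := hx t
    have := hy t
    constructor <;> omega
  omega

/-- the torus site with coordinates `v` in the layer `x i = a i + ℓ` -/
def site (i : Fin 7) (a : Fin 7 → ℤ) (ℓ : ℕ) (v : Fin 6 → ℤ) : Fin 7 → ZMod N :=
  fun t => (((a + (i.insertNth (ℓ : ℤ) v : Fin 7 → ℤ)) t : ℤ) : ZMod N)

theorem mem_lift_site {i : Fin 7} {a : Fin 7 → ℤ} {ℓ : ℕ} {v : Fin 6 → ℤ}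
    {A : Finset (Fin 7 → ZMod N)} :
    a + (i.insertNth (ℓ : ℤ) v : Fin 7 → ℤ) ∈ lift A ↔ site i a ℓ v ∈ A := Iff.rfl

theorem box_of_layer {i : Fin 7} {a : Fin 7 → ℤ} {ℓ : ℕ} (hℓ : ℓ < N) {v : Fin 6 → ℤ}
    (hv : ∀ j, 0 ≤ v j ∧ v j < ℓ) (t : Fin 7) :
    a t ≤ (a + (i.insertNth (ℓ : ℤ) v : Fin 7 → ℤ)) t ∧
      (a + (i.insertNth (ℓ : ℤ) v : Fin 7 → ℤ)) t < a t + N := by
  have hℓ' : (ℓ : ℤ) < N := by exact_mod_cast hℓ
  rcases Fin.eq_self_or_eq_succAbove i t with rfl | ⟨j, rfl⟩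
  · simp only [Pi.add_apply, Fin.insertNth_apply_same]
    constructor <;> omega
  · simp only [Pi.add_apply, Fin.insertNth_apply_succAbove]
    have := hv j
    constructor <;> omega

theorem site_inj {i : Fin 7} {a : Fin 7 → ℤ} {ℓ : ℕ} (hℓ : ℓ < N) {v v' : Fin 6 → ℤ}
    (hv : ∀ j, 0 ≤ v j ∧ v j < ℓ) (hv' : ∀ j, 0 ≤ v' j ∧ v' j < ℓ)
    (h : (site i a ℓ v : Fin 7 → ZMod N) = site i a ℓ v') : v = v' := by
  have h1 := cast_inj (box_of_layer (a := a) (i := i) hℓ hv) (box_of_layer (a := a) (i := i) hℓ hv') h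
  have h2 : (i.insertNth (ℓ : ℤ) v : Fin 7 → ℤ) = i.insertNth (ℓ : ℤ) v' := add_left_cancel h1
  funext j
  have := congrFun h2 (i.succAbove j)
  simpa only [Fin.insertNth_apply_succAbove] using this

/-- the layer -/
noncomputable def LamF (i : Fin 7) (a : Fin 7 → ℤ) (ℓ : ℕ) : Finset (Fin 7 → ZMod N) :=
  open Classical in
  Finset.univ.filter fun y => ∃ v : Fin 6 → ℤ, (∀ j, 0 ≤ v j ∧ v j < ℓ) ∧ site i a ℓ v = y

theorem mem_LamF {i : Fin 7} {a : Fin 7 → ℤ} {ℓ : ℕ} {y : Fin 7 → ZMod N} :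
    y ∈ LamF i a ℓ ↔ ∃ v : Fin 6 → ℤ, (∀ j, 0 ≤ v j ∧ v j < ℓ) ∧ site i a ℓ v = y := by
  classical
  unfold LamF
  simp

theorem mem_iff_of_inter {V : Type*} [DecidableEq V] {A B S : Finset V} (h : A ∩ S = B ∩ S) {x : V}
    (hx : x ∈ S) : x ∈ A ↔ x ∈ B := by
  constructor
  · intro hA
    have : x ∈ A ∩ S := Finset.mem_inter.2 ⟨hA, hx⟩
    rw [h] at this
    exact (Finset.mem_inter.1 this).1
  · intro hB
    have : x ∈ B ∩ S := Finset.mem_inter.2 ⟨hB, hx⟩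
    rw [← h] at this
    exact (Finset.mem_inter.1 this).1

theorem fin6 : ∀ j : Fin 6, j = 0 ∨ j = 1 ∨ j = 2 ∨ j = 3 ∨ j = 4 ∨ j = 5 := by decide

theorem ff0 (t : ℤ) : ff t 0 = 0 := rfl
theorem ff1 (t : ℤ) : ff t 1 = 0 := rfl
theorem ff2 (t : ℤ) : ff t 2 = 0 := rfl
theorem ff3 (t : ℤ) : ff t 3 = t := rfl
theorem ff4 (t : ℤ) : ff t 4 = 0 := rfl
theorem ff5 (t : ℤ) : ff t 5 = 0 := rfl
theorem cv0 (m n k : ℕ) : cv m n k 0 = 2 * (m : ℤ) := rfl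
theorem cv1 (m n k : ℕ) : cv m n k 1 = 2 * (n : ℤ) := rfl
theorem cv2 (m n k : ℕ) : cv m n k 2 = 2 * (k : ℤ) := rfl
theorem cv3 (m n k : ℕ) : cv m n k 3 = 0 := rfl
theorem cv4 (m n k : ℕ) : cv m n k 4 = 0 := rfl
theorem cv5 (m n k : ℕ) : cv m n k 5 = 0 := rfl

theorem trig_bounds {ℓ : ℕ} {v : Fin 6 → ℤ} {m n k : ℕ}
    (h1 : ∀ j, 2 ≤ v j ∧ v j + 10 ≤ ℓ) (h2 : v 0 + 2 * m + 10 ≤ ℓ) (h3 : v 1 + 2 * n + 10 ≤ ℓ)
    (h4 : v 2 + 2 * k + 10 ≤ ℓ) : (∀ j, 0 ≤ v j ∧ v j < ℓ) ∧ (∀ j, 0 ≤ (v + ff 2) j ∧ (v + ff 2) j < ℓ) ∧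
    (∀ j, 0 ≤ (v + cv m n k + ff (-1)) j ∧ (v + cv m n k + ff (-1)) j < ℓ) := by
  have a0 := h1 0
  have a1 := h1 1
  have a2 := h1 2
  have a3 := h1 3
  have a4 := h1 4
  have a5 := h1 5
  refine ⟨fun j => ?_, fun j => ?_, fun j => ?_⟩
  · have := h1 j
    constructor <;> omega
  · rcases fin6 j with rfl | rfl | rfl | rfl | rfl | rfl <;>
      simp only [Pi.add_apply, ff0, ff1, ff2, ff3, ff4, ff5] <;> constructor <;> omega
  · rcases fin6 j with rfl | rfl | rfl | rfl | rfl | rfl <;>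
      simp only [Pi.add_apply, ff0, ff1, ff2, ff3, ff4, ff5, cv0, cv1, cv2, cv3, cv4, cv5] <;>
      constructor <;> omega

theorem dep_trig (i : Fin 7) (a : Fin 7 → ℤ) (ℓ : ℕ) :
    Dep (fun A : Finset (Fin 7 → ZMod N) => Trig i a ℓ (lift A)) (LamF i a ℓ) := by
  have key : ∀ A B : Finset (Fin 7 → ZMod N), A ∩ LamF i a ℓ = B ∩ LamF i a ℓ →
      Trig i a ℓ (lift A) → Trig i a ℓ (lift B) := by
    rintro A B hAB ⟨v, m, n, k, hm, hn, hk, hodd, h1, h2, h3, h4, s1, s2, s3⟩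
    obtain ⟨b1, b2, b3⟩ := trig_bounds h1 h2 h3 h4
    rw [mem_lift_site] at s1 s2 s3
    exact ⟨v, m, n, k, hm, hn, hk, hodd, h1, h2, h3, h4,
      (mem_iff_of_inter hAB (mem_LamF.2 ⟨_, b1, rfl⟩)).1 s1,
      (mem_iff_of_inter hAB (mem_LamF.2 ⟨_, b2, rfl⟩)).1 s2,
      (mem_iff_of_inter hAB (mem_LamF.2 ⟨_, b3, rfl⟩)).1 s3⟩
  exact fun A B hAB => ⟨key A B hAB, key B A hAB.symm⟩

theorem disj_layers {i i' : Fin 7} {a : Fin 7 → ℤ} {ℓ ℓ' : ℕ} (hℓ : ℓ < N) (hℓ' : ℓ' < N)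
    (hne : (i, ℓ) ≠ (i', ℓ')) :
    Disjoint (LamF i a ℓ : Finset (Fin 7 → ZMod N)) (LamF i' a ℓ') := by
  rw [Finset.disjoint_left]
  intro y hy hy'
  obtain ⟨v, hv, rfl⟩ := mem_LamF.1 hy
  obtain ⟨v', hv', h⟩ := mem_LamF.1 hy'
  have h1 := cast_inj (box_of_layer (a := a) (i := i') hℓ' hv') (box_of_layer (a := a) (i := i) hℓ hv) h
  have h2 : (i'.insertNth (ℓ' : ℤ) v' : Fin 7 → ℤ) = i.insertNth (ℓ : ℤ) v := add_left_cancel h1
  by_cases hi : i = i'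
  · subst hi
    have := congrFun h2 i
    simp only [Fin.insertNth_apply_same] at this
    apply hne
    have : ℓ' = ℓ := by exact_mod_cast this
    rw [this]
  · have e1 := congrFun h2 i
    have e2 := congrFun h2 i'
    rcases Fin.eq_self_or_eq_succAbove i' i with h3 | ⟨j, h3⟩
    · exact hi h3
    rcases Fin.eq_self_or_eq_succAbove i i' with h4 | ⟨j', h4⟩
    · exact hi h4.symm
    have e1' : v' j = ℓ := by
      rw [Fin.insertNth_apply_same] at e1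
      rw [← e1]
      conv_rhs => rw [h3]
      rw [Fin.insertNth_apply_succAbove]
    have e2' : (ℓ' : ℤ) = v j' := by
      rw [Fin.insertNth_apply_same] at e2
      rw [e2]
      conv_lhs => rw [h4]
      rw [Fin.insertNth_apply_succAbove]
    have f1 := hv' j
    have f2 := hv j'
    omega

theorem Pr_trig_ge {p : ℝ} (h0 : 0 ≤ p) (h1 : p ≤ 1) (i : Fin 7) (a : Fin 7 → ℤ) {ℓ : ℕ}
    (hℓ : 40 ≤ ℓ) : p ^ 3 ≤ Pr p (fun A : Finset (Fin 7 → ZMod N) => Trig i a ℓ (lift A)) := by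
  classical
  let v : Fin 6 → ℤ := fun _ => 2
  let F : Finset (Fin 7 → ZMod N) := {site i a ℓ v, site i a ℓ (v + ff 2),
    site i a ℓ (v + cv 1 2 1 + ff (-1))}
  have hF : F.card ≤ 3 := Finset.card_le_three
  calc p ^ 3 ≤ p ^ F.card := pow_le_pow_of_le_one h0 h1 hF
    _ = Pr p (fun A => F ⊆ A) := (Pr_subset h1 F).symm
    _ ≤ _ := by
      apply Pr_mono h0 h1
      intro A hA
      have hℓ' : (40 : ℤ) ≤ ℓ := by exact_mod_cast hℓ
      refine ⟨v, 1, 2, 1, le_rfl, by norm_num, le_rfl, by decide, ?_, ?_, ?_, ?_, ?_, ?_, ?_⟩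
      · intro j
        simp only [v]
        constructor <;> omega
      · simp only [v]; push_cast; omega
      · simp only [v]; push_cast; omega
      · simp only [v]; push_cast; omega
      · rw [mem_lift_site]
        exact hA (Finset.mem_insert_self _ _)
      · rw [mem_lift_site]
        exact hA (Finset.mem_insert_of_mem (Finset.mem_insert_self _ _))
      · rw [mem_lift_site]
        exact hA (Finset.mem_insert_of_mem (Finset.mem_insert_of_mem (Finset.mem_singleton_self _)))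

end geom

end Pool.Agent.Boot.Up
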