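import Pool.Agent.Boot.UpB

set_option autoImplicit false
set_option linter.unusedSectionVars false

open Set

namespace Pool.Agent.Boot.Up

/-- base point of the trial `(w, u)` -/
def vv (w u : ℕ × ℕ × ℕ) : Fin 6 → ℤ :=
  ![2 + (u.1 : ℤ), 2 + (u.2.1 : ℤ), 2 + (u.2.2 : ℤ), 2 + 10 * (w.1 : ℤ), 2 + (w.2.1 : ℤ), 2 + (w.2.2 : ℤ)]

theorem vv0 (w u : ℕ × ℕ × ℕ) : vv w u 0 = 2 + (u.1 : ℤ) := rfl
theorem vv1 (w u : ℕ × ℕ × ℕ) : vv w u 1 = 2 + (u.2.1 : ℤ) := rfl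
theorem vv2 (w u : ℕ × ℕ × ℕ) : vv w u 2 = 2 + (u.2.2 : ℤ) := rfl
theorem vv3 (w u : ℕ × ℕ × ℕ) : vv w u 3 = 2 + 10 * (w.1 : ℤ) := rfl
theorem vv4 (w u : ℕ × ℕ × ℕ) : vv w u 4 = 2 + (w.2.1 : ℤ) := rfl
theorem vv5 (w u : ℕ × ℕ × ℕ) : vv w u 5 = 2 + (w.2.2 : ℤ) := rfl

/-- positions of the cells inside a fibre -/
def Us (s : ℕ) : Finset (ℕ × ℕ × ℕ) :=
  Finset.range (2 ^ s) ×ˢ Finset.range (2 ^ s) ×ˢ Finset.range (2 ^ s)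

/-- the fibres -/
def Ws (ℓ : ℕ) : Finset (ℕ × ℕ × ℕ) :=
  Finset.range (ℓ / 10 - 1) ×ˢ Finset.range (ℓ - 11) ×ˢ Finset.range (ℓ - 11)

/-- odd cells away from the axes -/
def Od (s : ℕ) : Finset (ℕ × ℕ) :=
  (Finset.Ico 1 (2 ^ s) ×ˢ Finset.Ico 1 (2 ^ s)).filter
      fun t : ℕ × ℕ => (t.1 + t.2).choose t.1 % 2 = 1

def Ts (s : ℕ) : Finset ((ℕ × ℕ) × ℕ) := Od s ×ˢ Finset.Ico 1 (2 ^ s + 1)

theorem mem_Us {s : ℕ} {u : ℕ × ℕ × ℕ} : u ∈ Us s ↔ u.1 < 2 ^ s ∧ u.2.1 < 2 ^ s ∧ u.2.2 < 2 ^ s := by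
  simp [Us]

theorem mem_Ws {ℓ : ℕ} {w : ℕ × ℕ × ℕ} :
    w ∈ Ws ℓ ↔ w.1 < ℓ / 10 - 1 ∧ w.2.1 < ℓ - 11 ∧ w.2.2 < ℓ - 11 := by
  simp [Ws]

theorem mem_Ts {s : ℕ} {x : (ℕ × ℕ) × ℕ} : x ∈ Ts s ↔
    ((1 ≤ x.1.1 ∧ x.1.1 < 2 ^ s) ∧ (1 ≤ x.1.2 ∧ x.1.2 < 2 ^ s) ∧ (x.1.1 + x.1.2).choose x.1.1 % 2 = 1) ∧
      (1 ≤ x.2 ∧ x.2 < 2 ^ s + 1) := by
  simp only [Ts, Od, Finset.mem_product, Finset.mem_filter, Finset.mem_Ico]
  tauto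

theorem card_Us (s : ℕ) : (Us s).card = 8 ^ s := by
  simp only [Us, Finset.card_product, Finset.card_range]
  rw [← mul_assoc, ← mul_pow, ← mul_pow]
  norm_num

theorem card_Ws {ℓ : ℕ} (hℓ : 128 ≤ ℓ) : (ℓ : ℝ) ^ 3 / 48 ≤ (Ws ℓ).card := by
  simp only [Ws, Finset.card_product, Finset.card_range]
  have h1 : ℓ ≤ 12 * (ℓ / 10 - 1) := by omega
  have h2 : ℓ ≤ 2 * (ℓ - 11) := by omega
  have h1' : (ℓ : ℝ) ≤ 12 * ((ℓ / 10 - 1 : ℕ) : ℝ) := by exact_mod_cast h1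
  have h2' : (ℓ : ℝ) ≤ 2 * ((ℓ - 11 : ℕ) : ℝ) := by exact_mod_cast h2
  push_cast
  have hℓ0 : (0 : ℝ) ≤ ℓ := Nat.cast_nonneg ℓ
  set A : ℝ := ((ℓ / 10 - 1 : ℕ) : ℝ)
  set B : ℝ := ((ℓ - 11 : ℕ) : ℝ)
  have hA : (ℓ : ℝ) / 12 ≤ A := by linarith
  have hB : (ℓ : ℝ) / 2 ≤ B := by linarith
  calc (ℓ : ℝ) ^ 3 / 48 = (ℓ / 12) * ((ℓ / 2) * (ℓ / 2)) := by ring
    _ ≤ A * (B * B) := by
        apply mul_le_mul hA _ (by positivity) (by linarith)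
        exact mul_le_mul hB hB (by positivity) (by linarith)

theorem card_Ts {s : ℕ} (hs : 5 ≤ s) : (6 : ℝ) ^ s / 2 ≤ (Ts s).card := by
  have h1 := inner_odd_ge hs
  have h2 : (Ts s).card = (Od s).card * 2 ^ s := by
    simp [Ts, Finset.card_product]
  have h3 : (3 : ℝ) ^ s ≤ 2 * ((Od s).card : ℝ) := by exact_mod_cast h1
  rw [h2]
  push_cast
  have h4 : (6 : ℝ) ^ s = 3 ^ s * 2 ^ s := by rw [← mul_pow]; norm_num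
  rw [h4]
  have : (0 : ℝ) < 2 ^ s := by positivity
  nlinarith

/-- all coordinates are in range -/
theorem ranges {s ℓ : ℕ} (hs : 5 ≤ s) (hℓ : 4 * 2 ^ s ≤ ℓ) {w u : ℕ × ℕ × ℕ} (hw : w ∈ Ws ℓ)
    (hu : u ∈ Us s) :
    (∀ j, 2 ≤ vv w u j ∧ vv w u j + 10 ≤ ℓ) ∧ (∀ x ∈ Ts s,
      vv w u 0 + 2 * x.1.1 + 10 ≤ ℓ ∧ vv w u 1 + 2 * x.1.2 + 10 ≤ ℓ ∧ vv w u 2 + 2 * x.2 + 10 ≤ ℓ) := by
  have h32 : 32 ≤ 2 ^ s := by
    calc 32 = 2 ^ 5 := by norm_num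
      _ ≤ 2 ^ s := Nat.pow_le_pow_right (by norm_num) hs
  rw [mem_Us] at hu
  rw [mem_Ws] at hw
  have hT : ∀ x ∈ Ts s, (x.1.1 < 2 ^ s ∧ x.1.2 < 2 ^ s) ∧ x.2 < 2 ^ s + 1 := by
    intro x hx
    rw [mem_Ts] at hx
    exact ⟨⟨hx.1.1.2, hx.1.2.1.2⟩, hx.2.2⟩
  generalize 2 ^ s = q at *
  constructor
  · intro j
    rcases fin6 j with rfl | rfl | rfl | rfl | rfl | rfl <;>
      simp only [vv0, vv1, vv2, vv3, vv4, vv5] <;> constructor <;> omega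
  · intro x hx
    have hx' := hT x hx
    simp only [vv0, vv1, vv2]
    refine ⟨?_, ?_, ?_⟩ <;> omega

section geom

variable {N : ℕ} [NeZero N]

/-- the pair of sites of a cell with the symbol `C` -/
def cc (i : Fin 7) (a : Fin 7 → ℤ) (ℓ : ℕ) (w u : ℕ × ℕ × ℕ) : Finset (Fin 7 → ZMod N) :=
  {site i a ℓ (vv w u), site i a ℓ (vv w u + ff 2)}

/-- the target sites -/
def tt (i : Fin 7) (a : Fin 7 → ℤ) (ℓ s : ℕ) (w u : ℕ × ℕ × ℕ) : Finset (Fin 7 → ZMod N) :=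
  (Ts s).image fun x => site i a ℓ (vv w u + cv x.1.1 x.1.2 x.2 + ff (-1))

theorem all_ranges {s ℓ : ℕ} (hs : 5 ≤ s) (hℓ : 4 * 2 ^ s ≤ ℓ) {w u : ℕ × ℕ × ℕ} (hw : w ∈ Ws ℓ)
    (hu : u ∈ Us s) : (∀ j, 0 ≤ vv w u j ∧ vv w u j < ℓ) ∧
      (∀ j, 0 ≤ (vv w u + ff 2) j ∧ (vv w u + ff 2) j < ℓ) ∧
      (∀ x ∈ Ts s, ∀ j, 0 ≤ (vv w u + cv x.1.1 x.1.2 x.2 + ff (-1)) j ∧
        (vv w u + cv x.1.1 x.1.2 x.2 + ff (-1)) j < ℓ) := by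
  obtain ⟨h1, h2⟩ := ranges hs hℓ hw hu
  refine ⟨fun j => ?_, fun j => ?_, fun x hx j => ?_⟩
  · have := h1 j
    constructor <;> omega
  · have a3 := h1 3
    have aj := h1 j
    rcases fin6 j with rfl | rfl | rfl | rfl | rfl | rfl <;>
      simp only [Pi.add_apply, ff0, ff1, ff2, ff3, ff4, ff5] <;> constructor <;> omega
  · obtain ⟨b0, b1, b2⟩ := h2 x hx
    exact (trig_bounds h1 b0 b1 b2).2.2 j

theorem trial_trig {i : Fin 7} {a : Fin 7 → ℤ} {s ℓ : ℕ} (hs : 5 ≤ s) (hℓ : 4 * 2 ^ s ≤ ℓ)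
    {w u : ℕ × ℕ × ℕ} (hw : w ∈ Ws ℓ) (hu : u ∈ Us s) {A : Finset (Fin 7 → ZMod N)}
    (h1 : cc i a ℓ w u ⊆ A) (h2 : ∃ y ∈ tt i a ℓ s w u, y ∈ A) : Trig i a ℓ (lift A) := by
  obtain ⟨y, hy, hyA⟩ := h2
  unfold tt at hy
  rw [Finset.mem_image] at hy
  obtain ⟨x, hx, rfl⟩ := hy
  obtain ⟨r1, r2⟩ := ranges hs hℓ hw hu
  obtain ⟨b0, b1, b2⟩ := r2 x hx
  have hx' := mem_Ts.1 hx
  refine ⟨vv w u, x.1.1, x.1.2, x.2, hx'.1.1.1, hx'.1.2.1.1, hx'.2.1, hx'.1.2.2, r1, b0, b1, b2, ?_, ?_, ?_⟩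
  · rw [mem_lift_site]
    exact h1 (Finset.mem_insert_self _ _)
  · rw [mem_lift_site]
    exact h1 (Finset.mem_insert_of_mem (Finset.mem_singleton_self _))
  · rw [mem_lift_site]
    exact hyA

/-- all sites used in the fibre `w` -/
noncomputable def Zs (i : Fin 7) (a : Fin 7 → ℤ) (ℓ : ℕ) (w : ℕ × ℕ × ℕ) : Finset (Fin 7 → ZMod N) :=
  open Classical in
  Finset.univ.filter fun y => ∃ v : Fin 6 → ℤ, (∀ j, 0 ≤ v j ∧ v j < ℓ) ∧ v 4 = 2 + (w.2.1 : ℤ) ∧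
    v 5 = 2 + (w.2.2 : ℤ) ∧
    (v 3 = 1 + 10 * (w.1 : ℤ) ∨ v 3 = 2 + 10 * (w.1 : ℤ) ∨ v 3 = 4 + 10 * (w.1 : ℤ)) ∧
    site i a ℓ v = y

theorem mem_Zs {i : Fin 7} {a : Fin 7 → ℤ} {ℓ : ℕ} {w : ℕ × ℕ × ℕ} {y : Fin 7 → ZMod N} :
    y ∈ Zs i a ℓ w ↔ ∃ v : Fin 6 → ℤ, (∀ j, 0 ≤ v j ∧ v j < ℓ) ∧ v 4 = 2 + (w.2.1 : ℤ) ∧
    v 5 = 2 + (w.2.2 : ℤ) ∧
    (v 3 = 1 + 10 * (w.1 : ℤ) ∨ v 3 = 2 + 10 * (w.1 : ℤ) ∨ v 3 = 4 + 10 * (w.1 : ℤ)) ∧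
    site i a ℓ v = y := by
  classical
  unfold Zs
  simp

theorem cc_sub_Zs {i : Fin 7} {a : Fin 7 → ℤ} {s ℓ : ℕ} (hs : 5 ≤ s) (hℓ : 4 * 2 ^ s ≤ ℓ)
    {w u : ℕ × ℕ × ℕ} (hw : w ∈ Ws ℓ) (hu : u ∈ Us s) :
    (cc i a ℓ w u : Finset (Fin 7 → ZMod N)) ⊆ Zs i a ℓ w := by
  obtain ⟨r1, r2, -⟩ := all_ranges hs hℓ hw hu
  intro y hy
  unfold cc at hy
  rw [Finset.mem_insert, Finset.mem_singleton] at hy
  rcases hy with rfl | rfl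
  · exact mem_Zs.2 ⟨_, r1, vv4 w u, vv5 w u, Or.inr (Or.inl (vv3 w u)), rfl⟩
  · refine mem_Zs.2 ⟨_, r2, ?_, ?_, Or.inr (Or.inr ?_), rfl⟩
    · simp only [Pi.add_apply, ff4, vv4]; ring
    · simp only [Pi.add_apply, ff5, vv5]; ring
    · simp only [Pi.add_apply, ff3, vv3]; ring

theorem tt_sub_Zs {i : Fin 7} {a : Fin 7 → ℤ} {s ℓ : ℕ} (hs : 5 ≤ s) (hℓ : 4 * 2 ^ s ≤ ℓ)
    {w u : ℕ × ℕ × ℕ} (hw : w ∈ Ws ℓ) (hu : u ∈ Us s) :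
    (tt i a ℓ s w u : Finset (Fin 7 → ZMod N)) ⊆ Zs i a ℓ w := by
  obtain ⟨-, -, r3⟩ := all_ranges hs hℓ hw hu
  intro y hy
  unfold tt at hy
  rw [Finset.mem_image] at hy
  obtain ⟨x, hx, rfl⟩ := hy
  refine mem_Zs.2 ⟨_, r3 x hx, ?_, ?_, Or.inl ?_, rfl⟩
  · simp only [Pi.add_apply, ff4, vv4, cv4]; ring
  · simp only [Pi.add_apply, ff5, vv5, cv5]; ring
  · simp only [Pi.add_apply, ff3, vv3, cv3]; ring

theorem Zs_disj {i : Fin 7} {a : Fin 7 → ℤ} {ℓ : ℕ} (hN : ℓ < N) {w w' : ℕ × ℕ × ℕ} (hne : w ≠ w') :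
    Disjoint (Zs i a ℓ w : Finset (Fin 7 → ZMod N)) (Zs i a ℓ w') := by
  rw [Finset.disjoint_left]
  intro y hy hy'
  obtain ⟨v, hv, h4, h5, h3, rfl⟩ := mem_Zs.1 hy
  obtain ⟨v', hv', h4', h5', h3', h⟩ := mem_Zs.1 hy'
  have := site_inj hN hv' hv h
  subst this
  apply hne
  obtain ⟨w1, w2, w3⟩ := w
  obtain ⟨w1', w2', w3'⟩ := w'
  simp only at *
  have e1 : w1 = w1' := by omega
  have e2 : w2 = w2' := by omega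
  have e3 : w3 = w3' := by omega
  rw [e1, e2, e3]

theorem cc_tt_disj {i : Fin 7} {a : Fin 7 → ℤ} {s ℓ : ℕ} (hs : 5 ≤ s) (hℓ : 4 * 2 ^ s ≤ ℓ)
    (hN : ℓ < N) {w u u' : ℕ × ℕ × ℕ} (hw : w ∈ Ws ℓ) (hu : u ∈ Us s) (hu' : u' ∈ Us s) :
    Disjoint (cc i a ℓ w u : Finset (Fin 7 → ZMod N)) (tt i a ℓ s w u') := by
  obtain ⟨r1, r2, -⟩ := all_ranges hs hℓ hw hu
  obtain ⟨-, -, r3⟩ := all_ranges hs hℓ hw hu'
  rw [Finset.disjoint_left]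
  intro y hy hy'
  unfold tt at hy'
  rw [Finset.mem_image] at hy'
  obtain ⟨x, hx, h⟩ := hy'
  unfold cc at hy
  rw [Finset.mem_insert, Finset.mem_singleton] at hy
  rcases hy with rfl | rfl
  · have := congrFun (site_inj hN (r3 x hx) r1 h) 3
    simp only [Pi.add_apply, ff3, vv3, cv3] at this
    omega
  · have := congrFun (site_inj hN (r3 x hx) r2 h) 3
    simp only [Pi.add_apply, ff3, vv3, cv3] at this
    omega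

theorem cc_cc_disj {i : Fin 7} {a : Fin 7 → ℤ} {s ℓ : ℕ} (hs : 5 ≤ s) (hℓ : 4 * 2 ^ s ≤ ℓ)
    (hN : ℓ < N) {w u u' : ℕ × ℕ × ℕ} (hw : w ∈ Ws ℓ) (hu : u ∈ Us s) (hu' : u' ∈ Us s)
    (hne : u ≠ u') :
    Disjoint (cc i a ℓ w u : Finset (Fin 7 → ZMod N)) (cc i a ℓ w u') := by
  obtain ⟨r1, r2, -⟩ := all_ranges hs hℓ hw hu
  obtain ⟨r1', r2', -⟩ := all_ranges hs hℓ hw hu'
  rw [Finset.disjoint_left]
  intro y hy hy'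
  unfold cc at hy hy'
  rw [Finset.mem_insert, Finset.mem_singleton] at hy hy'
  have key : ∀ t t' : ℤ, vv w u + ff t = vv w u' + ff t' → u = u' := by
    intro t t' h
    have h0 := congrFun h 0
    have h1 := congrFun h 1
    have h2 := congrFun h 2
    simp only [Pi.add_apply, ff0, ff1, ff2, vv0, vv1, vv2] at h0 h1 h2
    obtain ⟨u1, u2, u3⟩ := u
    obtain ⟨u1', u2', u3'⟩ := u'
    simp only at *
    have e1 : u1 = u1' := by omega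
    have e2 : u2 = u2' := by omega
    have e3 : u3 = u3' := by omega
    rw [e1, e2, e3]
  have hff : ff 0 = 0 := by
    funext j
    rcases fin6 j with rfl | rfl | rfl | rfl | rfl | rfl <;> rfl
  apply hne
  rcases hy with rfl | rfl
  · rcases hy' with h | h
    · exact key 0 0 (by rw [hff, add_zero, add_zero]; exact site_inj hN r1 r1' h)
    · exact key 0 2 (by rw [hff, add_zero]; exact site_inj hN r1 r2' h)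
  · rcases hy' with h | h
    · exact key 2 0 (by rw [hff, add_zero]; exact site_inj hN r2 r1' h)
    · exact key 2 2 (site_inj hN r2 r2' h)

theorem card_tt {i : Fin 7} {a : Fin 7 → ℤ} {s ℓ : ℕ} (hs : 5 ≤ s) (hℓ : 4 * 2 ^ s ≤ ℓ)
    (hN : ℓ < N) {w u : ℕ × ℕ × ℕ} (hw : w ∈ Ws ℓ) (hu : u ∈ Us s) :
    (tt i a ℓ s w u : Finset (Fin 7 → ZMod N)).card = (Ts s).card := by
  obtain ⟨-, -, r3⟩ := all_ranges hs hℓ hw hu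
  unfold tt
  apply Finset.card_image_of_injOn
  intro x hx x' hx' h
  have h' := site_inj hN (r3 x hx) (r3 x' hx') h
  have h0 := congrFun h' 0
  have h1 := congrFun h' 1
  have h2 := congrFun h' 2
  simp only [Pi.add_apply, ff0, ff1, ff2, cv0, cv1, cv2] at h0 h1 h2
  obtain ⟨⟨x1, x2⟩, x3⟩ := x
  obtain ⟨⟨x1', x2'⟩, x3'⟩ := x'
  simp only at *
  have e1 : x1 = x1' := by omega
  have e2 : x2 = x2' := by omega
  have e3 : x3 = x3' := by omega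
  rw [e1, e2, e3]

/-- The trigger fails with small probability on large layers. -/
theorem Pr_not_trig {p : ℝ} (h0 : 0 ≤ p) (h1 : p ≤ 1) (i : Fin 7) (a : Fin 7 → ℤ) {s ℓ : ℕ}
    (hs : 5 ≤ s) (hℓ : 4 * 2 ^ s ≤ ℓ) (hN : ℓ < N) (hp8 : (8 : ℝ) ^ s * p ^ 2 ≤ 1)
    (hp6 : (6 : ℝ) ^ s * p ≤ 1) :
    Pr p (fun A : Finset (Fin 7 → ZMod N) => ¬ Trig i a ℓ (lift A)) ≤
      Real.exp (-((48 : ℝ) ^ s * p ^ 3 * (ℓ : ℝ) ^ 3 / 384)) := by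
  have h128 : 128 ≤ ℓ := by
    calc 128 = 4 * 2 ^ 5 := by norm_num
      _ ≤ 4 * 2 ^ s := Nat.mul_le_mul_left 4 (Nat.pow_le_pow_right (by norm_num) hs)
      _ ≤ ℓ := hℓ
  set E : (ℕ × ℕ × ℕ) → Finset (Fin 7 → ZMod N) → Prop := fun w A =>
    ∃ u ∈ Us s, cc i a ℓ w u ⊆ A ∧ ∃ y ∈ tt i a ℓ s w u, y ∈ A with hE
  set q : ℝ := (48 : ℝ) ^ s * p ^ 3 / 8 with hq
  have hq0 : 0 ≤ q := by positivity
  have hEw : ∀ w ∈ Ws ℓ, q ≤ Pr p (E w) := by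
    intro w hw
    have h2 := two_stage (V := Fin 7 → ZMod N) h0 h1 (Us s) (cc i a ℓ w) (tt i a ℓ s w) (Ts s).card
      (fun u hu u' hu' => cc_tt_disj hs hℓ hN hw hu hu')
      (fun u hu u' hu' hne => cc_cc_disj hs hℓ hN hw hu hu' hne)
      (fun u _ => Finset.card_le_two)
      (fun u hu => (card_tt hs hℓ hN hw hu).ge)
    refine le_trans ?_ h2
    have e1 := one_sub_pow_ge h0 h1 (card_Ts hs) (by positivity) (by nlinarith)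
    have e2 := one_sub_pow_ge (p := p ^ 2) (by positivity) (pow_le_one₀ h0 h1)
      (K := (Us s).card) (x := (8 : ℝ) ^ s) (by rw [card_Us]; push_cast; exact le_rfl) (by positivity)
      (by linarith [mul_comm ((8 : ℝ) ^ s) (p ^ 2)])
    have h48 : (48 : ℝ) ^ s = 6 ^ s * 8 ^ s := by rw [← mul_pow]; norm_num
    calc q = (p * (6 ^ s / 2) / 2) * (p ^ 2 * 8 ^ s / 2) := by rw [hq, h48]; ring
      _ ≤ _ := mul_le_mul e1 e2 (by positivity) (by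
          have : (1 - p) ^ (Ts s).card ≤ 1 := pow_le_one₀ (by linarith) (by linarith)
          linarith)
  calc Pr p (fun A : Finset (Fin 7 → ZMod N) => ¬ Trig i a ℓ (lift A))
      ≤ Pr p (fun A => ∀ w ∈ Ws ℓ, ¬ E w A) := by
        apply Pr_mono h0 h1
        intro A hA w hw hEA
        obtain ⟨u, hu, h3, h4⟩ := hEA
        exact hA (trial_trig hs hℓ hw hu h3 h4)
    _ ≤ Real.exp (-(q * (Ws ℓ).card)) := by
        apply Pr_forall_not_le h0 h1 (Ws ℓ) E (Zs i a ℓ)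
        · intro w hw
          apply dep_exists
          intro u hu
          apply dep_and
          · exact dep_mono (dep_subset _) (cc_sub_Zs hs hℓ hw hu)
          · exact dep_mono (dep_mem _) (tt_sub_Zs hs hℓ hw hu)
        · intro w _ w' _ hne
          exact Zs_disj hN hne
        · exact hEw
    _ ≤ Real.exp (-((48 : ℝ) ^ s * p ^ 3 * (ℓ : ℝ) ^ 3 / 384)) := by
        apply Real.exp_le_exp.2
        have h5 := card_Ws h128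
        have h6 := mul_le_mul_of_nonneg_left h5 hq0
        have h7 : q * ((ℓ : ℝ) ^ 3 / 48) = (48 : ℝ) ^ s * p ^ 3 * (ℓ : ℝ) ^ 3 / 384 := by rw [hq]; ring
        linarith

end geom

end Pool.Agent.Boot.Up
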