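import Pool.Agent.Boot.UpC

set_option autoImplicit false
set_option linter.unusedSectionVars false

open Set

namespace Pool.Agent.Boot.Up

theorem trig_mono {i : Fin 7} {a : Fin 7 → ℤ} {ℓ : ℕ} {B B' : Set (Fin 7 → ℤ)} (h : Trig i a ℓ B)
    (hB : B ⊆ B') : Trig i a ℓ B' := by
  obtain ⟨v, m, n, k, h1, h2, h3, h4, h5, h6, h7, h8, h9, h10, h11⟩ := h
  exact ⟨v, m, n, k, h1, h2, h3, h4, h5, h6, h7, h8, hB h9, hB h10, hB h11⟩

section geom

variable {N : ℕ} [NeZero N]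

theorem perc_of {A : Finset (Fin 7 → ZMod N)} {a : Fin 7 → ℤ} (hN : 40 ≤ N)
    (h0 : ∀ x : Fin 7 → ℤ, (∀ i, a i ≤ x i ∧ x i < a i + 40) → x ∈ lift A)
    (h : ∀ ℓ, 40 ≤ ℓ → ℓ < N → ∀ i, Trig i a ℓ (lift A)) : Perc (lift A) := by
  intro T hT hAT
  rw [Set.eq_univ_iff_forall]
  intro x
  -- translate
  set z : Fin 7 → ℤ := fun t => (x t - a t) / N with hz
  set T' : Set (Fin 7 → ℤ) := {y | y + (N : ℤ) • z ∈ T} with hT'
  have hcl : Closed T' := by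
    rintro y ⟨X, hX, hXy⟩
    apply hT
    refine ⟨X, hX, fun v hv => ?_⟩
    have h2 := hXy v hv
    rw [hT', Set.mem_ofPred_eq] at h2
    have e : y + (N : ℤ) • z + v = y + v + (N : ℤ) • z := by ring
    rw [e]
    exact h2
  have hsub : lift A ⊆ T' := by
    intro y hy
    apply hAT
    have e : (fun i => (((y + (N : ℤ) • z) i : ℤ) : ZMod N)) = fun i => ((y i : ℤ) : ZMod N) := by
      funext i
      simp
    show (fun i => (((y + (N : ℤ) • z) i : ℤ) : ZMod N)) ∈ A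
    rw [e]
    exact hy
  have hbox : ∀ ℓ, 40 ≤ ℓ → ℓ ≤ N → ∀ y : Fin 7 → ℤ, (∀ i, a i ≤ y i ∧ y i < a i + ℓ) → y ∈ T' := by
    intro ℓ hℓ
    induction ℓ, hℓ using Nat.le_induction with
    | base => intro _ y hy; exact hsub (h0 y (by simpa using hy))
    | succ ℓ hℓ ih =>
      intro hle y hy
      refine grow hcl (a := a) (ℓ := ℓ) (by omega) (ih (by omega))
        (fun i => trig_mono (h ℓ hℓ (by omega) i) hsub) y ?_
      intro i
      have := hy i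
      push_cast at this
      exact this
  have hNpos : (0 : ℤ) < N := by
    have : 0 < N := by omega
    exact_mod_cast this
  have h2 : x - (N : ℤ) • z ∈ T' := by
    apply hbox N hN le_rfl
    intro i
    have e1 : (x - (N : ℤ) • z) i = a i + (x i - a i) % N := by
      simp only [Pi.sub_apply, Pi.smul_apply, smul_eq_mul, hz]
      have := Int.emod_add_mul_ediv (x i - a i) N
      linarith
    rw [e1]
    have h3 := Int.emod_nonneg (x i - a i) hNpos.ne'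
    have h4 := Int.emod_lt_of_pos (x i - a i) hNpos
    constructor <;> omega
  rw [hT', Set.mem_ofPred_eq, sub_add_cancel] at h2
  exact h2

/-- image of a cube in the torus -/
noncomputable def CubF (a : Fin 7 → ℤ) (R : ℕ) : Finset (Fin 7 → ZMod N) :=
  (Fintype.piFinset fun t => Finset.Ico (a t) (a t + R)).image
    fun x => fun t => ((x t : ℤ) : ZMod N)

theorem mem_CubF {a : Fin 7 → ℤ} {R : ℕ} {y : Fin 7 → ZMod N} : y ∈ CubF a R ↔
    ∃ x : Fin 7 → ℤ, (∀ t, a t ≤ x t ∧ x t < a t + R) ∧ (fun t => ((x t : ℤ) : ZMod N)) = y := by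
  unfold CubF
  simp only [Finset.mem_image, Fintype.mem_piFinset, Finset.mem_Ico]

theorem card_CubF (a : Fin 7 → ℤ) (R : ℕ) : (CubF a R : Finset (Fin 7 → ZMod N)).card ≤ R ^ 7 := by
  unfold CubF
  refine Finset.card_image_le.trans ?_
  rw [Fintype.card_piFinset]
  simp

theorem Lam_sub_Cub {i : Fin 7} {a : Fin 7 → ℤ} {ℓ R : ℕ} (h : ℓ < R) :
    (LamF i a ℓ : Finset (Fin 7 → ZMod N)) ⊆ CubF a R := by
  intro y hy
  obtain ⟨v, hv, rfl⟩ := mem_LamF.1 hy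
  refine mem_CubF.2 ⟨a + (i.insertNth (ℓ : ℤ) v : Fin 7 → ℤ), fun t => ?_, rfl⟩
  have h' : (ℓ : ℤ) < R := by exact_mod_cast h
  rcases Fin.eq_self_or_eq_succAbove i t with rfl | ⟨j, rfl⟩
  · simp only [Pi.add_apply, Fin.insertNth_apply_same]
    constructor <;> omega
  · simp only [Pi.add_apply, Fin.insertNth_apply_succAbove]
    have := hv j
    constructor <;> omega

theorem Cub_mono {a : Fin 7 → ℤ} {R R' : ℕ} (h : R ≤ R') :
    (CubF a R : Finset (Fin 7 → ZMod N)) ⊆ CubF a R' := by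
  intro y hy
  obtain ⟨x, hx, rfl⟩ := mem_CubF.1 hy
  refine mem_CubF.2 ⟨x, fun t => ?_, rfl⟩
  have := hx t
  constructor <;> omega

theorem Cub_Lam_disj {i : Fin 7} {a : Fin 7 → ℤ} {ℓ R : ℕ} (h : R ≤ ℓ) (hN : ℓ < N) :
    Disjoint (CubF a R : Finset (Fin 7 → ZMod N)) (LamF i a ℓ) := by
  rw [Finset.disjoint_left]
  intro y hy hy'
  obtain ⟨x, hx, rfl⟩ := mem_CubF.1 hy
  obtain ⟨v, hv, h'⟩ := mem_LamF.1 hy'
  have h1 := cast_inj (box_of_layer (a := a) (i := i) hN hv) (fun t => ⟨(hx t).1, by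
    have := (hx t).2
    omega⟩) h'
  have h2 := congrFun h1 i
  simp only [Pi.add_apply, Fin.insertNth_apply_same] at h2
  have := hx i
  omega

/-- base points -/
def ab (R b : ℕ) : Fin 7 → ℤ := fun t => if t = 0 then (R : ℤ) * b else 0

theorem Cub_disj {R b b' : ℕ} (hb : b < N / R) (hb' : b' < N / R) (hne : b ≠ b') :
    Disjoint (CubF (ab R b) R : Finset (Fin 7 → ZMod N)) (CubF (ab R b') R) := by
  have hRpos : 0 < R := by
    rcases Nat.eq_zero_or_pos R with h | h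
    · rw [h] at hb; simp at hb
    · exact h
  have hbox : ∀ c, c < N / R → ∀ x : Fin 7 → ℤ, (∀ t, ab R c t ≤ x t ∧ x t < ab R c t + R) →
      ∀ t, (0 : Fin 7 → ℤ) t ≤ x t ∧ x t < (0 : Fin 7 → ℤ) t + N := by
    intro c hc x hx t
    have h1 := hx t
    have h2 : (c + 1) * R ≤ N := (Nat.le_div_iff_mul_le hRpos).1 hc
    have h2' : ((c : ℤ) + 1) * R ≤ N := by exact_mod_cast h2
    have hc0 : (0 : ℤ) ≤ (R : ℤ) * c := by positivity
    have h3 : (R : ℤ) ≤ N := by nlinarith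
    unfold ab at h1
    simp only [Pi.zero_apply, zero_add]
    split_ifs at h1 with ht
    · constructor
      · omega
      · nlinarith
    · constructor <;> omega
  rw [Finset.disjoint_left]
  intro y hy hy'
  obtain ⟨x, hx, rfl⟩ := mem_CubF.1 hy
  obtain ⟨x', hx', h'⟩ := mem_CubF.1 hy'
  have h1 := cast_inj (hbox b' hb' x' hx') (hbox b hb x hx) h'
  subst h1
  have e1 := hx 0
  have e2 := hx' 0
  simp only [ab, if_true] at e1 e2
  rcases Nat.lt_or_gt_of_ne hne with h | h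
  · have : (R : ℤ) * b + R ≤ R * b' := by
      have : ((b : ℤ) + 1) ≤ b' := by exact_mod_cast h
      nlinarith
    omega
  · have : (R : ℤ) * b' + R ≤ R * b := by
      have : ((b' : ℤ) + 1) ≤ b := by exact_mod_cast h
      nlinarith
    omega

/-- the local event -/
def Gd (a : Fin 7 → ℤ) (R : ℕ) (A : Finset (Fin 7 → ZMod N)) : Prop :=
  CubF a 40 ⊆ A ∧ ∀ z ∈ (Finset.univ : Finset (Fin 7)) ×ˢ Finset.Ico 40 R, Trig z.1 a z.2 (lift A)

theorem dep_Gd (a : Fin 7 → ℤ) {R : ℕ} (hR : 40 ≤ R) :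
    Dep (fun A : Finset (Fin 7 → ZMod N) => Gd a R A) (CubF a R) := by
  unfold Gd
  apply dep_and
  · exact dep_mono (dep_subset _) (Cub_mono hR)
  · apply dep_forall
    intro z hz
    rw [Finset.mem_product, Finset.mem_Ico] at hz
    exact dep_mono (dep_trig _ _ _) (Lam_sub_Cub hz.2.2)

theorem Pr_Gd_ge {p : ℝ} (h0 : 0 ≤ p) (h1 : p ≤ 1) (a : Fin 7 → ℤ) {s R : ℕ} (hs : 5 ≤ s)
    (hRN : R ≤ N) (hp8 : (8 : ℝ) ^ s * p ^ 2 ≤ 1) (hp6 : (6 : ℝ) ^ s * p ≤ 1)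
    (hρ : 7 * (R : ℝ) * Real.exp (-((48 : ℝ) ^ s * p ^ 3 * ((4 * 2 ^ s : ℕ) : ℝ) ^ 3 / 384)) ≤ 1 / 2) :
    p ^ 40 ^ 7 * (p ^ 3) ^ (7 * (4 * 2 ^ s)) / 2 ≤
      Pr p (fun A : Finset (Fin 7 → ZMod N) => Gd a R A) := by
  classical
  set ρ := Real.exp (-((48 : ℝ) ^ s * p ^ 3 * ((4 * 2 ^ s : ℕ) : ℝ) ^ 3 / 384)) with hρdef
  have hρ0 : 0 < ρ := Real.exp_pos _
  have hρ1 : ρ ≤ 1 := by
    apply Real.exp_le_one_iff.2
    have : 0 ≤ (48 : ℝ) ^ s * p ^ 3 * ((4 * 2 ^ s : ℕ) : ℝ) ^ 3 / 384 := by positivity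
    linarith
  have h128 : 128 ≤ 4 * 2 ^ s := by
    calc 128 = 4 * 2 ^ 5 := by norm_num
      _ ≤ 4 * 2 ^ s := Nat.mul_le_mul_left 4 (Nat.pow_le_pow_right (by norm_num) hs)
  have e1 : Pr p (fun A : Finset (Fin 7 → ZMod N) => Gd a R A) =
      p ^ (CubF a 40 : Finset (Fin 7 → ZMod N)).card *
        ∏ z ∈ (Finset.univ : Finset (Fin 7)) ×ˢ Finset.Ico 40 R,
          Pr p (fun A : Finset (Fin 7 → ZMod N) => Trig z.1 a z.2 (lift A)) := by
    unfold Gd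
    rw [Pr_and (S := CubF a 40) (S' := ((Finset.univ : Finset (Fin 7)) ×ˢ Finset.Ico 40 R).biUnion
      (fun z => LamF z.1 a z.2)) (dep_subset _), Pr_subset h1,
      Pr_forall ((Finset.univ : Finset (Fin 7)) ×ˢ Finset.Ico 40 R)
        (fun z A => Trig z.1 a z.2 (lift A)) (fun z => LamF z.1 a z.2)]
    · intro z _
      exact dep_trig _ _ _
    · intro z hz z' hz' hne
      rw [Finset.mem_product, Finset.mem_Ico] at hz hz'
      exact disj_layers (by omega) (by omega) hne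
    · apply dep_forall
      intro z hz
      exact dep_mono (dep_trig _ _ _) (Finset.subset_biUnion_of_mem (fun z : Fin 7 × ℕ => LamF z.1 a z.2) hz)
    · rw [Finset.disjoint_biUnion_right]
      intro z hz
      rw [Finset.mem_product, Finset.mem_Ico] at hz
      exact Cub_Lam_disj hz.2.1 (by omega)
  rw [e1]
  set φ : ℕ → ℝ := fun ℓ => if ℓ < 4 * 2 ^ s then p ^ 3 else 1 - ρ with hφ
  have hp3 : p ^ 3 ≤ 1 := pow_le_one₀ h0 h1
  have hp30 : 0 ≤ p ^ 3 := pow_nonneg h0 3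
  have hφ0 : ∀ ℓ, 0 ≤ φ ℓ := by
    intro ℓ
    simp only [hφ]
    split_ifs
    · exact hp30
    · linarith
  have e2 : ∏ z ∈ (Finset.univ : Finset (Fin 7)) ×ˢ Finset.Ico 40 R, φ z.2 ≤
      ∏ z ∈ (Finset.univ : Finset (Fin 7)) ×ˢ Finset.Ico 40 R,
          Pr p (fun A : Finset (Fin 7 → ZMod N) => Trig z.1 a z.2 (lift A)) := by
    apply Finset.prod_le_prod
    · intro z _; exact hφ0 _
    · intro z hz
      rw [Finset.mem_product, Finset.mem_Ico] at hz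
      simp only [hφ]
      split_ifs with hlt
      · exact Pr_trig_ge h0 h1 z.1 a hz.2.1
      · have h3 := Pr_not_trig h0 h1 z.1 a hs (not_lt.1 hlt) (show z.2 < N by omega) hp8 hp6
        rw [Pr_not] at h3
        have h4 : Real.exp (-((48 : ℝ) ^ s * p ^ 3 * (z.2 : ℝ) ^ 3 / 384)) ≤ ρ := by
          apply Real.exp_le_exp.2
          have h5 : ((4 * 2 ^ s : ℕ) : ℝ) ≤ (z.2 : ℝ) := by exact_mod_cast (not_lt.1 hlt)
          have h6 : ((4 * 2 ^ s : ℕ) : ℝ) ^ 3 ≤ (z.2 : ℝ) ^ 3 := pow_le_pow_left₀ (by positivity) h5 3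
          have h7 : 0 ≤ (48 : ℝ) ^ s * p ^ 3 := by positivity
          have h8 := mul_le_mul_of_nonneg_left h6 h7
          linarith
        linarith
  have e3 : (p ^ 3) ^ (4 * 2 ^ s) * (1 - ρ) ^ R ≤ ∏ ℓ ∈ Finset.Ico 40 R, φ ℓ := by
    simp only [hφ]
    rw [Finset.prod_ite, Finset.prod_const, Finset.prod_const]
    have c1 : ((Finset.Ico 40 R).filter (fun ℓ => ℓ < 4 * 2 ^ s)).card ≤ 4 * 2 ^ s := by
      calc _ ≤ (Finset.range (4 * 2 ^ s)).card := by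
            apply Finset.card_le_card
            intro ℓ hℓ
            rw [Finset.mem_filter] at hℓ
            exact Finset.mem_range.2 hℓ.2
        _ = _ := Finset.card_range _
    have c2 : ((Finset.Ico 40 R).filter (fun ℓ => ¬ ℓ < 4 * 2 ^ s)).card ≤ R := by
      calc _ ≤ (Finset.Ico 40 R).card := Finset.card_filter_le _ _
        _ ≤ R := by rw [Nat.card_Ico]; omega
    apply mul_le_mul
    · exact pow_le_pow_of_le_one hp30 hp3 c1
    · exact pow_le_pow_of_le_one (by linarith) (by linarith) c2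
    · exact pow_nonneg (by linarith) _
    · exact pow_nonneg hp30 _
  have e4 : ∏ z ∈ (Finset.univ : Finset (Fin 7)) ×ˢ Finset.Ico 40 R, φ z.2 =
      (∏ ℓ ∈ Finset.Ico 40 R, φ ℓ) ^ 7 := by
    rw [Finset.prod_product]
    simp
  have e5 : 1 / 2 ≤ ((1 - ρ) ^ R) ^ 7 := by
    rw [← pow_mul]
    have := one_add_mul_le_pow (a := -ρ) (by linarith) (R * 7)
    push_cast at this
    have e : (1 : ℝ) - ρ = 1 + -ρ := by ring
    rw [e]
    linarith
  have e6 : (p ^ 3) ^ (7 * (4 * 2 ^ s)) / 2 ≤ (∏ ℓ ∈ Finset.Ico 40 R, φ ℓ) ^ 7 := by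
    calc (p ^ 3) ^ (7 * (4 * 2 ^ s)) / 2 = ((p ^ 3) ^ (4 * 2 ^ s)) ^ 7 * (1 / 2) := by
          have e8 : (p ^ 3) ^ (7 * (4 * 2 ^ s)) = ((p ^ 3) ^ (4 * 2 ^ s)) ^ 7 := by
            rw [← pow_mul (p ^ 3), mul_comm (4 * 2 ^ s) 7]
          rw [e8, div_eq_mul_one_div]
      _ ≤ ((p ^ 3) ^ (4 * 2 ^ s)) ^ 7 * ((1 - ρ) ^ R) ^ 7 :=
          mul_le_mul_of_nonneg_left e5 (by positivity)
      _ = ((p ^ 3) ^ (4 * 2 ^ s) * (1 - ρ) ^ R) ^ 7 := by rw [mul_pow]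
      _ ≤ _ := pow_le_pow_left₀ (mul_nonneg (by positivity) (pow_nonneg (by linarith) _)) e3 7
  have e7 : p ^ 40 ^ 7 ≤ p ^ (CubF a 40 : Finset (Fin 7 → ZMod N)).card :=
    pow_le_pow_of_le_one h0 h1 (card_CubF a 40)
  calc p ^ 40 ^ 7 * (p ^ 3) ^ (7 * (4 * 2 ^ s)) / 2 = p ^ 40 ^ 7 * ((p ^ 3) ^ (7 * (4 * 2 ^ s)) / 2) := by
        rw [mul_div_assoc]
    _ ≤ _ := mul_le_mul e7 (e6.trans (e4.ge.trans e2)) (by positivity) (by positivity)

theorem Pr_perc_ge {p : ℝ} (h0 : 0 ≤ p) (h1 : p ≤ 1) {s R : ℕ} (hs : 5 ≤ s) (hR : 4 * 2 ^ s ≤ R)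
    (hRN : R < N) (hp8 : (8 : ℝ) ^ s * p ^ 2 ≤ 1) (hp6 : (6 : ℝ) ^ s * p ≤ 1)
    (hρ : 7 * (R : ℝ) * Real.exp (-((48 : ℝ) ^ s * p ^ 3 * ((4 * 2 ^ s : ℕ) : ℝ) ^ 3 / 384)) ≤ 1 / 2) :
    1 - Real.exp (-(p ^ 40 ^ 7 * (p ^ 3) ^ (7 * (4 * 2 ^ s)) / 2 * ((N / R : ℕ) : ℝ))) -
      7 * (N : ℝ) ^ 2 * Real.exp (-((48 : ℝ) ^ s * p ^ 3 * (R : ℝ) ^ 3 / 384)) ≤
      Pr p (fun A : Finset (Fin 7 → ZMod N) => Perc (lift A)) := by
  classical
  have h128 : 128 ≤ 4 * 2 ^ s := by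
    calc 128 = 4 * 2 ^ 5 := by norm_num
      _ ≤ 4 * 2 ^ s := Nat.mul_le_mul_left 4 (Nat.pow_le_pow_right (by norm_num) hs)
  set K := N / R with hK
  set I : Finset (ℕ × Fin 7 × ℕ) := Finset.range K ×ˢ (Finset.univ : Finset (Fin 7)) ×ˢ Finset.Ico R N with hI
  have f1 : Pr p (fun A : Finset (Fin 7 → ZMod N) => ∀ b ∈ Finset.range K, ¬ Gd (ab R b) R A) ≤
      Real.exp (-(p ^ 40 ^ 7 * (p ^ 3) ^ (7 * (4 * 2 ^ s)) / 2 * ((N / R : ℕ) : ℝ))) := by
    have := Pr_forall_not_le (V := Fin 7 → ZMod N) h0 h1 (Finset.range K) (fun b A => Gd (ab R b) R A)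
      (fun b => CubF (ab R b) R) (fun b _ => dep_Gd _ (by omega)) (by
        intro b hb b' hb' hne
        exact Cub_disj (Finset.mem_range.1 hb) (Finset.mem_range.1 hb') hne)
      (fun b _ => Pr_Gd_ge h0 h1 (ab R b) hs hRN.le hp8 hp6 hρ)
    rwa [Finset.card_range] at this
  have f2 : Pr p (fun A : Finset (Fin 7 → ZMod N) => ∃ z ∈ I, ¬ Trig z.2.1 (ab R z.1) z.2.2 (lift A)) ≤
      7 * (N : ℝ) ^ 2 * Real.exp (-((48 : ℝ) ^ s * p ^ 3 * (R : ℝ) ^ 3 / 384)) := by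
    refine (Pr_exists_le h0 h1 I (fun z (A : Finset (Fin 7 → ZMod N)) =>
      ¬ Trig z.2.1 (ab R z.1) z.2.2 (lift A))).trans ?_
    have g1 : ∀ z ∈ I, Pr p (fun A : Finset (Fin 7 → ZMod N) => ¬ Trig z.2.1 (ab R z.1) z.2.2 (lift A)) ≤
        Real.exp (-((48 : ℝ) ^ s * p ^ 3 * (R : ℝ) ^ 3 / 384)) := by
      intro z hz
      simp only [hI, Finset.mem_product, Finset.mem_Ico, Finset.mem_range, Finset.mem_univ, true_and] at hz
      refine (Pr_not_trig h0 h1 z.2.1 (ab R z.1) hs (hR.trans hz.2.1) hz.2.2 hp8 hp6).trans ?_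
      apply Real.exp_le_exp.2
      have h5 : (R : ℝ) ≤ (z.2.2 : ℝ) := by exact_mod_cast hz.2.1
      have h6 : (R : ℝ) ^ 3 ≤ (z.2.2 : ℝ) ^ 3 := pow_le_pow_left₀ (by positivity) h5 3
      have h7 : 0 ≤ (48 : ℝ) ^ s * p ^ 3 := by positivity
      have h8 := mul_le_mul_of_nonneg_left h6 h7
      linarith
    refine (Finset.sum_le_card_nsmul _ _ _ g1).trans ?_
    rw [nsmul_eq_mul]
    apply mul_le_mul_of_nonneg_right _ (Real.exp_pos _).le
    have hcard : I.card = K * (7 * (N - R)) := by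
      simp [hI, Finset.card_product]
    have hKN : K ≤ N := Nat.div_le_self _ _
    have : I.card ≤ 7 * N ^ 2 := by
      rw [hcard]
      calc K * (7 * (N - R)) ≤ N * (7 * N) := Nat.mul_le_mul hKN (Nat.mul_le_mul_left 7 (Nat.sub_le _ _))
        _ = 7 * N ^ 2 := by ring
    exact_mod_cast this
  have f3 : Pr p (fun A : Finset (Fin 7 → ZMod N) => ¬ Perc (lift A)) ≤
      Pr p (fun A : Finset (Fin 7 → ZMod N) => (∀ b ∈ Finset.range K, ¬ Gd (ab R b) R A) ∨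
        ∃ z ∈ I, ¬ Trig z.2.1 (ab R z.1) z.2.2 (lift A)) := by
    apply Pr_mono h0 h1
    intro A hA
    by_contra hcon
    push Not at hcon
    obtain ⟨⟨b, hb, hG⟩, hI'⟩ := hcon
    apply hA
    apply perc_of (a := ab R b) (by omega)
    · intro x hx
      exact hG.1 (mem_CubF.2 ⟨x, by simpa using hx, rfl⟩)
    · intro ℓ hℓ hℓN i
      rcases lt_or_ge ℓ R with h | h
      · exact hG.2 (i, ℓ) (by simp [hℓ, h])
      · exact hI' (b, i, ℓ) (by
          simp only [hI, Finset.mem_product, Finset.mem_Ico, Finset.mem_univ, true_and]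
          exact ⟨hb, h, hℓN⟩)
  have f4 := Pr_or_le h0 h1 (fun A : Finset (Fin 7 → ZMod N) => ∀ b ∈ Finset.range K, ¬ Gd (ab R b) R A)
    (fun A => ∃ z ∈ I, ¬ Trig z.2.1 (ab R z.1) z.2.2 (lift A))
  have f5 := Pr_not p (fun A : Finset (Fin 7 → ZMod N) => Perc (lift A))
  linarith

end geom

end Pool.Agent.Boot.Up
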