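import Pool.Agent.Boot.UpD

set_option autoImplicit false
set_option linter.unusedSectionVars false

open Set Filter

namespace Pool.Agent.Boot.Up

theorem theta_ge : 3 / 2 ≤ Real.logb 2 3 := by
  rw [Real.le_logb_iff_rpow_le (by norm_num) (by norm_num)]
  have h : ((2 : ℝ) ^ (3 / 2 : ℝ)) ^ (2 : ℕ) ≤ (3 : ℝ) ^ (2 : ℕ) := by
    rw [← Real.rpow_natCast, ← Real.rpow_mul (by norm_num)]
    norm_num
  exact le_of_pow_le_pow_left₀ (by norm_num) (by norm_num) h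

theorem theta_le : Real.logb 2 3 ≤ 7 / 4 := by
  rw [Real.logb_le_iff_le_rpow (by norm_num) (by norm_num)]
  have h : (3 : ℝ) ^ (4 : ℕ) ≤ ((2 : ℝ) ^ (7 / 4 : ℝ)) ^ (4 : ℕ) := by
    rw [← Real.rpow_natCast ((2 : ℝ) ^ (7 / 4 : ℝ)), ← Real.rpow_mul (by norm_num)]
    norm_num
  exact le_of_pow_le_pow_left₀ (by norm_num) (by positivity) h

theorem alph_ge : 17 / 6 ≤ alph := by
  have := theta_ge
  unfold alph
  linarith

theorem alph_le : alph ≤ 3 := by
  have := theta_le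
  unfold alph
  linarith

theorem ev_log_le {c δ : ℝ} (hc : 0 < c) (hδ : 0 < δ) :
    ∀ᶠ L : ℝ in atTop, Real.log L ≤ c * L ^ δ := by
  have h := (isLittleO_log_rpow_atTop hδ).bound hc
  filter_upwards [h, eventually_ge_atTop (0 : ℝ)] with L hL hL0
  have h2 := (le_abs_self _).trans hL
  rwa [Real.norm_of_nonneg (Real.rpow_nonneg hL0 _)] at h2

theorem ev_exp_ge {c β : ℝ} (C : ℝ) (hc : 0 < c) (hβ : 0 < β) :
    ∀ᶠ L : ℝ in atTop, C * L ^ 2 ≤ Real.exp (c * L ^ β) := by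
  have h := isLittleO_rpow_exp_pos_mul_atTop (2 / β) hc
  have h1 := (h.comp_tendsto (tendsto_rpow_atTop hβ)).bound (c := 1 / (|C| + 1)) (by positivity)
  filter_upwards [h1, eventually_ge_atTop (0 : ℝ)] with L hL hL0
  have e : (L ^ β) ^ (2 / β) = L ^ 2 := by
    rw [← Real.rpow_mul hL0, mul_div_cancel₀ _ hβ.ne', Real.rpow_two]
  simp only [Function.comp] at hL
  rw [e, Real.norm_of_nonneg (by positivity), Real.norm_of_nonneg (by positivity)] at hL
  have h3 : (|C| + 1) * L ^ 2 ≤ Real.exp (c * L ^ β) := by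
    have := mul_le_mul_of_nonneg_left hL (by positivity : 0 ≤ |C| + 1)
    have e2 : (|C| + 1) * (1 / (|C| + 1) * Real.exp (c * L ^ β)) = Real.exp (c * L ^ β) := by
      field_simp
    linarith
  have h4 : C * L ^ 2 ≤ (|C| + 1) * L ^ 2 :=
    mul_le_mul_of_nonneg_right (by linarith [le_abs_self C]) (by positivity)
  linarith

theorem g_lower {p l : ℝ} (hp : Real.exp (-(3 * l)) ≤ p) (M W : ℕ) :
    Real.exp (-(3 * l * (M + 21 * W))) ≤ p ^ M * (p ^ 3) ^ (7 * W) := by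
  have h0 : 0 < Real.exp (-(3 * l)) := Real.exp_pos _
  have e : Real.exp (-(3 * l * (M + 21 * W))) =
      Real.exp (-(3 * l)) ^ M * (Real.exp (-(3 * l)) ^ 3) ^ (7 * W) := by
    rw [← pow_mul, ← Real.exp_nat_mul, ← Real.exp_nat_mul, ← Real.exp_add]
    congr 1
    push_cast
    ring
  rw [e]
  have h1 : Real.exp (-(3 * l)) ^ M ≤ p ^ M := pow_le_pow_left₀ h0.le hp M
  have h2 : Real.exp (-(3 * l)) ^ 3 ≤ p ^ 3 := pow_le_pow_left₀ h0.le hp 3
  have h3 : (Real.exp (-(3 * l)) ^ 3) ^ (7 * W) ≤ (p ^ 3) ^ (7 * W) :=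
    pow_le_pow_left₀ (by positivity) h2 _
  exact mul_le_mul h1 h3 (by positivity) ((pow_nonneg h0.le M).trans h1)

/-- choice of the scale `s` -/
theorem exists_scale {δ L : ℝ} (hL : 1 < L) (h8 : 8 ≤ (1 - δ) * Real.logb 2 L) :
    ∃ s : ℕ, 5 ≤ s ∧ 4 * (2 : ℝ) ^ s ≤ L ^ (1 - δ) ∧ L ^ (1 - δ) < 8 * (2 : ℝ) ^ s := by
  have hL0 : 0 < L := by linarith
  set y := (1 - δ) * Real.logb 2 L with hy
  have e2 : (2 : ℝ) ^ y = L ^ (1 - δ) := by
    rw [hy, mul_comm, Real.rpow_mul (by norm_num), Real.rpow_logb (by norm_num) (by norm_num) hL0]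
  have hf : 8 ≤ ⌊y⌋₊ := Nat.le_floor (by exact_mod_cast h8)
  obtain ⟨s, hs⟩ : ∃ s, ⌊y⌋₊ = s + 2 := ⟨⌊y⌋₊ - 2, by omega⟩
  refine ⟨s, by omega, ?_, ?_⟩
  · have h1 : ((⌊y⌋₊ : ℕ) : ℝ) ≤ y := Nat.floor_le (by linarith)
    have h2 : (2 : ℝ) ^ ((⌊y⌋₊ : ℕ) : ℝ) ≤ 2 ^ y := Real.rpow_le_rpow_of_exponent_le (by norm_num) h1
    rw [Real.rpow_natCast, hs, e2, pow_add] at h2
    linarith
  · have h1 : y < (⌊y⌋₊ : ℝ) + 1 := Nat.lt_floor_add_one y
    have h2 : (2 : ℝ) ^ y < 2 ^ (((⌊y⌋₊ + 1 : ℕ)) : ℝ) :=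
      Real.rpow_lt_rpow_of_exponent_lt (by norm_num) (by push_cast; exact h1)
    rw [Real.rpow_natCast, hs, e2] at h2
    calc L ^ (1 - δ) < 2 ^ (s + 2 + 1) := h2
      _ = 8 * 2 ^ s := by ring

theorem three_pow (s : ℕ) : (3 : ℝ) ^ s = ((2 : ℝ) ^ s) ^ Real.logb 2 3 := by
  rw [← Real.rpow_natCast 2 s, ← Real.rpow_mul (by norm_num), mul_comm, Real.rpow_mul (by norm_num),
    Real.rpow_logb (by norm_num) (by norm_num) (by norm_num), Real.rpow_natCast]

theorem x_pow (s : ℕ) : (48 : ℝ) ^ s * ((2 : ℝ) ^ s) ^ 3 = ((2 : ℝ) ^ s) ^ (3 * alph) := by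
  have h : 3 * alph = (7 : ℕ) + Real.logb 2 3 := by
    unfold alph; push_cast; ring
  have hx : (0 : ℝ) < (2 : ℝ) ^ s := by positivity
  rw [h, Real.rpow_add hx, Real.rpow_natCast, ← three_pow]
  have : (48 : ℝ) ^ s = ((2 : ℝ) ^ s) ^ 4 * 3 ^ s := by
    rw [← pow_mul, mul_comm s 4, pow_mul, ← mul_pow]
    norm_num
  rw [this]
  ring

theorem x_pow6 (s : ℕ) : (6 : ℝ) ^ s = ((2 : ℝ) ^ s) ^ (1 + Real.logb 2 3) := by
  have hx : (0 : ℝ) < (2 : ℝ) ^ s := by positivity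
  rw [Real.rpow_add hx, Real.rpow_one, ← three_pow, ← mul_pow]
  norm_num

theorem upper_prob_L {ε : ℝ} (hε : 0 < ε) (hε' : ε < 1 / 100) : ∀ᶠ L : ℝ in atTop,
    ∀ (N : ℕ) [NeZero N], Real.log N = L →
      1 / 2 ≤ Pr (L ^ (-((1 - ε) * alph))) (fun A : Finset (Fin 7 → ZMod N) => Perc (lift A)) := by
  have al1 := alph_ge
  have al2 := alph_le
  obtain ⟨δ, hδ⟩ : ∃ δ, ε = 2 * δ := ⟨ε / 2, by ring⟩
  have hδ0 : 0 < δ := by linarith
  have hδ1 : δ < 1 / 200 := by linarith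
  set c : ℝ := (8 : ℝ) ^ (-(3 * alph)) / 6 with hc
  have hc0 : 0 < c := by positivity
  set β : ℝ := 3 * alph * δ with hβ
  have hβ0 : 0 < β := by positivity
  obtain ⟨M, hM⟩ : ∃ M : ℕ, M = 40 ^ 7 := ⟨_, rfl⟩
  set c' : ℝ := 1 / (12 * ((M : ℝ) + 21)) with hc'
  have hc'0 : 0 < c' := by positivity
  have ev8 : ∀ᶠ L : ℝ in atTop, 8 ≤ (1 - δ) * Real.logb 2 L :=
    ((Real.tendsto_logb_atTop (b := 2) (by norm_num)).const_mul_atTop
      (by linarith : 0 < 1 - δ)).eventually_ge_atTop 8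
  have evc : ∀ᶠ L : ℝ in atTop, 1 ≤ c * L ^ β :=
    ((tendsto_rpow_atTop hβ0).const_mul_atTop hc0).eventually_ge_atTop 1
  filter_upwards [eventually_ge_atTop (100 : ℝ), ev8, evc, ev_log_le hc'0 hδ0,
    ev_exp_ge 28 hc0 hβ0, ev_exp_ge (c := 1 / 2) (β := 1) 4 (by norm_num) (by norm_num)]
    with L hL h8 hcL hlog hexp hexp2 N _ hN
  have hL0 : 0 < L := by linarith
  have hL1 : 1 < L := by linarith
  have hlogL : 0 ≤ Real.log L := Real.log_nonneg hL1.le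
  have hN0 : (0 : ℝ) < N := by
    have := NeZero.pos N
    exact_mod_cast this
  have hNe : (N : ℝ) = Real.exp L := by rw [← hN, Real.exp_log hN0]
  rw [Real.rpow_one] at hexp2
  set p : ℝ := L ^ (-((1 - ε) * alph)) with hp
  have hp0 : 0 < p := Real.rpow_pos_of_pos hL0 _
  have hexpo : 11 / 4 ≤ (1 - ε) * alph := by
    have := mul_le_mul (by linarith : (99 / 100 : ℝ) ≤ 1 - ε) al1 (by norm_num) (by linarith)
    linarith
  have hexpo3 : (1 - ε) * alph ≤ 3 := by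
    have := mul_le_mul (by linarith : 1 - ε ≤ (1 : ℝ)) al2 (by linarith) (by norm_num)
    linarith
  have hL2 : 1 ≤ L ^ 2 := one_le_pow₀ hL1.le
  have hLL : L ≤ L ^ 2 := le_self_pow₀ hL1.le two_ne_zero
  have hp1 : p ≤ L ^ (-(11 / 4 : ℝ)) := Real.rpow_le_rpow_of_exponent_le hL1.le (by linarith)
  have hp1' : p ≤ 1 := hp1.trans (Real.rpow_le_one_of_one_le_of_nonpos hL1.le (by norm_num))
  obtain ⟨s, hs5, hs1, hs2⟩ := exists_scale hL1 h8
  set x : ℝ := (2 : ℝ) ^ s with hx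
  have hx0 : 0 < x := by positivity
  have hx1 : 1 ≤ x := one_le_pow₀ (by norm_num)
  have hLd : L ^ (1 - δ) ≤ L := by
    calc L ^ (1 - δ) ≤ L ^ (1 : ℝ) := Real.rpow_le_rpow_of_exponent_le hL1.le (by linarith)
      _ = L := Real.rpow_one L
  have hLd1 : 1 ≤ L ^ (1 - δ) := Real.one_le_rpow hL1.le (by linarith)
  have hxL : 4 * x ≤ L := hs1.trans hLd
  have hxL' : x ≤ L := by linarith
  -- R
  set R : ℕ := ⌈L ^ 2⌉₊ with hR
  have hR1 : L ^ 2 ≤ (R : ℝ) := Nat.le_ceil _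
  have hR2 : (R : ℝ) ≤ 2 * L ^ 2 := by
    have := (Nat.ceil_lt_add_one (by positivity : (0 : ℝ) ≤ L ^ 2)).le
    rw [← hR] at this
    linarith
  have hRpos : (0 : ℝ) < R := lt_of_lt_of_le (by positivity) hR1
  have hcast : ((4 * 2 ^ s : ℕ) : ℝ) = 4 * x := by push_cast; rw [hx]
  have c1 : 4 * 2 ^ s ≤ R := by
    have : ((4 * 2 ^ s : ℕ) : ℝ) ≤ R := by
      rw [hcast]; linarith
    exact_mod_cast this
  have c2 : R < N := by
    have h1 : Real.exp (1 / 2 * L) < Real.exp L := Real.exp_lt_exp.2 (by linarith)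
    have : (R : ℝ) < N := by
      rw [hNe]
      linarith
    exact_mod_cast this
  have c3 : (8 : ℝ) ^ s * p ^ 2 ≤ 1 := by
    have e : (8 : ℝ) ^ s = x ^ 3 := by
      rw [hx, ← pow_mul, mul_comm s 3, pow_mul]; norm_num
    rw [e]
    have h1 : x ^ 3 ≤ L ^ 3 := pow_le_pow_left₀ hx0.le hxL' 3
    have h2 : p ^ 2 ≤ (L ^ (-(11 / 4 : ℝ))) ^ 2 := pow_le_pow_left₀ hp0.le hp1 2
    have h3 : L ^ 3 * (L ^ (-(11 / 4 : ℝ))) ^ 2 ≤ 1 := by
      rw [← Real.rpow_natCast L 3, ← Real.rpow_natCast (L ^ (-(11 / 4 : ℝ))) 2, ← Real.rpow_mul hL0.le,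
        ← Real.rpow_add hL0]
      exact Real.rpow_le_one_of_one_le_of_nonpos hL1.le (by norm_num)
    exact (mul_le_mul h1 h2 (by positivity) (by positivity)).trans h3
  have c4 : (6 : ℝ) ^ s * p ≤ 1 := by
    rw [x_pow6 s, ← hx]
    have h1 : x ^ (1 + Real.logb 2 3) ≤ L ^ (11 / 4 : ℝ) := by
      calc x ^ (1 + Real.logb 2 3) ≤ L ^ (1 + Real.logb 2 3) :=
            Real.rpow_le_rpow hx0.le hxL' (by linarith [theta_ge])
        _ ≤ L ^ (11 / 4 : ℝ) := Real.rpow_le_rpow_of_exponent_le hL1.le (by linarith [theta_le])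
    calc x ^ (1 + Real.logb 2 3) * p ≤ L ^ (11 / 4 : ℝ) * L ^ (-(11 / 4 : ℝ)) :=
          mul_le_mul h1 hp1 hp0.le (by positivity)
      _ = 1 := by
          rw [← Real.rpow_add hL0]; norm_num
  -- the quantity Y
  set Y : ℝ := (48 : ℝ) ^ s * p ^ 3 * ((4 * 2 ^ s : ℕ) : ℝ) ^ 3 / 384 with hY
  have hY1 : c * L ^ β ≤ Y := by
    have e1 : Y = x ^ (3 * alph) * p ^ 3 / 6 := by
      rw [hY, hcast, hx, ← x_pow s]
      ring
    have e2 : (L ^ (1 - δ) / 8) ^ (3 * alph) ≤ x ^ (3 * alph) :=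
      Real.rpow_le_rpow (by positivity) (by linarith) (by linarith)
    have e3 : (L ^ (1 - δ) / 8) ^ (3 * alph) = L ^ ((1 - δ) * (3 * alph)) * (8 : ℝ) ^ (-(3 * alph)) := by
      rw [Real.div_rpow (by positivity) (by norm_num), ← Real.rpow_mul hL0.le,
        Real.rpow_neg (by norm_num), div_eq_mul_inv]
    have e4 : p ^ 3 = L ^ (-((1 - ε) * alph) * 3) := by
      rw [hp, ← Real.rpow_natCast, ← Real.rpow_mul hL0.le]
      norm_num
    have e5 : L ^ ((1 - δ) * (3 * alph)) * L ^ (-((1 - ε) * alph) * 3) = L ^ β := by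
      rw [← Real.rpow_add hL0]
      congr 1
      rw [hβ, hδ]; ring
    rw [e1]
    calc c * L ^ β = (L ^ (1 - δ) / 8) ^ (3 * alph) * p ^ 3 / 6 := by
          rw [e3, e4, ← e5, hc]; ring
      _ ≤ x ^ (3 * alph) * p ^ 3 / 6 := by
          apply div_le_div_of_nonneg_right _ (by norm_num)
          exact mul_le_mul_of_nonneg_right e2 (by positivity)
  have hY2 : 1 ≤ Y := hcL.trans hY1
  have c5 : 7 * (R : ℝ) * Real.exp (-Y) ≤ 1 / 2 := by
    have h1 : Real.exp (-Y) ≤ Real.exp (-(c * L ^ β)) := Real.exp_le_exp.2 (by linarith)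
    have h2 : 28 * L ^ 2 * Real.exp (-(c * L ^ β)) ≤ 1 := by
      calc 28 * L ^ 2 * Real.exp (-(c * L ^ β)) ≤ Real.exp (c * L ^ β) * Real.exp (-(c * L ^ β)) :=
            mul_le_mul_of_nonneg_right hexp (Real.exp_pos _).le
        _ = 1 := by rw [← Real.exp_add]; simp
    have h3 : 7 * (R : ℝ) * Real.exp (-Y) ≤ 7 * (2 * L ^ 2) * Real.exp (-(c * L ^ β)) :=
      mul_le_mul (by linarith) h1 (Real.exp_pos _).le (by positivity)
    linarith
  have main := Pr_perc_ge (N := N) hp0.le hp1' hs5 c1 c2 c3 c4 c5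
  -- second error term
  have t2 : 7 * (N : ℝ) ^ 2 * Real.exp (-((48 : ℝ) ^ s * p ^ 3 * (R : ℝ) ^ 3 / 384)) ≤ 1 / 4 := by
    have h1 : L * (4 * x) ≤ R := by
      have := mul_le_mul_of_nonneg_left hxL hL0.le
      rw [← sq] at this
      linarith
    have h2 : (L * (4 * x)) ^ 3 ≤ (R : ℝ) ^ 3 := pow_le_pow_left₀ (by positivity) h1 3
    have h3 : Y * L ^ 3 ≤ (48 : ℝ) ^ s * p ^ 3 * (R : ℝ) ^ 3 / 384 := by
      rw [hY, hcast]
      have := mul_le_mul_of_nonneg_left h2 (by positivity : 0 ≤ (48 : ℝ) ^ s * p ^ 3)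
      calc (48 : ℝ) ^ s * p ^ 3 * (4 * x) ^ 3 / 384 * L ^ 3 =
            (48 : ℝ) ^ s * p ^ 3 * (L * (4 * x)) ^ 3 / 384 := by ring
        _ ≤ _ := by linarith
    have h4 : 3 * L ≤ Y * L ^ 3 := by
      have : L ^ 3 ≤ Y * L ^ 3 := le_mul_of_one_le_left (by positivity) hY2
      have h3L : 3 ≤ L ^ 2 := by linarith
      have := mul_le_mul_of_nonneg_right h3L hL0.le
      have e : L ^ 2 * L = L ^ 3 := by ring
      linarith
    have h5 : Real.exp (-((48 : ℝ) ^ s * p ^ 3 * (R : ℝ) ^ 3 / 384)) ≤ Real.exp (-(3 * L)) :=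
      Real.exp_le_exp.2 (by linarith)
    have h6 : (N : ℝ) ^ 2 * Real.exp (-(3 * L)) = Real.exp (-L) := by
      rw [hNe, ← Real.exp_nat_mul, ← Real.exp_add]
      congr 1
      push_cast; ring
    have h7 : Real.exp (-L) ≤ 1 / 28 := by
      rw [Real.exp_neg, ← one_div]
      apply one_div_le_one_div_of_le (by norm_num)
      linarith [Real.add_one_le_exp L]
    calc 7 * (N : ℝ) ^ 2 * Real.exp (-((48 : ℝ) ^ s * p ^ 3 * (R : ℝ) ^ 3 / 384)) ≤
          7 * (N : ℝ) ^ 2 * Real.exp (-(3 * L)) := mul_le_mul_of_nonneg_left h5 (by positivity)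
      _ = 7 * ((N : ℝ) ^ 2 * Real.exp (-(3 * L))) := by ring
      _ ≤ 1 / 4 := by rw [h6]; linarith
  -- first error term
  have t1 : Real.exp (-(p ^ 40 ^ 7 * (p ^ 3) ^ (7 * (4 * 2 ^ s)) / 2 * ((N / R : ℕ) : ℝ))) ≤ 1 / 4 := by
    rw [← hM]
    have hp3 : Real.exp (-(3 * Real.log L)) ≤ p := by
      have : Real.exp (-(3 * Real.log L)) = L ^ (-3 : ℝ) := by
        rw [Real.rpow_def_of_pos hL0]; congr 1; ring
      rw [this]
      exact Real.rpow_le_rpow_of_exponent_le hL1.le (by linarith)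
    have g1 := g_lower hp3 M (4 * 2 ^ s)
    have g2 : Real.exp (-(L / 4)) ≤ Real.exp (-(3 * Real.log L * ((M : ℝ) + 21 * ((4 * 2 ^ s : ℕ) : ℝ)))) := by
      apply Real.exp_le_exp.2
      rw [hcast, neg_le_neg_iff]
      have k1 : (M : ℝ) + 21 * (4 * x) ≤ ((M : ℝ) + 21) * L ^ (1 - δ) := by
        have : (M : ℝ) ≤ M * L ^ (1 - δ) := le_mul_of_one_le_right (Nat.cast_nonneg _) hLd1
        linarith
      have k2 : 3 * Real.log L * ((M : ℝ) + 21 * (4 * x)) ≤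
          3 * (c' * L ^ δ) * (((M : ℝ) + 21) * L ^ (1 - δ)) :=
        mul_le_mul (by linarith) k1 (by positivity) (by positivity)
      have k3 : L ^ δ * L ^ (1 - δ) = L := by
        rw [← Real.rpow_add hL0]
        have : δ + (1 - δ) = 1 := by ring
        rw [this, Real.rpow_one]
      have k4 : 3 * (c' * L ^ δ) * (((M : ℝ) + 21) * L ^ (1 - δ)) =
          3 * c' * ((M : ℝ) + 21) * (L ^ δ * L ^ (1 - δ)) := by ring
      have k5 : 3 * c' * ((M : ℝ) + 21) = 1 / 4 := by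
        rw [hc']
        have : ((M : ℝ) + 21) ≠ 0 := by positivity
        field_simp
        norm_num
      rw [k4, k3, k5] at k2
      linarith
    have g3 : Real.exp (-(L / 4)) ≤ p ^ M * (p ^ 3) ^ (7 * (4 * 2 ^ s)) := by
      refine g2.trans ?_
      exact_mod_cast g1
    have g4 : Real.exp (L / 2) ≤ ((N / R : ℕ) : ℝ) := by
      have k1 : (N : ℝ) < (((N / R : ℕ) : ℝ) + 1) * R := by
        have hRn : 0 < R := by exact_mod_cast hRpos
        have : N < (N / R + 1) * R := by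
          rw [mul_comm]; exact Nat.lt_mul_div_succ N hRn
        exact_mod_cast this
      have k2 : Real.exp L = Real.exp (L / 2) * Real.exp (L / 2) := by
        rw [← Real.exp_add]; congr 1; ring
      have k3 : 4 * L ^ 2 ≤ Real.exp (L / 2) := by
        have : 1 / 2 * L = L / 2 := by ring
        rwa [this] at hexp2
      have k4 : 1 ≤ Real.exp (L / 2) := Real.one_le_exp (by linarith)
      by_contra hcon
      push Not at hcon
      have k5 : (((N / R : ℕ) : ℝ) + 1) * R ≤ (2 * Real.exp (L / 2)) * (2 * L ^ 2) :=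
        mul_le_mul (by linarith) hR2 hRpos.le (by positivity)
      rw [hNe, k2] at k1
      have k6 := mul_le_mul_of_nonneg_left k3 (Real.exp_pos (L / 2)).le
      linarith
    have g5 : 2 ≤ p ^ M * (p ^ 3) ^ (7 * (4 * 2 ^ s)) / 2 * ((N / R : ℕ) : ℝ) := by
      have k1 : Real.exp (-(L / 4)) / 2 * Real.exp (L / 2) ≤
          p ^ M * (p ^ 3) ^ (7 * (4 * 2 ^ s)) / 2 * ((N / R : ℕ) : ℝ) :=
        mul_le_mul (by linarith) g4 (Real.exp_pos _).le (by positivity)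
      have k2 : Real.exp (-(L / 4)) / 2 * Real.exp (L / 2) = Real.exp (L / 4) / 2 := by
        have : Real.exp (L / 4) = Real.exp (-(L / 4)) * Real.exp (L / 2) := by
          rw [← Real.exp_add]; congr 1; ring
        rw [this]; ring
      have k3 := Real.add_one_le_exp (L / 4)
      rw [k2] at k1
      linarith
    have g6 : Real.exp (-2) ≤ 1 / 4 := by
      rw [Real.exp_neg, ← one_div]
      apply one_div_le_one_div_of_le (by norm_num)
      have := Real.quadratic_le_exp_of_nonneg (x := 2) (by norm_num)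
      linarith
    exact (Real.exp_le_exp.2 (by linarith)).trans g6
  linarith

end Pool.Agent.Boot.Up

namespace Pool.Agent.Boot

theorem upper_prob {ε : ℝ} (hε : 0 < ε) (hε' : ε < 1 / 100) : ∀ᶠ n : ℕ in Filter.atTop,
    1 / 2 ≤ Pr (Real.log ((n : ℝ) + 1) ^ (-((1 - ε) * alph)))
      (fun A : Finset (Fin 7 → ZMod (n + 1)) => Perc (lift A)) := by
  have h := Up.upper_prob_L hε hε'
  have ht : Tendsto (fun n : ℕ => Real.log ((n : ℝ) + 1)) atTop atTop :=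
    Real.tendsto_log_atTop.comp (tendsto_atTop_add_const_right _ _ tendsto_natCast_atTop_atTop)
  filter_upwards [ht.eventually h] with n hn
  exact hn (n + 1) (by push_cast; rfl)

end Pool.Agent.Boot
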